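import Pool.Agent.H23.D2.Rcd

/-!
# The rational points behind the windows `t` and `t + q`

`RecQ.ra`: rational windows `w'` near `t` and `a` near `t + q` with the numbers of the second threshold
structure.
-/

set_option autoImplicit false

namespace Pool.D2R

open Finset Real MvPolynomial
open Pool.Agent.H49.Ent Pool.Agent.H32.Dense Pool.STK Pool.KA Pool.KSAT Pool.K2S Pool.PB Pool.S6C
open Pool.GEN Pool.CHT Pool.CHX Pool.D2F
open Pool.LBT (ThrOf)
open Pool.FLF (Fam.sub)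
open Pool.PKG (RecQ PtI KdQ Kd)

/-- **The rational points** behind the windows `t` and `t + q`. -/
theorem RecQ.ra {m : ℕ} {S : PCl m} {P P₂ : List (Fin m) × Fin m → ℝ → ℝ → ℝ} {θ θ₂ : ℝ}
    {c : ℕ → Fin m} {i : ℕ} {Pt : ℝ → ℝ → ℝ} {L T : ℕ → ℝ → ℝ → ℝ} {Sl : ℕ → ℝ} {kd : ℕ → Kd}
    {S₀ N : ℕ} {Al V : ℕ → ℝ} {S₂ N' : ℕ} {V' : ℕ → ℝ} {Eb e₂ K ε q t : ℝ}
    (R : RecQ S P P₂ θ θ₂ c i Pt L T Sl kd S₀ N Al V S₂ N' V' Eb e₂ K ε q t) {y : ℝ}
    (hy : 0 < y) (hy1 : y ≤ 1 / 1000) (hεy : ε ≤ y / 4) (hK : 3 ≤ K) {j : ℕ} (hj : j < N)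
    (hA : Al j = 1) (hV : V j = 0) : ∃ a w' : ℚ, t + q < a ∧ (a : ℝ) < t + 2 * q ∧ t < w' ∧
      (w' : ℝ) < t + q ∧ 0 ≤ w' ∧ w' ≤ a ∧ a < 1 ∧ e₂ < θ₂ * a ∧ e₂ < θ₂ * w' ∧
      (∀ l ≤ i, bet P₂ c l a a + y * q ≤ 1) ∧
      (∀ l ≤ i, ∀ J : ℕ, (⌊(bet P₂ c l a a + y * q) * J⌋₊ : ℝ) ≤
        L l t t * J + Sl l * (q * J) + 5 * (y * (q * J))) ∧
      bet P₂ c i a w' ≤ L i (t + q) t + y * q := by
  have hq := R.q0
  have hyq : 0 < y * q := mul_pos hy hq
  obtain ⟨dr, hdr, hrat⟩ := R.rat j hj (y * q) hyq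
  rw [hA, hV, one_mul, zero_mul, add_zero] at hrat
  have mdr : 0 < min dr q := lt_min hdr hq
  obtain ⟨w', hw1, hw2⟩ := exists_rat_btwn (show t < t + min dr q by linarith only [mdr])
  obtain ⟨a, ha1, ha2⟩ := exists_rat_btwn (show t + q < t + q + min dr q by
    linarith only [mdr])
  have m1 := min_le_left dr q
  have m2 := min_le_right dr q
  have ht0 := R.t0
  have ht1 := R.t1
  have hKq : 3 * q ≤ K * q := mul_le_mul_of_nonneg_right hK hq.le
  obtain ⟨r1, r2, r3⟩ := hrat a w' ha1.le (by linarith only [ha2, m1]) hw1.le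
    (by linarith only [hw2, m1]) (by linarith only [hw2, ha1, m2])
  have bx : ∀ x : ℝ, t ≤ x → x ≤ t + 2 * q → |x - t| ≤ K * q := fun x h4 h5 => by
    rw [abs_le]
    exact ⟨by linarith only [h4, hKq, hq], by linarith only [h5, hKq, hq]⟩
  have L1 : ∀ l ≤ i, L l (t + q) (t + q) ≤ L l t t + Sl l * q + y / 4 * q := fun l hl => by
    have h4 := abs_le.1 (R.dL l hl (t + q) (bx _ (by linarith only [hq])
      (by linarith only [hq])))
    have h5 := mul_le_mul_of_nonneg_right hεy hq.le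
    rw [add_sub_cancel_left] at h4
    linarith only [h4.2, h5]
  have hEb := R.Eb0
  have hyq1 : y * q ≤ q / 1000 := by
    have := mul_le_mul_of_nonneg_right hy1 hq.le
    linarith only [this]
  have e3K : 3 * K * q = 3 * (K * q) := by ring
  have ha3 : (a : ℝ) < 1 := by linarith only [ha2, m2, ht1, hKq, hq]
  have hw3 : (0 : ℝ) ≤ w' := by linarith only [hw1, ht0, hKq, hq]
  have hwa : (w' : ℝ) ≤ a := by linarith only [hw2, ha1, m2]
  have hlow : ∀ l ≤ i, t ≤ L l t t := fun l hl => by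
    have h1 := RecQ.lowL R (x := 0) (Or.inl ⟨j, hj, hV⟩) (by linarith only [ht0, hKq, hq])
      (by linarith only [ht1, hKq, hq]) l hl
    rw [zero_mul, add_zero] at h1
    exact h1
  refine ⟨a, w', ha1, by linarith only [ha2, m2], hw1, by linarith only [hw2, m2],
    by exact_mod_cast hw3, by exact_mod_cast hwa, by exact_mod_cast ha3,
    R.e₂θ a (bx _ (by linarith only [ha1, hq]) (by linarith only [ha2, m2])),
    R.e₂θ w' (bx _ hw1.le (by linarith only [hw2, m2, hq])), fun l hl => ?_, fun l hl J => ?_, r1⟩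
  · have h1 := R.room l hl _ (bx (t + q) (by linarith only [hq]) (by linarith only [hq]))
    linarith only [h1, r3 l hl, e3K, hKq, hyq1, hEb, hq]
  · have hJ0 : (0 : ℝ) ≤ J := Nat.cast_nonneg J
    have h5 := L1 l hl
    have h6 : bet P₂ c l a a + y * q ≤ L l t t + Sl l * q + 5 * (y * q) := by
      linarith only [h5, r3 l hl, hyq]
    have h7 := mul_le_mul_of_nonneg_right h6 hJ0
    have e1 : (L l t t + Sl l * q + 5 * (y * q)) * J = L l t t * J + Sl l * (q * J) +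
        5 * (y * (q * J)) := by ring
    rw [e1] at h7
    rcases le_total 0 ((bet P₂ c l a a + y * q) * (J : ℝ)) with h8 | h8
    · exact (Nat.floor_le h8).trans h7
    · rw [Nat.floor_of_nonpos h8, Nat.cast_zero]
      have h9 := RecQ.sl1 R l hl
      have h10 : 0 ≤ L l t t * J := mul_nonneg (by
        linarith only [hlow l hl, ht0, hKq, hq]) hJ0
      have h11 : 0 ≤ Sl l * (q * J) := mul_nonneg (by linarith only [h9]) (mul_nonneg hq.le hJ0)
      have h12 : 0 ≤ y * (q * J) := mul_nonneg hy.le (mul_nonneg hq.le hJ0)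
      linarith only [h10, h11, h12]

end Pool.D2R
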