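import Pool.Agent.H66.D2.Apa
import Pool.Agent.H88.D2.Sfw

/-!
# Numbers of the windows from `ApN`

The conditions of `sta_two` from `ApN`.
-/

set_option autoImplicit false

namespace Pool.TN

open Finset Real MvPolynomial

section

variable {r N J A cl : ℕ} {Sc : ℕ → Prop} {w e pp : ℕ → ℕ} {g gc gT g₀ : ℕ → ℕ → ℕ}
    {U y τ Ee K A' : ℝ} {v Sl Λ : ℕ → ℝ}
    (h : ApN r N J A cl Sc w e pp g gc gT g₀ U y τ Ee K A' v Sl Λ)
include h

theorem ApN.cA {k : ℕ} (hk : k ≤ N) : ((A - w k : ℕ) : ℝ) = A - w k := by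
  rw [Nat.cast_sub (h.wA k hk)]

theorem ApN.yUs (hy : y ≤ 1 / 1000) : y * U ≤ U / 1000 := by
  have := mul_le_mul_of_nonneg_right hy h.U0.le
  linarith only [this]

/-- A level at a window. -/
theorem ApN.lw {k : ℕ} (hk : k ≤ N) {l : ℕ} (hl : l ≤ r) (hK : 2 ≤ K + v k)
    (hy : y ≤ 1 / 1000) : U ≤ Λ l + Sl l * v k * U := by
  have h1 := h.lo k hk l hl
  have h2 := mul_le_mul_of_nonneg_right hK h.U0.le
  linarith only [h1, h2, h.yUs hy, h.U0]

theorem ApN.gc0 {k : ℕ} (hk : k ≤ N) {l : ℕ} (hl : l ≤ r) (hK : 2 ≤ K + v k)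
    (hy : y ≤ 1 / 1000) (hA : v k + 1 ≤ A') : U ≤ gc k l := by
  have h1 := (h.gd k hk l hl).1
  have h2 := h.lw hk hl hK hy
  have h3 : U ≤ (A' - v k) * U := by
    have := mul_le_mul_of_nonneg_right hA h.U0.le
    linarith only [this]
  linarith only [h1, h2, h3, h.yUs hy, h.U0]

theorem ApN.g00 {k : ℕ} (hk : k ≤ N) {l : ℕ} (hl : l ≤ r) (hK : 2 ≤ K + v k)
    (hy : y ≤ 1 / 1000) : U / 2 ≤ g₀ k l := by
  have h1 := (h.ga k hk l hl).1
  have h2 := h.lw hk hl hK hy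
  linarith only [h1, h2, h.yUs hy, h.U0]

theorem ApN.pp0 {k : ℕ} (hk : k ≤ N) (hK : 2 ≤ K + v k)
    (hy : y ≤ 1 / 1000) (hA : v k + 1 ≤ A') : U ≤ pp k := by
  have h1 := h.pa k hk
  have h2 := h.lw hk le_rfl hK hy
  have h3 : U ≤ (A' - v k) * U := by
    have := mul_le_mul_of_nonneg_right hA h.U0.le
    linarith only [this]
  linarith only [h1, h2, h3, h.yUs hy, h.U0]

/-- The level of a static coordinate. -/
theorem ApN.gTs {k : ℕ} (hk : k ≤ N) {l : ℕ} (hl : l < r) (hs : Sc l) (hK : 2 ≤ K + v k)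
    (hy : y ≤ 1 / 1000) (hA : v k ≤ A') : U / 2 ≤ gT k l := by
  have h1 := (h.gs k hk l hl hs).1
  have h2 := h.lw hk hl.le hK hy
  have h3 : Sl l * v k * U ≤ Sl l * A' * U := mul_le_mul_of_nonneg_right
    (mul_le_mul_of_nonneg_left hA (by linarith only [h.sl l hl.le])) h.U0.le
  linarith only [h1, h2, h3, h.yUs hy, h.U0]

theorem ApN.gT0 {k : ℕ} (hk : k ≤ N) {l : ℕ} (hl : l < r) (hK : 2 ≤ K + v k)
    (hy : y ≤ 1 / 1000) (hA : v k + 1 ≤ A') : U / 2 ≤ gT k l := by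
  by_cases hs : Sc l
  · exact h.gTs hk hl hs hK hy (by linarith only [hA])
  · rw [h.gr k hk l hl hs]
    linarith only [h.gc0 hk hl.le hK hy hA, h.U0]

theorem ApN.ZN {X : ℕ} (hX : 20 * (y * U) ≤ X) {s i j : ℕ} (hs : s < r) (hsc : Sc s) (hi : i ≤ N)
    (hj : j ≤ N) (hij : v i ≤ v j) (hK : 2 ≤ K + v j)
    (hy : y ≤ 1 / 1000) (hA : v j + 1 ≤ A') : ZNum r N A cl X w pp gc gT g₀ s i j where
  jN := hj
  wj := h.wm i hi j hj hij
  th := fun l hl => ⟨nat_le_of_real (by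
    linarith only [h.gT0 hj hl hK hy hA, h.cl1, h.yUs hy, h.U0]), nat_le_of_real (by
    linarith only [h.gc0 hj hl.le hK hy hA, h.cl1, h.yUs hy, h.U0])⟩
  pj := nat_le_of_real (by linarith only [h.pp0 hj hK hy hA, h.cl1, h.yUs hy, h.U0])
  gr := nat_le_of_real (by linarith only [h.gc0 hj le_rfl hK hy hA, h.cl1, h.yUs hy, h.U0])
  lb := nat_le_of_real (by
    push_cast
    rw [h.cA hj]
    have h1 := (h.ga j hj s hs.le).2
    have h2 := (h.gs i hi s hs hsc).1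
    have h3 := h.A2
    have h4 := (h.w1 j hj).1
    have h5 : 0 ≤ (Sl s - 1) * (A' - v j) * U := by
      have : 0 ≤ Sl s - 1 := by linarith only [h.sl s hs.le]
      have : 0 ≤ A' - v j := by linarith only [hA]
      have := h.U0
      positivity
    linarith only [h1, h2, h3, h4, h5, hX, h.yU])

/-- The weight of a direction. -/
theorem ApN.wt2 {Q : ℕ} (hQ : (Q : ℝ) ≤ U / 100) {s x j k : ℕ} (hs : s ≤ r) (hx : x ≤ r)
    (hj : j ≤ N) (hk : k ≤ N) (hw : 1 ≤ (Sl s - 1 - Sl x) * (v j - v k))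
    (hy : y ≤ 1 / 1000) : w j + g₀ j x + g₀ k s + Q + Q ≤ w k + g₀ k x + g₀ j s := by
  refine nat_le_of_real ?_
  push_cast
  have h1 := (h.w1 j hj).2
  have h2 := (h.w1 k hk).1
  have h3 := (h.ga j hj x hx).2
  have h4 := (h.ga k hk s hs).2
  have h5 := (h.ga k hk x hx).1
  have h6 := (h.ga j hj s hs).1
  have h7 := mul_le_mul_of_nonneg_right hw h.U0.le
  linarith only [h1, h2, h3, h4, h5, h6, h7, hQ, h.yUs hy, h.yU, h.U0]

/-- The room at a window. -/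
theorem ApN.rm {k : ℕ} (hk : k ≤ N) {l : ℕ} (hl : l ≤ r) (hK : v k ≤ K) {Q : ℕ}
    (hQ : (Q : ℝ) ≤ U / 100) (hK1 : 1 ≤ K) (hy : y ≤ 1 / 1000) : e k + g₀ k l + Q ≤ J := by
  refine nat_le_of_real ?_
  push_cast
  have h1 := h.ro l hl
  have h2 := h.ee k hk
  have h3 := (h.ga k hk l hl).2
  have h4 : Sl l * v k * U ≤ Sl l * K * U := mul_le_mul_of_nonneg_right
    (mul_le_mul_of_nonneg_left hK (by linarith only [h.sl l hl])) h.U0.le
  have h5 : U ≤ K * U := by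
    have := mul_le_mul_of_nonneg_right hK1 h.U0.le
    linarith only [this]
  linarith only [h1, h2, h3, h4, h5, hQ, h.yUs hy, h.U0]

/-- The height of a static label over a ball. -/
theorem ApN.lst {i k s : ℕ} (hi : i ≤ N) (hk : k ≤ N) (hs : s < r) (hsc : Sc s) {Q : ℕ}
    (hQ : (Q : ℝ) ≤ U / 100) (hw : 1 ≤ (Sl s - 1) * (A' - v k))
    (hy : y ≤ 1 / 1000) : (A - w k) + g₀ k s + Q ≤ gT i s := by
  refine nat_le_of_real ?_
  push_cast
  rw [h.cA hk]
  have h1 := (h.ga k hk s hs.le).2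
  have h2 := (h.gs i hi s hs hsc).1
  have h3 := h.A2
  have h4 := (h.w1 k hk).1
  have h7 := mul_le_mul_of_nonneg_right hw h.U0.le
  linarith only [h1, h2, h3, h4, h7, hQ, h.yUs hy, h.yU, h.U0]

theorem ApN.mono {i j : ℕ} (hi : i ≤ N) (hj : j ≤ N) (hij : v i ≤ v j) : w i ≤ w j :=
  h.wm i hi j hj hij

/-- The relation of a ball `k` and a later ball `j`. -/
theorem ApN.brel {M X : ℕ} {z : ℕ → ℕ → ℕ} (hX : 20 * (y * U) ≤ X) (hr : 1 ≤ r) {j k : ℕ}
    (hj : j ≤ N) (hk : k ≤ N) (hjk : v k ≤ v j) (s0 : Sl 0 = 1)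
    (hz : z k 0 = w j - w k) : BRel M X w z g₀ j k := by
  have m := h.wm k hk j hj hjk
  have h1 := h.w1 j hj
  have h2 := h.w1 k hk
  have a0 := h.ga j hj 0 (by omega)
  have b0 := h.ga k hk 0 (by omega)
  rw [s0] at a0 b0
  refine Or.inr ⟨m, ⟨0, Nat.zero_le _, hz⟩, nat_le_of_real ?_, nat_le_of_real ?_⟩
  · push_cast
    linarith only [h1, h2, a0, b0, hX, h.yU]
  · push_cast
    rw [Nat.cast_sub m]
    have a1 := h.ga j hj 1 hr
    have b1 := h.ga k hk 1 hr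
    have h5 : 0 ≤ (Sl 1 - 1) * (v j - v k) * U := by
      have : 0 ≤ Sl 1 - 1 := by linarith only [h.sl 1 hr]
      have : 0 ≤ v j - v k := by linarith only [hjk]
      have := h.U0
      positivity
    linarith only [h1, h2, a1, b1, h5, hX, h.yU]

/-- The threshold at a window of position one. -/
theorem ApN.thr {X : ℕ} (hX : 20 * (y * U) ≤ X) {k l : ℕ} (hk : k ≤ N) (hl : l ≤ r)
    (v1 : v k = 1) {a b : ℕ} (ha : w k ≤ a) (hb : (b : ℝ) ≤ Λ l + Sl l * U + 5 * (y * U)) :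
    b + w k ≤ g₀ k l + X + a := by
  refine nat_le_of_real ?_
  push_cast
  have h1 := (h.ga k hk l hl).1
  rw [v1, mul_one] at h1
  have h2 : (w k : ℝ) ≤ a := by exact_mod_cast ha
  linarith only [h1, h2, hX, hb, h.yU]

end

end Pool.TN
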