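import Pool.Agent.H66.D2.Evp

/-!
# The closed second derivative at every point of the line

`zp_eval`: the polynomial `zp` at every relative time; `zp_use`: in a static cell, for the closed
charts `Xcf` (static coordinates: window `i₀`, rough coordinates: window `i₂`); `zp_row`: for the
closed row label of the window `i₁`.
-/

set_option autoImplicit false

namespace Pool.TN

open Finset Real MvPolynomial
open Pool.Agent.H49.Ent Pool.Agent.H32.Dense Pool.STK Pool.KA Pool.KSAT Pool.K2S Pool.PB Pool.S6C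
open Pool.GEN Pool.CHT Pool.CHX Pool.ISO Pool.D2R Pool.D2Z Pool.D2F
open Pool.FLF (Fam.sub)
open Pool.PB.Trl (rt rt_mem t_rt)

variable {m J : ℕ}

/-- **At every point of the line.** -/
theorem zp_eval {F : Fam m J} {c : ℕ → Fin m} {r : ℕ} (t : ℕ) (hc : Set.InjOn c (Set.Iio r))
    {Q : LnT F → MvPolynomial (Option (Fin m)) ℝ} {s : LnT F} (hQ : DepC c r (Q s))
    {Xc : LnT F → ℕ → MvPolynomial (Option (Fin m)) ℝ} (hX : ∀ l, DepC c l (Xc s l))
    (x : ℕ) (τ : ℝ) : (zp c r t Q Xc x s).eval τ =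
      hs (Q s) (xt t s τ) (wd s) (ev c r (fun l => grd (Xc s l) (xt t s τ)) x) := by
  have hC : ∀ l, CvC c l (grd (Xc s l) (xt t s τ)) := fun l => cvc_grd (hX l) _
  unfold zp
  rw [Polynomial.eval_mul, Polynomial.eval_C, Polynomial.eval_finsetSum,
    hs_sum_c hc hQ _ _ (ev_none _ _ _ _), Finset.mul_sum]
  refine Finset.sum_congr rfl fun j hj => ?_
  rw [Finset.mem_range] at hj
  have h2 : (evp (fun j i => kpol c t (fun s => Xc s j) s i) x j).eval τ =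
      ev c r (fun l => grd (Xc s l) (xt t s τ)) x (some (c j)) := by
    refine evp_eval hc hC (fun j _ i _ => ?_) x j hj
    unfold kpol
    rw [eval_lcR]
    rfl
  rw [Polynomial.eval_mul, h2]
  unfold kpol
  rw [der_R]
  have h3 : (2 : ℝ) ^ t ≠ 0 := by positivity
  field_simp

/-- The covectors of the closed charts of a static cell at every point of the line. -/
theorem Xcf_grd {F : Fam m J} {w : ℕ → ℕ}
    {TH : ℕ → LnT F → ℕ → MvPolynomial (Option (Fin m)) ℝ} {Sc : ℕ → Prop} {i₀ i₂ : ℕ}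
    (h1 : w i₀ ≤ w i₂) (h2 : w i₂ ≤ J) (ω : F.Ω) (y : Option (Fin m) → ℝ) :
    (fun l => grd (Xcf w TH Sc i₀ i₂ (slam F (w i₂) ω) l) y) =
      mx Sc (fun l => grd (TH i₀ (slam F (w i₀) ω) l) y)
        (fun l => grd (TH i₂ (slam F (w i₂) ω) l) y) := by
  funext k
  unfold Xcf
  by_cases hs : Sc k
  · rw [if_pos hs, mx_pos hs, co_slam F h1 h2]
  · rw [if_neg hs, mx_neg hs]

/-- **The denominator of a static cell** at every point of the line. -/
theorem zp_use (F : Fam m J) {c : ℕ → Fin m} {r : ℕ} {Sc : ℕ → Prop} {w : ℕ → ℕ}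
    {TH : ℕ → LnT F → ℕ → MvPolynomial (Option (Fin m)) ℝ} {i₀ i₂ : ℕ}
    (hc : Set.InjOn c (Set.Iio r)) (h0 : w i₀ ≤ w i₂) (h2 : w i₂ ≤ J)
    (hT0 : ∀ s l, DepC c l (TH i₀ s l)) (hT2 : ∀ s l, DepC c l (TH i₂ s l)) (x : ℕ) (ω : F.Ω)
    {l : ℕ} (hl : Sc l) (hlr : l ≤ r) (τ : ℝ) :
    (zp c r (w i₂) (fun s => Xcf w TH Sc i₀ i₂ s l) (Xcf w TH Sc i₀ i₂) x
        (slam F (w i₂) ω)).eval τ =
      hs (TH i₀ (slam F (w i₀) ω) l) (xt (w i₂) (slam F (w i₂) ω) τ) (bd F ω)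
        (ev c r (mx Sc
          (fun l => grd (TH i₀ (slam F (w i₀) ω) l) (xt (w i₂) (slam F (w i₂) ω) τ))
          (fun l => grd (TH i₂ (slam F (w i₂) ω) l) (xt (w i₂) (slam F (w i₂) ω) τ))) x) := by
  have hX : ∀ l, DepC c l (Xcf w TH Sc i₀ i₂ (slam F (w i₂) ω) l) := by
    intro l
    unfold Xcf
    split_ifs
    · exact hT0 _ _
    · exact hT2 _ _
  have hQ : DepC c r (Xcf w TH Sc i₀ i₂ (slam F (w i₂) ω) l) := by
    intro b b' hn hb
    exact hX l b b' hn fun j hj => hb j (hj.trans_le hlr)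
  have e1 : Xcf w TH Sc i₀ i₂ (slam F (w i₂) ω) l = TH i₀ (slam F (w i₀) ω) l := by
    unfold Xcf
    rw [if_pos hl, co_slam F h0 h2]
  rw [zp_eval (w i₂) hc (Q := fun s => Xcf w TH Sc i₀ i₂ s l) hQ hX, wd_slam,
    Xcf_grd h0 h2, e1]

/-- **The numerator of a static cell** at every point of the line. -/
theorem zp_row (F : Fam m J) {c : ℕ → Fin m} {r : ℕ} {Sc : ℕ → Prop} {w : ℕ → ℕ}
    {TH : ℕ → LnT F → ℕ → MvPolynomial (Option (Fin m)) ℝ}
    {Ht : ℕ → LnT F → MvPolynomial (Option (Fin m)) ℝ} {i₀ i₁ i₂ : ℕ}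
    (hc : Set.InjOn c (Set.Iio r)) (h0 : w i₀ ≤ w i₂) (h1 : w i₁ ≤ w i₂) (h2 : w i₂ ≤ J)
    (hT0 : ∀ s l, DepC c l (TH i₀ s l)) (hT2 : ∀ s l, DepC c l (TH i₂ s l))
    (hH : ∀ s, DepC c r (Ht i₁ s)) (x : ℕ) (ω : F.Ω) (τ : ℝ) :
    (zp c r (w i₂) (fun s => Ht i₁ (co (w i₂ - w i₁) s)) (Xcf w TH Sc i₀ i₂) x
        (slam F (w i₂) ω)).eval τ =
      hs (Ht i₁ (slam F (w i₁) ω)) (xt (w i₂) (slam F (w i₂) ω) τ) (bd F ω)
        (ev c r (mx Sc
          (fun l => grd (TH i₀ (slam F (w i₀) ω) l) (xt (w i₂) (slam F (w i₂) ω) τ))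
          (fun l => grd (TH i₂ (slam F (w i₂) ω) l) (xt (w i₂) (slam F (w i₂) ω) τ))) x) := by
  have hX : ∀ l, DepC c l (Xcf w TH Sc i₀ i₂ (slam F (w i₂) ω) l) := by
    intro l
    unfold Xcf
    split_ifs
    · exact hT0 _ _
    · exact hT2 _ _
  have hQ : DepC c r (Ht i₁ (co (w i₂ - w i₁) (slam F (w i₂) ω))) := hH _
  rw [zp_eval (w i₂) hc (Q := fun s => Ht i₁ (co (w i₂ - w i₁) s)) hQ hX, wd_slam,
    Xcf_grd h0 h2, co_slam F h1 h2]

/-- The degree. -/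
theorem zp_deg' {F : Fam m J} (c : ℕ → Fin m) (r t : ℕ)
    {Q : LnT F → MvPolynomial (Option (Fin m)) ℝ}
    {Xc : LnT F → ℕ → MvPolynomial (Option (Fin m)) ℝ} {D : ℕ} (hQ : ∀ s, (Q s).totalDegree ≤ D)
    (hX : ∀ s l, (Xc s l).totalDegree ≤ D) (x : ℕ) (s : LnT F) :
    (zp c r t Q Xc x s).natDegree ≤ D * r := by
  unfold zp
  refine (Polynomial.natDegree_C_mul_le _ _).trans ?_
  refine Polynomial.natDegree_sum_le_of_forall_le _ _ fun j hj => ?_
  rw [Finset.mem_range] at hj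
  refine Polynomial.natDegree_mul_le.trans ?_
  have h1 : (Polynomial.derivative (kpol c t Q s j)).natDegree ≤ D :=
    (Polynomial.natDegree_derivative_le _).trans ((Nat.sub_le _ _).trans (kpol_deg c t hQ s j))
  have h2 := evp_deg (K := fun j i => kpol c t (fun s => Xc s j) s i) (D := D)
    (fun j i => kpol_deg c t (fun s => hX s j) s i) x j
  calc _ ≤ D + D * j := add_le_add h1 h2
    _ = D * (j + 1) := by ring
    _ ≤ _ := Nat.mul_le_mul_left _ (by omega)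

end Pool.TN
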