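import Pool.Agent.H66.D2.Dlo
import Pool.Agent.H95.R136.T4

/-!
# The frozen denominator of a static cell

`hfro_of`: the hypothesis `hfro` of `dlp_one` from the variation of the denominator along the window
and the lower bound; `hfro_cev`: the same for the letters of `stp_cev` (closed charts `Xcf`, window
`i₂`, ball `i₃`), from the variation of the static chart of the window `i₀`; `hfro_num`: the numbers.
-/

set_option autoImplicit false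

namespace Pool.TN

open Finset Real MvPolynomial
open Pool.Agent.H49.Ent Pool.Agent.H32.Dense Pool.STK Pool.KA Pool.KSAT Pool.K2S Pool.PB Pool.S6C
open Pool.GEN Pool.CHT Pool.CHX Pool.ISO Pool.D2R Pool.D2Z Pool.D2F
open Pool.FLF (Fam.sub)
open Pool.PB.Trl (rt rt_mem t_rt)

variable {m J : ℕ}

/-- The denominator at the start of the window against its value at the sample. -/
theorem hfro_of {F : Fam m J} {c : ℕ → Fin m} {r t s₀ f K : ℕ} {gK g' : ℕ → ℕ}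
    {Y₁ Y₂ V : ℝ} {ω : F.Ω} (hc : Set.InjOn c (Set.Iio r)) (ht : t ≤ J) (hs₀ : s₀ < r)
    {Xc : LnT F → ℕ → MvPolynomial (Option (Fin m)) ℝ} (hX : ∀ s l, DepC c l (Xc s l))
    (hV : |(zp c r t (fun s => Xc s s₀) Xc 0 (slam F t ω)).eval (rt F t ω) -
      (zp c r t (fun s => Xc s s₀) Xc 0 (slam F t ω)).eval 0| ≤ V)
    (hlow : 2 ^ (K + g' 0) / 2 ^ gK s₀ ≤ Y₁ *
      |hs (Xc (slam F t ω) s₀) (bt F ω) (bd F ω) (ev c r (kc t Xc ω) 0)|)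
    (hY₂ : 0 ≤ Y₂) (hn : V ≤ Y₂ / 2 ^ f * (2 ^ (K + g' 0) / 2 ^ gK s₀)) :
    |hs (Xc (slam F t ω) s₀) (bt F ω) (bd F ω) (ev c r (kc t Xc ω) 0) -
      (zp c r t (fun s => Xc s s₀) Xc 0 (slam F t ω)).eval 0| ≤ Y₁ * Y₂ / 2 ^ f *
      |hs (Xc (slam F t ω) s₀) (bt F ω) (bd F ω) (ev c r (kc t Xc ω) 0)| := by
  have h1 := zp_rt hc ht (Q := fun s => Xc s s₀) (fun s => (hX s s₀).mono hs₀.le) hX 0 ω
  rw [h1] at hV
  refine hV.trans (hn.trans ((mul_le_mul_of_nonneg_left hlow (by positivity)).trans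
    (le_of_eq ?_)))
  ring

/-- The closed static chart of the window `i₀` as the denominator. -/
theorem zp_Xcf {F : Fam m J} {c : ℕ → Fin m} {r t : ℕ} {w : ℕ → ℕ}
    {TH : ℕ → LnT F → ℕ → MvPolynomial (Option (Fin m)) ℝ} {Sc : ℕ → Prop} {i₀ i₂ : ℕ}
    {s₀ : ℕ} (hs : Sc s₀) (x : ℕ) (s : LnT F) :
    zp c r t (fun s => Xcf w TH Sc i₀ i₂ s s₀) (Xcf w TH Sc i₀ i₂) x s =
      zp c r t (fun s => TH i₀ (co (w i₂ - w i₀) s) s₀) (Xcf w TH Sc i₀ i₂) x s := by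
  have h1 : (fun s => Xcf w TH Sc i₀ i₂ s s₀) =
      fun s : LnT F => TH i₀ (co (w i₂ - w i₀) s) s₀ := by
    funext s
    unfold Xcf
    rw [if_pos hs]
  rw [h1]

/-- **`hfro` on the event of a static cell**, from the variation `V` of the static chart of the
window `i₀` along the window `i₂` and the lower bound. -/
theorem hfro_cev {F : Fam m J} {c : ℕ → Fin m} {r D Dr N M A cl : ℕ} {Sc : ℕ → Prop}
    {w e h pp : ℕ → ℕ} {z g gc gT g₀ : ℕ → ℕ → ℕ} {κ : ℝ} {B : F.Ω → Prop}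
    {G : ℕ → PtT F → ℕ → MvPolynomial (Option (Fin m)) ℝ}
    {H : ℕ → LnT F → ℕ → MvPolynomial (Option (Fin m)) ℝ}
    {T : ℕ → PtT F → ℕ → MvPolynomial (Option (Fin m)) ℝ}
    {TH : ℕ → LnT F → ℕ → MvPolynomial (Option (Fin m)) ℝ}
    {Gt : ℕ → PtT F → MvPolynomial (Option (Fin m)) ℝ}
    {Ht : ℕ → LnT F → MvPolynomial (Option (Fin m)) ℝ}
    (E : CEv F c r D Dr N M A cl Sc w e h pp z g gc gT g₀ κ B G H T TH Gt Ht)
    {i₀ i₂ i₃ s₀ f : ℕ} {g' : ℕ → ℕ} {Y₁ Y₂ V : ℝ} (h0 : i₀ ≤ N) (h2 : i₂ ≤ N)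
    (hs₀ : s₀ < r) (hS : Sc s₀) {B' : F.Ω → Prop}
    (hV : ∀ ω, B' ω → ∀ τ ∈ Set.Icc (0 : ℝ) 1, ∀ τ' ∈ Set.Icc (0 : ℝ) 1,
      |(zp c r (w i₂) (fun s => TH i₀ (co (w i₂ - w i₀) s) s₀) (Xcf w TH Sc i₀ i₂) 0
          (slam F (w i₂) ω)).eval τ -
        (zp c r (w i₂) (fun s => TH i₀ (co (w i₂ - w i₀) s) s₀) (Xcf w TH Sc i₀ i₂) 0
          (slam F (w i₂) ω)).eval τ'| ≤ V * |τ - τ'|)
    (hlow : ∀ ω, B' ω → 2 ^ (w i₃ + g' 0) / 2 ^ g₀ i₃ s₀ ≤ Y₁ *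
      |hs (Xcf w TH Sc i₀ i₂ (slam F (w i₂) ω) s₀) (bt F ω) (bd F ω)
        (ev c r (kc (w i₂) (Xcf w TH Sc i₀ i₂) ω) 0)|)
    (hY₂ : 0 ≤ Y₂) (hn : V ≤ Y₂ / 2 ^ f * (2 ^ (w i₃ + g' 0) / 2 ^ g₀ i₃ s₀)) :
    ∀ ω, B' ω → |hs (Xcf w TH Sc i₀ i₂ (slam F (w i₂) ω) s₀) (bt F ω) (bd F ω)
        (ev c r (kc (w i₂) (Xcf w TH Sc i₀ i₂) ω) 0) -
      (zp c r (w i₂) (fun s => Xcf w TH Sc i₀ i₂ s s₀) (Xcf w TH Sc i₀ i₂) 0
        (slam F (w i₂) ω)).eval 0| ≤ Y₁ * Y₂ / 2 ^ f *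
      |hs (Xcf w TH Sc i₀ i₂ (slam F (w i₂) ω) s₀) (bt F ω) (bd F ω)
        (ev c r (kc (w i₂) (Xcf w TH Sc i₀ i₂) ω) 0)| := by
  intro ω hω
  have hc : Set.InjOn c (Set.Iio r) := E.inj.mono (Set.Iio_subset_Iio (by omega))
  have ht : w i₂ ≤ J := (E.wA i₂ h2).trans E.AJ
  have hX : ∀ s l, DepC c l (Xcf w TH Sc i₀ i₂ s l) := by
    intro s l
    unfold Xcf
    split_ifs
    · exact (E.evs i₀ h0).thin.depH _ l
    · exact (E.evs i₂ h2).thin.depH _ l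
  have hr := rt_mem F (w i₂) ω
  have hV0 : 0 ≤ V := by
    have h3 := hV ω hω 1 ⟨zero_le_one, le_rfl⟩ 0 ⟨le_rfl, zero_le_one⟩
    have h4 := (abs_nonneg _).trans h3
    have h5 : |(1 : ℝ) - 0| = 1 := by norm_num
    rw [h5, mul_one] at h4
    exact h4
  refine hfro_of hc ht hs₀ hX (V := V) ?_ (hlow ω hω) hY₂ hn
  rw [zp_Xcf hS]
  refine (hV ω hω _ ⟨hr.1, hr.2⟩ 0 ⟨le_rfl, zero_le_one⟩).trans ?_
  have h3 : |rt F (w i₂) ω - 0| ≤ 1 := by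
    rw [sub_zero, abs_of_nonneg hr.1]
    exact hr.2
  calc V * |rt F (w i₂) ω - 0| ≤ V * 1 := mul_le_mul_of_nonneg_left h3 hV0
    _ = V := mul_one V

/-- **The numbers**: static place over rough places; `i` the early window, `k` the window of the
line, `K` the ball. The second term is the change of the thin chart below. -/
theorem hfro_num {u X f wi wk wK gi0 gi1 gil gk0 gk1 gKl g0 : ℕ}
    (h1 : f + wi + gi0 + gKl + wi ≤ X + gil + wk + wK + g0)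
    (h2 : f + wi + gi1 + gk0 + gKl ≤ X + gil + gk1 + wK + g0) (hw : wi ≤ wk) :
    (2 : ℝ) ^ u * 2 ^ wi / 2 ^ gil * 2 ^ gi0 / 2 ^ (wk - wi) +
      2 ^ u * 2 ^ wi / 2 ^ gil * 2 ^ gi1 * (2 ^ gk0 / 2 ^ gk1) ≤
      2 ^ (u + X + 1) / 2 ^ f * (2 ^ (wK + g0) / 2 ^ gKl) := by
  have h3 : (2 : ℝ) ^ u * 2 ^ wi / 2 ^ gil * 2 ^ gi0 / 2 ^ (wk - wi) ≤
      2 ^ (u + X) / 2 ^ f * (2 ^ (wK + g0) / 2 ^ gKl) := by
    have e1 : (2 : ℝ) ^ u * 2 ^ wi / 2 ^ gil * 2 ^ gi0 / 2 ^ (wk - wi) =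
        2 ^ (u + wi + gi0) / 2 ^ (gil + (wk - wi)) := by
      rw [pow_add _ (u + wi), pow_add _ u, pow_add _ gil]
      field_simp
    have e2 : (2 : ℝ) ^ (u + X) / 2 ^ f * (2 ^ (wK + g0) / 2 ^ gKl) =
        2 ^ (u + X + (wK + g0)) / 2 ^ (f + gKl) := by
      rw [pow_add _ (u + X), pow_add _ f]
      field_simp
    rw [e1, e2, div_le_div_iff₀ (by positivity) (by positivity), ← pow_add, ← pow_add]
    exact p2 (by omega)
  have h4 : (2 : ℝ) ^ u * 2 ^ wi / 2 ^ gil * 2 ^ gi1 * (2 ^ gk0 / 2 ^ gk1) ≤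
      2 ^ (u + X) / 2 ^ f * (2 ^ (wK + g0) / 2 ^ gKl) := by
    have e1 : (2 : ℝ) ^ u * 2 ^ wi / 2 ^ gil * 2 ^ gi1 * (2 ^ gk0 / 2 ^ gk1) =
        2 ^ (u + wi + gi1 + gk0) / 2 ^ (gil + gk1) := by
      rw [pow_add _ (u + wi + gi1), pow_add _ (u + wi), pow_add _ u, pow_add _ gil]
      field_simp
    have e2 : (2 : ℝ) ^ (u + X) / 2 ^ f * (2 ^ (wK + g0) / 2 ^ gKl) =
        2 ^ (u + X + (wK + g0)) / 2 ^ (f + gKl) := by
      rw [pow_add _ (u + X), pow_add _ f]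
      field_simp
    rw [e1, e2, div_le_div_iff₀ (by positivity) (by positivity), ← pow_add, ← pow_add]
    exact p2 (by omega)
  refine (add_le_add h3 h4).trans (le_of_eq ?_)
  rw [pow_succ]
  ring

/-- The numbers without a thin place below. -/
theorem hfro_num1 {u X f wi wk wK gi0 gil gKl g0 : ℕ}
    (h1 : f + wi + gi0 + gKl + wi ≤ X + gil + wk + wK + g0) (hw : wi ≤ wk) :
    (2 : ℝ) ^ u * 2 ^ wi / 2 ^ gil * 2 ^ gi0 / 2 ^ (wk - wi) ≤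
      2 ^ (u + X) / 2 ^ f * (2 ^ (wK + g0) / 2 ^ gKl) := by
  have e1 : (2 : ℝ) ^ u * 2 ^ wi / 2 ^ gil * 2 ^ gi0 / 2 ^ (wk - wi) =
      2 ^ (u + wi + gi0) / 2 ^ (gil + (wk - wi)) := by
    rw [pow_add _ (u + wi), pow_add _ u, pow_add _ gil]
    field_simp
  have e2 : (2 : ℝ) ^ (u + X) / 2 ^ f * (2 ^ (wK + g0) / 2 ^ gKl) =
      2 ^ (u + X + (wK + g0)) / 2 ^ (f + gKl) := by
    rw [pow_add _ (u + X), pow_add _ f]
    field_simp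
  rw [e1, e2, div_le_div_iff₀ (by positivity) (by positivity), ← pow_add, ← pow_add]
  exact p2 (by omega)

end Pool.TN
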