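import Pool.Agent.H42.D2.Zwc
import Pool.Agent.H88.D2.Sfw
import Pool.Agent.H95.R136.Hfr

/-!
# A static coordinate at the place two: the lower bound and the frozen denominator

`CEv.rei`: part of the windows. `CEv.zm`: on a part of the event the second derivative of the static
chart in the mixed frame hardly varies on the window of the line. `CEv.zlo`: the lower bound in the
frame of the ball gives the lower bound in the mixed frame.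
-/

set_option autoImplicit false

namespace Pool.TN

open Finset Real MvPolynomial
open Pool.Agent.H49.Ent Pool.Agent.H32.Dense Pool.STK Pool.KA Pool.KSAT Pool.K2S Pool.PB Pool.S6C
open Pool.GEN Pool.CHT Pool.CHX Pool.ISO Pool.D2R Pool.D2Z Pool.D2F
open Pool.FLF (Fam.sub)
open Pool.PB.Trl (rt rt_mem t_rt)

variable {m J : ℕ}

section

variable {F : Fam m J} {c : ℕ → Fin m} {r D Dr N M A cl : ℕ} {Sc : ℕ → Prop}
    {w e h pp : ℕ → ℕ} {z g gc gT g₀ : ℕ → ℕ → ℕ} {κ : ℝ} {B : F.Ω → Prop}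
    {G : ℕ → PtT F → ℕ → MvPolynomial (Option (Fin m)) ℝ}
    {H : ℕ → LnT F → ℕ → MvPolynomial (Option (Fin m)) ℝ}
    {T : ℕ → PtT F → ℕ → MvPolynomial (Option (Fin m)) ℝ}
    {TH : ℕ → LnT F → ℕ → MvPolynomial (Option (Fin m)) ℝ}
    {Gt : ℕ → PtT F → MvPolynomial (Option (Fin m)) ℝ}
    {Ht : ℕ → LnT F → MvPolynomial (Option (Fin m)) ℝ}

/-- **Part of the windows.** -/
theorem CEv.rei (E : CEv F c r D Dr N M A cl Sc w e h pp z g gc gT g₀ κ B G H T TH Gt Ht)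
    {n : ℕ} {σ : ℕ → ℕ} (hσ : ∀ k ≤ n, σ k ≤ N) :
    CEv F c r D Dr n M A cl Sc (fun k => w (σ k)) (fun k => e (σ k)) (fun k => h (σ k))
      (fun k => pp (σ k)) (fun k => z (σ k)) (fun k => g (σ k)) (fun k => gc (σ k))
      (fun k => gT (σ k)) (fun k => g₀ (σ k)) κ B (fun k => G (σ k)) (fun k => H (σ k))
      (fun k => T (σ k)) (fun k => TH (σ k)) (fun k => Gt (σ k)) (fun k => Ht (σ k)) where
  inj := E.inj
  AJ := E.AJ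
  wA := fun k hk => E.wA _ (hσ k hk)
  evs := fun k hk => E.evs _ (hσ k hk)
  bal := ⟨fun k hk => E.bal.inc _ (hσ k hk),
    fun k hk k' hk' q hq hw hz => E.bal.bal _ (hσ k hk) _ (hσ k' hk') q hq hw hz⟩
  row := fun i hi j hj hw => E.row _ (hσ i hi) _ (hσ j hj) hw
  lab := fun l hl i hi j hj hw => E.lab l hl _ (hσ i hi) _ (hσ j hj) hw
  cur := fun k hk => E.cur _ (hσ k hk)
  ng := fun k hk => E.ng _ (hσ k hk)
  room := fun k hk => E.room _ (hσ k hk)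
  roomT := fun k hk => E.roomT _ (hσ k hk)

/-- **The lower bound in the mixed frame**, from the frame of the ball. -/
theorem CEv.zlo (E : CEv F c r D Dr N M A cl Sc w e h pp z g gc gT g₀ κ B G H T TH Gt Ht)
    {i₀ i₂ i₃ X Y Q : ℕ} {g' : ℕ → ℕ} (h0 : i₀ ≤ N) (h2 : i₂ ≤ N) (h3 : i₃ ≤ N)
    (w2 : w i₂ ≤ w i₃) (hr : 2 < r) (hs0 : ¬ Sc 0) (hs1 : ¬ Sc 1)
    (hpos : ∀ i ≤ N, (∀ l < r, cl ≤ gT i l ∧ cl ≤ gc i l) ∧ cl ≤ pp i ∧ cl ≤ gc i r)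
    (hst : g₀ i₀ 2 + (A - w i₀) ≤ gT i₀ 2 + X) (hrT : gT i₂ 1 = g' 1 + (A - w i₃))
    (hQ : Y + 20 * cl + 4 * r + X + 20 ≤ Q)
    (lo : w i₀ + g₀ i₀ 1 + g₀ i₃ 2 + Q ≤ w i₃ + g₀ i₃ 1 + g₀ i₀ 2)
    (co : w i₀ + g₀ i₀ 1 + g₀ i₃ 2 + Q ≤ w i₃ + g' 1 + g₀ i₀ 2) {ω : F.Ω} (hω : B ω)
    (hL : 2 ^ (w i₃ + g₀ i₃ 0) / 2 ^ (g₀ i₃ 2 + Y) ≤
      |hs (TH i₀ (slam F (w i₀) ω) 2) (bt F ω) (bd F ω) (ev c 2 (gG G ω i₃) 0)|) :
    2 ^ (w i₃ + g₀ i₃ 0) / 2 ^ (g₀ i₃ 2 + Y + 1) ≤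
      |hs (TH i₀ (slam F (w i₀) ω) 2) (bt F ω) (bd F ω)
        (ev c r (mx Sc (kT w TH ω i₀) (kT w TH ω i₂)) 0)| := by
  have hc : Set.InjOn c (Set.Iio r) := E.inj.mono (Set.Iio_subset_Iio (by omega))
  have hc2 : Set.InjOn c (Set.Iio 2) := E.inj.mono (Set.Iio_subset_Iio (by omega))
  have hΓ : ∀ l, CvC c l (gG G ω i₃ l) := fun l => cvc_grd ((E.evs i₃ h3).ball.depG _ l) _
  have hΓ0 : ∀ l, CvC c l (gG G ω i₀ l) := fun l => cvc_grd ((E.evs i₀ h0).ball.depG _ l) _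
  have hΞ : ∀ l, CvC c l (mx Sc (kT w TH ω i₀) (kT w TH ω i₂) l) :=
    mx_cvc (fun l => cvc_grd ((E.evs i₀ h0).thin.depH _ l) _)
      (fun l => cvc_grd ((E.evs i₂ h2).thin.depH _ l) _)
  have hns : ∀ x < 2, ¬ Sc x := fun x hx => by
    have : x = 0 ∨ x = 1 := by omega
    rcases this with h | h
    · rw [h]; exact hs0
    · rw [h]; exact hs1
  -- the three vectors
  obtain ⟨V, hV⟩ : ∃ V, V = ev c r (mx Sc (kT w TH ω i₀) (kT w TH ω i₂)) 0 := ⟨_, rfl⟩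
  obtain ⟨U, hU⟩ : ∃ U, U = ev c 2 (gG G ω i₃) 0 := ⟨_, rfl⟩
  obtain ⟨E₁, hE₁⟩ : ∃ E₁, E₁ = ev c 2 (gG G ω i₃) 1 := ⟨_, rfl⟩
  have v0 : V none = 0 := by rw [hV]; exact ev_none _ _ _ _
  have v1 : V (some (c 0)) = 1 := by rw [hV]; exact ev_eq hc hΞ (by omega)
  have v2 : V (some (c 1)) = cv (kT w TH ω i₂ 1) V := by
    have h4 := ev_comp hc hΞ 0 (show 1 < r by omega)
    rw [if_neg (by norm_num), ← hV, mx_neg hs1] at h4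
    linarith only [h4]
  have u0 : U none = 0 := by rw [hU]; exact ev_none _ _ _ _
  have u1 : U (some (c 0)) = 1 := by rw [hU]; exact ev_eq hc2 hΓ (by norm_num)
  have u2 : U (some (c 1)) = cv (gG G ω i₃ 1) V := by
    have h4 := ev_comp hc2 hΓ 0 (show 1 < 2 by norm_num)
    rw [if_neg (by norm_num), ← hU] at h4
    have h6 : cv (gG G ω i₃ 1) U = cv (gG G ω i₃ 1) V :=
      cv_congr (hΓ 1) (by rw [u0, v0]) fun l hl => by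
        rw [Nat.lt_one_iff.1 hl, u1, v1]
    linarith only [h4, h6]
  have x0 : E₁ (some (c 0)) = 0 := by
    rw [hE₁]
    exact ev_lt hc2 hΓ (by norm_num) (by norm_num)
  have x1 : E₁ (some (c 1)) = 1 := by rw [hE₁]; exact ev_eq hc2 hΓ (by norm_num)
  have xn : E₁ none = 0 := by rw [hE₁]; exact ev_none _ _ _ _
  obtain ⟨f, hf⟩ : ∃ f, f = cv (kT w TH ω i₂ 1 - gG G ω i₃ 1) V := ⟨_, rfl⟩
  have hdec : hs (TH i₀ (slam F (w i₀) ω) 2) (bt F ω) (bd F ω) V =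
      hs (TH i₀ (slam F (w i₀) ω) 2) (bt F ω) (bd F ω) U +
        f * hs (TH i₀ (slam F (w i₀) ω) 2) (bt F ω) (bd F ω) E₁ := by
    rw [← hs_smul_right, ← hs_add_right]
    refine hs_cg ((E.evs i₀ h0).thin.depH _ 2) _ _ ?_ fun l hl => ?_
    · show V none = U none + f * E₁ none
      rw [v0, u0, xn]
      ring
    · show V (some (c l)) = U (some (c l)) + f * E₁ (some (c l))
      have : l = 0 ∨ l = 1 := by omega
      rcases this with rfl | rfl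
      · rw [v1, u1, x0]
        ring
      · rw [v2, u2, x1, hf, cv_subl]
        ring
  -- the direction of the second coordinate at the window of the label
  have hn0 := hpos i₀ h0
  have hn3 := hpos i₃ h3
  have hn2 := hpos i₂ h2
  have hen : en c (g₀ i₀) (w i₀) (gG G ω i₀) 2 E₁ ≤ 2 ^ g₀ i₀ 1 := by
    have e2 : cv (gG G ω i₀ 1) E₁ = 0 := by
      have e3 : cv (gG G ω i₀ 1) E₁ = cv (gG G ω i₀ 1) 0 :=
        cv_congr (hΓ0 1) (by rw [xn]; rfl) fun l hl => by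
          rw [Nat.lt_one_iff.1 hl, x0]
          rfl
      rw [e3]
      unfold cv
      simp
    rw [en_succ, en_succ, en_zero, xn, x0, x1, e2, cv_c0 (hΓ0 0) xn]
    simp
  have hz1 := E.zV h0 (hn0.1 2 (by omega)).1 (by omega) hns
    (⟨h0, le_rfl, hn0.1, hn0.2.1, hn0.2.2, hst⟩ : ZNum r N A cl X w pp gc gT g₀ 2 i₀ i₀) hω hen
  -- the difference of the gradients
  obtain ⟨q, hq⟩ : ∃ q, q = min (gT i₂ 1) (gc i₃ 1) - cl := ⟨_, rfl⟩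
  have hq1 := (hn2.1 1 (by omega)).1
  have hq2 := (hn3.1 1 (by omega)).2
  have hf1 : |f| ≤ 2 ^ cl / 2 ^ q * 2 ^ gT i₃ 0 + 2 ^ cl / 2 ^ g₀ i₃ 1 * 2 ^ g₀ i₃ 0 := by
    have h4 := E.tb (l := 1) (i := i₂) (j := i₃) (q := q) (by omega) h2 h3 w2
      (by have := min_le_left (gT i₂ 1) (gc i₃ 1); omega)
      (by have := min_le_right (gT i₂ 1) (gc i₃ 1); omega) hω V
    have hT0 : CvC c 0 (kT w TH ω i₃ 0) := cvc_grd ((E.evs i₃ h3).thin.depH _ 0) _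
    rw [en_succ, en_zero, en_succ, en_zero, v0, v1, cv_c0 hT0 v0, cv_c0 (hΓ 0) v0] at h4
    simp only [abs_zero, mul_zero, zero_add, sub_zero, abs_one, mul_one] at h4
    rw [hf]
    exact h4
  have a1 := E.t_rg h3 (l := 0) (by omega) hs0
  have a2 := E.ng i₃ h3 0 (by omega)
  have a3 := E.ng i₃ h3 1 (by omega)
  obtain ⟨P, hP⟩ : ∃ P, P = 12 * cl + 4 * r + X + 10 := ⟨_, rfl⟩
  rw [← hP] at hz1
  have hfz : |f * hs (TH i₀ (slam F (w i₀) ω) 2) (bt F ω) (bd F ω) E₁| ≤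
      2 ^ (w i₃ + g₀ i₃ 0) / 2 ^ (g₀ i₃ 2 + Y + 1) := by
    rw [abs_mul]
    refine (mul_le_mul hf1 hz1 (abs_nonneg _) (by positivity)).trans ?_
    have e1 : ((2 : ℝ) ^ cl / 2 ^ q * 2 ^ gT i₃ 0 + 2 ^ cl / 2 ^ g₀ i₃ 1 * 2 ^ g₀ i₃ 0) *
        (2 ^ P * 2 ^ w i₀ / 2 ^ g₀ i₀ 2 * 2 ^ g₀ i₀ 1) =
        2 ^ (cl + gT i₃ 0 + P + w i₀ + g₀ i₀ 1) / 2 ^ (q + g₀ i₀ 2) +
        2 ^ (cl + g₀ i₃ 0 + P + w i₀ + g₀ i₀ 1) / 2 ^ (g₀ i₃ 1 + g₀ i₀ 2) := by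
      simp only [pow_add]
      field_simp
    have e2 : (2 : ℝ) ^ (cl + gT i₃ 0 + P + w i₀ + g₀ i₀ 1) / 2 ^ (q + g₀ i₀ 2) ≤
        2 ^ (w i₃ + g₀ i₃ 0) / 2 ^ (g₀ i₃ 2 + Y + 2) := by
      rw [div_le_div_iff₀ (by positivity) (by positivity), ← pow_add, ← pow_add]
      refine p2 ?_
      rcases le_total (gT i₂ 1) (gc i₃ 1) with h | h
      · rw [min_eq_left h] at hq
        omega
      · rw [min_eq_right h] at hq
        omega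
    have e3 : (2 : ℝ) ^ (cl + g₀ i₃ 0 + P + w i₀ + g₀ i₀ 1) / 2 ^ (g₀ i₃ 1 + g₀ i₀ 2) ≤
        2 ^ (w i₃ + g₀ i₃ 0) / 2 ^ (g₀ i₃ 2 + Y + 2) := by
      rw [div_le_div_iff₀ (by positivity) (by positivity), ← pow_add, ← pow_add]
      exact p2 (by omega)
    rw [e1]
    refine (add_le_add e2 e3).trans (le_of_eq ?_)
    rw [show g₀ i₃ 2 + Y + 2 = g₀ i₃ 2 + Y + 1 + 1 by ring, pow_succ 2 (g₀ i₃ 2 + Y + 1)]
    field_simp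
    ring
  have hL2 : (2 : ℝ) ^ (w i₃ + g₀ i₃ 0) / 2 ^ (g₀ i₃ 2 + Y) =
      2 ^ (w i₃ + g₀ i₃ 0) / 2 ^ (g₀ i₃ 2 + Y + 1) + 2 ^ (w i₃ + g₀ i₃ 0) /
        2 ^ (g₀ i₃ 2 + Y + 1) := by
    rw [pow_succ 2 (g₀ i₃ 2 + Y)]
    field_simp
    ring
  rw [← hU, hL2] at hL
  rw [← hV, hdec]
  have h7 := abs_sub_abs_le_abs_sub (hs (TH i₀ (slam F (w i₀) ω) 2) (bt F ω) (bd F ω) U)
    (-(f * hs (TH i₀ (slam F (w i₀) ω) 2) (bt F ω) (bd F ω) E₁))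
  rw [abs_neg, sub_neg_eq_add] at h7
  linarith only [h7, hL, hfz]

end

/-- **The second derivative of the static chart in the mixed frame** hardly varies on the window of
the line. -/
theorem CEv.zm (m D r : ℕ) (hr : 2 < r) : ∃ C : ℕ, 1 ≤ C ∧ ∀ {J : ℕ} {F : Fam m J}
    {c : ℕ → Fin m} {Dr N M A cl : ℕ} {Sc : ℕ → Prop} {w e h pp : ℕ → ℕ}
    {z g gc gT g₀ : ℕ → ℕ → ℕ} {κ θ : ℝ}
    {B : F.Ω → Prop} {G : ℕ → PtT F → ℕ → MvPolynomial (Option (Fin m)) ℝ}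
    {H : ℕ → LnT F → ℕ → MvPolynomial (Option (Fin m)) ℝ}
    {T : ℕ → PtT F → ℕ → MvPolynomial (Option (Fin m)) ℝ}
    {TH : ℕ → LnT F → ℕ → MvPolynomial (Option (Fin m)) ℝ}
    {Gt : ℕ → PtT F → MvPolynomial (Option (Fin m)) ℝ}
    {Ht : ℕ → LnT F → MvPolynomial (Option (Fin m)) ℝ},
    CEv F c r D Dr N M A cl Sc w e h pp z g gc gT g₀ κ B G H T TH Gt Ht →
    ∀ (_ : 0 < Pe F.p B) {i₀ i₂ X n : ℕ}, i₀ ≤ N → i₂ ≤ N → w i₀ ≤ w i₂ → ¬ Sc 0 → ¬ Sc 1 →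
      Sc 2 → g₀ i₀ 2 + (A - w i₀) ≤ gT i₀ 2 + X → g₀ i₂ 0 ≤ g₀ i₀ 0 + (w i₂ - w i₀) + X →
      gT i₀ 1 ≤ gT i₂ 1 + X → cl + X ≤ gT i₀ 1 →
      (∀ i ≤ N, (∀ l < r, cl ≤ gT i l ∧ cl ≤ gc i l) ∧ cl ≤ pp i ∧ cl ≤ gc i r) → 0 ≤ θ →
      (∀ (B' : F.Ω → Prop) (hB' : 0 < Pe F.p B'), Sub B' B → Pe F.p B ≤ 4 * Pe F.p B' →
        (Fam.sub F B' hB').Tm θ) →
      C * (θ + 1) ≤ ((J : ℝ) - w i₂) * Real.log 2 → Real.exp (C * (θ + 1)) ≤ 2 ^ n →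
      ∃ B' : F.Ω → Prop, Sub B' B ∧ Pe F.p B ≤ 4 * Pe F.p B' ∧ ∀ ω, B' ω →
        ∀ τ ∈ Set.Icc (0 : ℝ) 1, ∀ τ' ∈ Set.Icc (0 : ℝ) 1,
        |(zp c r (w i₂) (fun s => TH i₀ (co (w i₂ - w i₀) s) 2) (Xcf w TH Sc i₀ i₂) 0
            (slam F (w i₂) ω)).eval τ -
          (zp c r (w i₂) (fun s => TH i₀ (co (w i₂ - w i₀) s) 2) (Xcf w TH Sc i₀ i₂) 0
            (slam F (w i₂) ω)).eval τ'| ≤
          (2 ^ (C * (cl + X + n + 1)) * 2 ^ w i₀ / 2 ^ g₀ i₀ 2 * 2 ^ g₀ i₀ 0 /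
              2 ^ (w i₂ - w i₀) +
            2 ^ (C * (cl + X + n + 1)) * 2 ^ w i₀ / 2 ^ g₀ i₀ 2 * 2 ^ g₀ i₀ 1 *
              (2 ^ g₀ i₂ 0 / 2 ^ g₀ i₂ 1)) * |τ - τ'| := by
  obtain ⟨C, hC, hzw⟩ := Pool.TNW.cev_zw m D r 1
  refine ⟨2 * C + 7, by omega, ?_⟩
  intro J F c Dr N M A cl Sc w e h pp z g gc gT g₀ κ θ B G H T TH Gt Ht E hB i₀ i₂ X n h0 h2 hw
    hs0 hs1 hs2 hst hone hmo hcl hpos hθ hTm hCJ hexp
  obtain ⟨σ, rfl, rfl⟩ : ∃ σ : ℕ → ℕ, σ 0 = i₀ ∧ σ 1 = i₂ :=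
    ⟨fun k => if k = 0 then i₀ else i₂, by simp, by simp⟩
  have hσ : ∀ k ≤ 1, σ k ≤ N := fun k hk => by
    have : k = 0 ∨ k = 1 := by omega
    rcases this with rfl | rfl
    · exact h0
    · exact h2
  have hC0 : (C : ℝ) * (θ + 1) ≤ ((2 * C + 7 : ℕ) : ℝ) * (θ + 1) :=
    mul_le_mul_of_nonneg_right (by exact_mod_cast (by omega : C ≤ 2 * C + 7)) (by linarith)
  have hL2 : 0 < Real.log 2 := Real.log_pos (by norm_num)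
  obtain ⟨B', k1, k2, k3⟩ := hzw (E.rei hσ) hB hθ (k := n) (X := X)
    (fun B' hB' s1 s2 => hTm B' hB' s1 (s2.trans (le_of_eq (by norm_num))))
    (fun k hk => by
      have hwk : w (σ k) ≤ w (σ 1) := by
        have : k = 0 ∨ k = 1 := by omega
        rcases this with rfl | rfl
        · exact hw
        · exact le_rfl
      refine hC0.trans (hCJ.trans (mul_le_mul_of_nonneg_right ?_ hL2.le))
      have : (w (σ k) : ℝ) ≤ w (σ 1) := by exact_mod_cast hwk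
      linarith only [this]) ((Real.exp_le_exp.2 hC0).trans hexp)
    (fun k hk => hpos _ (hσ k hk))
  refine ⟨B', k1, k2.trans (le_of_eq (by norm_num)), ?_⟩
  intro ω hω τ hτ τ' hτ'
  have h5 := Pool.TNW.zm_two (E.rei hσ) (k1 ω hω) (i := 0) (k := 1) (k3 ω hω) (by norm_num) le_rfl
    hw hr hs0 hs1 hs2 hst hone hmo hcl τ hτ τ' hτ'
  have h6 : ∀ τ, (zp c r (w (σ 1)) (fun s => TH (σ 0) (co (w (σ 1) - w (σ 0)) s) 2)
      (Xcf w TH Sc (σ 0) (σ 1)) 0 (slam F (w (σ 1)) ω)).eval τ =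
      (zp c r (w (σ 1)) (fun s => Xcf (fun k => w (σ k)) (fun k => TH (σ k)) Sc 0 1 s 2)
        (Xcf (fun k => w (σ k)) (fun k => TH (σ k)) Sc 0 1) 0 (slam F (w (σ 1)) ω)).eval τ := by
    intro τ
    rw [← zp_Xcf hs2]
    rfl
  rw [h6, h6]
  refine h5.trans (mul_le_mul_of_nonneg_right ?_ (abs_nonneg _))
  rw [mul_add]
  have hnum : 2 * (C * (cl + X + n + 1)) + 7 * cl + 2 * X + 3 ≤
      (2 * C + 7) * (cl + X + n + 1) := by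
    have e1 : (2 * C + 7) * (cl + X + n + 1) = 2 * (C * (cl + X + n + 1)) +
      7 * (cl + X + n + 1) := by ring
    omega
  refine add_le_add ?_ ?_
  · have e1 : ∀ P : ℝ, P * 2 ^ w (σ 0) / 2 ^ g₀ (σ 0) 2 * 2 ^ g₀ (σ 0) 0 /
        2 ^ (w (σ 1) - w (σ 0)) = P * (2 ^ w (σ 0) / 2 ^ g₀ (σ 0) 2 * 2 ^ g₀ (σ 0) 0 /
        2 ^ (w (σ 1) - w (σ 0))) := fun P => by ring
    rw [e1]
    exact mul_le_mul_of_nonneg_right (p2 hnum) (by positivity)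
  · have e1 : ∀ P : ℝ, P * 2 ^ w (σ 0) / 2 ^ g₀ (σ 0) 2 * 2 ^ g₀ (σ 0) 1 *
        (2 ^ g₀ (σ 1) 0 / 2 ^ g₀ (σ 1) 1) = P * (2 ^ w (σ 0) / 2 ^ g₀ (σ 0) 2 *
        2 ^ g₀ (σ 0) 1 * (2 ^ g₀ (σ 1) 0 / 2 ^ g₀ (σ 1) 1)) := fun P => by ring
    rw [e1]
    exact mul_le_mul_of_nonneg_right (p2 hnum) (by positivity)

end Pool.TN
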