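import Pool.Agent.H66.D2.Ece
import Pool.Agent.H88.D2.Uov
import Pool.Agent.H95.R136.Tsa

/-!
# The end of the cell with one static coordinate at the place `2`

`ts_end`: the event of a static cell whose static place is `2`, over two rough places, is small.
-/

set_option autoImplicit false

namespace Pool.TN

open Finset Real MvPolynomial
open Pool.Agent.H49.Ent Pool.Agent.H32.Dense Pool.STK Pool.KA Pool.KSAT Pool.K2S Pool.PB Pool.S6C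
open Pool.GEN Pool.CHT Pool.CHX Pool.ISO Pool.D2R Pool.D2Z Pool.D2F Pool.AFT
open Pool.LBT (ThrOf)
open Pool.FLF (Fam.sub)
open Pool.PB.Trl (rt rt_mem t_rt)

variable {m J : ℕ}

/-- The numbers of the lower bound and of the variation, the static place `2`; `Q` the loss. -/
structure NumT (J A X : ℕ) (w e : ℕ → ℕ) (gT g₀ : ℕ → ℕ → ℕ) (i₀ i₂ i₃ f Q a₁ e₁ b0 b2 : ℕ)
    (g' : ℕ → ℕ) : Prop where
  st : g₀ i₀ 2 + (A - w i₀) ≤ gT i₀ 2 + X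
  on : g₀ i₂ 0 ≤ g₀ i₀ 0 + (w i₂ - w i₀) + X
  mo : gT i₀ 1 ≤ gT i₂ 1 + X
  K1 : w i₃ ≤ a₁
  l0 : (A - w i₃) + g₀ i₃ 2 + Q ≤ gT i₀ 2
  l3 : (A - w i₃) + g₀ i₃ 2 + Q ≤ gT i₃ 2
  g0 : ∀ l < 2, Q ≤ g₀ i₃ l
  rm : ∀ l ≤ 2, e i₃ + g₀ i₃ l + Q ≤ J
  ef : e i₃ + Q ≤ e₁
  f0 : b0 + w i₃ ≤ g₀ i₃ 0 + X + a₁
  f2 : b2 + w i₃ ≤ g₀ i₃ 2 + X + a₁
  gp : g' 0 ≤ g₀ i₃ 0 + X
  lo : w i₀ + g₀ i₀ 1 + g₀ i₃ 2 + Q ≤ w i₃ + g₀ i₃ 1 + g₀ i₀ 2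
  co : w i₀ + g₀ i₀ 1 + g₀ i₃ 2 + Q ≤ w i₃ + g' 1 + g₀ i₀ 2
  va : f + w i₀ + g₀ i₀ 0 + g₀ i₃ 2 + w i₀ ≤ X + g₀ i₀ 2 + w i₂ + w i₃ + g₀ i₃ 0
  vb : f + w i₀ + g₀ i₀ 1 + g₀ i₂ 0 + g₀ i₃ 2 ≤ X + g₀ i₀ 2 + g₀ i₂ 1 + w i₃ + g₀ i₃ 0

/-- **The end of the cell with one static coordinate at the place** `2`, the equation of a rough
direction by an alternative. -/
theorem ts_endG (m D r : ℕ) (hD : 1 ≤ D) (hr : 3 ≤ r) : ∃ C : ℕ, 1 ≤ C ∧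
    ∀ {θ : ℝ} {S : PCl m} {P : List (Fin m) × Fin m → ℝ → ℝ → ℝ} (_ : ThrOf (chsys m θ) S P)
    (_ : TmH S) (c : ℕ → Fin m) (_ : Set.InjOn c (Set.Iio (r + 1))) (a₁ : ℚ) (e₁ h₁ : ℝ)
    (_ : 0 ≤ a₁) (_ : a₁ < 1) (_ : e₁ < θ * a₁) (_ : 0 < h₁) (_ : bet P c 0 a₁ a₁ + h₁ ≤ 1)
    (_ : bet P c 2 a₁ a₁ + h₁ ≤ 1) (a w' : ℚ)
    (b eb h' ε κ₀ : ℝ) (_ : 0 ≤ w') (_ : w' ≤ a) (_ : a ≤ 1) (_ : b < 1) (_ : eb < θ * w')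
    (_ : 0 < h') (_ : bet P c r a w' + h' ≤ 1) (_ : 0 < ε) (_ : 0 < κ₀),
    Bas S (fun J F A₀ => ∀ {Dr N M A cl : ℕ} {Sc : ℕ → Prop} {w e h pp : ℕ → ℕ}
      {z g gc gT g₀ : ℕ → ℕ → ℕ} {κ : ℝ} {B : F.Ω → Prop}
      {G : ℕ → PtT F → ℕ → MvPolynomial (Option (Fin m)) ℝ}
      {H : ℕ → LnT F → ℕ → MvPolynomial (Option (Fin m)) ℝ}
      {T : ℕ → PtT F → ℕ → MvPolynomial (Option (Fin m)) ℝ}
      {TH : ℕ → LnT F → ℕ → MvPolynomial (Option (Fin m)) ℝ}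
      {Gt : ℕ → PtT F → MvPolynomial (Option (Fin m)) ℝ}
      {Ht : ℕ → LnT F → MvPolynomial (Option (Fin m)) ℝ},
      CEv F c r D Dr N M A cl Sc w e h pp z g gc gT g₀ κ B G H T TH Gt Ht → Sub B A₀ →
      ε * J ≤ cl → C ≤ cl →
      ∀ {i₀ i₁ i₂ i₃ X X' p x d eM f : ℕ} {g' : ℕ → ℕ},
      NumW r N M A cl J Sc w e pp z g gc gT g₀ i₀ i₁ i₂ i₃ X' p x g' → C * (cl + X + 1) ≤ X' →
      e i₂ ≤ eM → e i₃ ≤ eM → (∀ y < r, g₀ i₃ y ≤ g' y + d) →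
      (g₀ i₃ 1 ≤ g' 1 + X' ∨ w i₂ + g₀ i₂ 1 + g₀ i₃ 2 ≤ w i₃ + g₀ i₂ 2 + g' 1 + X') →
      (∀ l < r, Sc l ↔ l = 2) →
      (∀ y < r, ¬ Sc y → g₀ i₃ y ≤ g' y + X' ∨ ((∀ l < r, y < l → l = 2) ∧
        EqW r N M A cl w pp z g gc gT g₀ i₀ i₁ i₃ X' 2 y g') ∨
        ∀ ω, B ω → |hs (Ht i₁ (slam F (w i₁) ω)) (bt F ω) (bd F ω) (ev c r (mx Sc (kc (w i₂)
              (Xcf w TH Sc i₀ i₂) ω) (gpt F (G i₃) (ptr F J ω))) y) -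
            aS c r Sc (w i₂) 2 (Xcf w TH Sc i₀ i₂) (fun s => Ht i₁ (co (w i₂ - w i₁) s))
              (gpt F (G i₃)) ω * hs (TH i₀ (slam F (w i₀) ω) 2) (bt F ω) (bd F ω)
              (ev c r (mx Sc (kc (w i₂) (Xcf w TH Sc i₀ i₂) ω)
                (gpt F (G i₃) (ptr F J ω))) y)| ≤
            2 ^ X' * (2 ^ w i₃ / 2 ^ g₀ i₃ r) * 2 ^ g' y) →
      (w i₃ : ℝ) ≤ b * J →
      NumT J A X w e gT g₀ i₀ i₂ i₃ f (C * (cl + X + 1)) ⌊(a₁ : ℝ) * J⌋₊ ⌊e₁ * J⌋₊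
        ⌊(bet P c 0 a₁ a₁ + h₁) * J⌋₊ ⌊(bet P c 2 a₁ a₁ + h₁) * J⌋₊ g' →
      NumF r J (w i₂) (w i₃) ⌊(a : ℝ) * J⌋₊ ⌊(w' : ℝ) * J⌋₊ ⌊eb * J⌋₊
        ⌊(bet P c r a w' + h') * J⌋₊ eM d (C * (cl + X' + 1)) f p 2 (g₀ i₃) g' (gT i₂) →
      Pe F.p B < κ₀ * Pe F.p A₀) := by
  classical
  obtain ⟨C₁, hC₁, htwo⟩ := sta_two m D r hD hr
  obtain ⟨C₂, hC₂, hzm⟩ := CEv.zm m D r (by omega)
  obtain ⟨C₃, hC₃, hend⟩ := end_cevG m D r hD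
  obtain ⟨C, hC⟩ : ∃ C, C = 4 * C₁ + 4 * C₂ + C₃ + 4 * r + 50 := ⟨_, rfl⟩
  refine ⟨C, by omega, ?_⟩
  intro θ S P hP hT c hc a₁ e₁ h₁ ha0 ha1 he1 hh1 hb0 hb2 a w' b eb h' ε κ₀ hw0 hwa ha hb he hh h2
    hε hκ
  have hL2 : 0 < Real.log 2 := Real.log_pos (by norm_num)
  have haR : (a₁ : ℝ) < 1 := by exact_mod_cast ha1
  have ha0R : (0 : ℝ) ≤ a₁ := by exact_mod_cast ha0
  obtain ⟨μ, hμ⟩ : ∃ μ : ℝ, μ = min ε (1 - a₁) * Real.log 2 / 2 := ⟨_, rfl⟩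
  have hμ0 : 0 < μ := by
    rw [hμ]
    have : 0 < min ε (1 - (a₁ : ℝ)) := lt_min hε (by linarith)
    positivity
  have hC2R : (1 : ℝ) ≤ C₂ := by exact_mod_cast hC₂
  have hC20 : (0 : ℝ) < C₂ := by linarith
  obtain ⟨ε₁, hε₁⟩ : ∃ ε₁ : ℝ, ε₁ = μ / C₂ := ⟨_, rfl⟩
  have hε₁0 : 0 < ε₁ := by rw [hε₁]; positivity
  have hκ4 : 0 < κ₀ / 4 := by positivity
  have hκ8 : 0 < κ₀ / 8 := by positivity
  have htm := bas_ev (hT.2 ε₁ hε₁0) hκ4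
  have hpos : Bas S (fun _ F A => 0 < Pe F.p A) := ⟨1, one_pos, 0, fun J _ F A hA =>
    hT.1 1 J F A hA⟩
  obtain ⟨J₁, hJ₁⟩ := exists_nat_ge ((C₂ : ℝ) / μ)
  refine Bas.mono J₁ ((((htwo hP hT c hc a₁ e₁ h₁ ε (κ₀ / 8) ha0 ha1 he1 hh1 hb0 hb2 hε
    hκ8).and htm).and hpos).and
    (hend hP hT c hc a w' b eb h' ε (κ₀ / 8) hw0 hwa ha hb he hh h2 hε hκ8)) ?_
  rintro J hJ F A₀ ⟨⟨⟨htwoA, htA⟩, hA0⟩, hendA⟩
  intro Dr N M A cl Sc w e h pp z g gc gT g₀ κ B G H T TH Gt Ht E hBA hεc hCc i₀ i₁ i₂ i₃ X X' p x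
    d eM f g' n hXX he2 he3 hd hx2 h1 heq hbJ no nf
  by_contra hcon
  rw [not_lt] at hcon
  have hs0 : ¬ Sc 0 := fun h => by
    have := (h1 0 (by omega)).1 h
    omega
  have hs1 : ¬ Sc 1 := fun h => by
    have := (h1 1 (by omega)).1 h
    omega
  have hs2 : Sc 2 := (h1 2 (by omega)).2 rfl
  have hpn := Pe_nonneg F.isLaw
  have hB0 : 0 < Pe F.p B := (mul_pos hκ hA0).trans_le hcon
  have hJ0 : (0 : ℝ) ≤ J := Nat.cast_nonneg J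
  have hik : w i₀ ≤ w i₃ := n.w0.trans n.w2
  obtain ⟨q, hq⟩ : ∃ q, q = cl + X + 1 := ⟨_, rfl⟩
  rw [← hq] at no hXX
  have hC0 : C * q = 4 * (C₁ * q) + 4 * (C₂ * q) + C₃ * q + (4 * r + 50) * q := by
    rw [hC]; ring
  have hrq : 4 * r + 50 * q ≤ (4 * r + 50) * q := by
    have : 4 * r * 1 ≤ 4 * r * q := Nat.mul_le_mul_left _ (by omega)
    have e1 : (4 * r + 50) * q = 4 * r * q + 50 * q := by ring
    omega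
  have hCX' : C₃ * (cl + X' + 1) ≤ C * (cl + X' + 1) := Nat.mul_le_mul_right _ (by omega)
  obtain ⟨t₀, ht₀⟩ : ∃ t, t = C₁ * q := ⟨_, rfl⟩
  have hqe : C₁ * (cl + X + 1) = t₀ := by rw [ht₀, hq]
  obtain ⟨Z₀, hZ₀⟩ : ∃ Z, Z = C₂ * (cl + X + cl + 1) := ⟨_, rfl⟩
  have hZ1 : Z₀ ≤ 2 * (C₂ * q) := by
    have e1 : C₂ * (cl + X + cl + 1) ≤ C₂ * (2 * q) := Nat.mul_le_mul_left _ (by omega)
    have e2 : C₂ * (2 * q) = 2 * (C₂ * q) := by ring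
    omega
  -- the times
  have hJ1 : (C₂ : ℝ) ≤ μ * J := by
    have h2 : (J₁ : ℝ) ≤ J := by exact_mod_cast hJ
    have h3 := hJ₁.trans h2
    rw [div_le_iff₀ hμ0] at h3
    linarith
  have hθ0 : 0 ≤ ε₁ * J := by positivity
  have hmain : C₂ * (ε₁ * J + 1) ≤ min ε (1 - (a₁ : ℝ)) * Real.log 2 * J := by
    have e1 : C₂ * (ε₁ * J) = μ * J := by rw [hε₁]; field_simp
    have e2 : 2 * (μ * J) = min ε (1 - (a₁ : ℝ)) * Real.log 2 * J := by rw [hμ]; ring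
    rw [mul_add, mul_one, e1]
    linarith
  have hm1 : C₂ * (ε₁ * J + 1) ≤ cl * Real.log 2 := by
    refine hmain.trans ?_
    have e1 : min ε (1 - (a₁ : ℝ)) * Real.log 2 * J ≤ ε * Real.log 2 * J :=
      mul_le_mul_of_nonneg_right (mul_le_mul_of_nonneg_right (min_le_left _ _) hL2.le) hJ0
    have e2 := mul_le_mul_of_nonneg_right hεc hL2.le
    linarith
  have hm2 : C₂ * (ε₁ * J + 1) ≤ ((J : ℝ) - w i₂) * Real.log 2 := by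
    refine hmain.trans ?_
    have e1 : min ε (1 - (a₁ : ℝ)) * Real.log 2 * J ≤ (1 - a₁) * Real.log 2 * J :=
      mul_le_mul_of_nonneg_right (mul_le_mul_of_nonneg_right (min_le_right _ _) hL2.le) hJ0
    have e2 : (w i₂ : ℝ) ≤ a₁ * J := by
      have h2 : (w i₂ : ℝ) ≤ ⌊(a₁ : ℝ) * J⌋₊ := by exact_mod_cast n.w2.trans no.K1
      exact h2.trans (Nat.floor_le (mul_nonneg ha0R hJ0))
    have e3 := mul_le_mul_of_nonneg_right e2 hL2.le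
    linarith
  have hexp : Real.exp (C₂ * (ε₁ * J + 1)) ≤ 2 ^ cl := by
    have e2 : Real.exp (C₂ * (ε₁ * J + 1)) ≤ Real.exp (cl * Real.log 2) :=
      Real.exp_le_exp.2 hm1
    rw [mul_comm (cl : ℝ), ← Real.rpow_def_of_pos (by norm_num), Real.rpow_natCast] at e2
    exact e2
  have hall : ∀ i ≤ N, (∀ l < r, cl ≤ gT i l ∧ cl ≤ gc i l) ∧ cl ≤ pp i ∧ cl ≤ gc i r :=
    fun i hi => ⟨fun l hl => ⟨by
      have := (n.pos i hi).1 l hl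
      omega, by
      have := (n.pos i hi).2.1 l hl.le
      omega⟩, (n.pos i hi).2.2, by
      have := (n.pos i hi).2.1 r le_rfl
      omega⟩
  -- the variation
  obtain ⟨B₁, b1, b2, b3⟩ := hzm E hB0 (X := X) (n := cl) n.h0 n.h2 n.w0 hs0 hs1 hs2 no.st no.on
    no.mo (by
      have := (n.pos i₀ n.h0).1 1 (by omega)
      have hXX' : q ≤ X' := by omega
      omega) hall hθ0 (fun B' hB' s1 s2 => htA B' (fun ω hω => hBA ω (s1 ω hω)) (by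
      linarith) hB') hm2 hexp
  rw [← hZ₀] at b3
  -- the lower bound
  have hbad := htwoA E hBA hεc (by omega) n.h0 n.h3 hik no.K1 hs0 hs1 (hall i₃ n.h3).1
    (hall i₃ n.h3).2.1 (hall i₃ n.h3).2.2 ((hall i₀ n.h0).1 2 (by omega)).1 (t := t₀) (X := X)
    (x₀ := 0) (jx := fun _ => i₀)
    (by have := no.l0; omega) (by have := no.l3; omega) (by omega)
    (fun l hl => by
      have := no.g0 l hl
      omega)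
    (fun l hl => by
      have := no.rm l hl
      omega) (by have := no.ef; omega) (by have := no.f0; omega) (by have := no.f2; omega)
    (fun x hx hx0 => by
      have : x = 1 := by omega
      subst this
      refine ⟨⟨n.h0, le_rfl, (hall i₀ n.h0).1, (hall i₀ n.h0).2.1, (hall i₀ n.h0).2.2, no.st⟩, ?_⟩
      have := no.lo
      rw [← hq]
      omega) (fun h => absurd rfl h)
  rw [← hq, ← ht₀] at hbad
  obtain ⟨bad, hbd⟩ : ∃ bad : F.Ω → Prop, bad = fun ω => B ω ∧ ((0 : ℕ) < 2 →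
      |hs (TH i₀ (slam F (w i₀) ω) 2) (bt F ω) (bd F ω) (ev c 2 (gG G ω i₃) 0)| ≤
        2 ^ (w i₃ + g₀ i₃ 0) / 2 ^ (g₀ i₃ 2 + t₀ + t₀)) := ⟨_, rfl⟩
  rw [← hbd] at hbad
  obtain ⟨B₂, hB₂⟩ : ∃ B₂ : F.Ω → Prop, B₂ = fun ω => B₁ ω ∧ ¬ bad ω := ⟨_, rfl⟩
  have s2 : Sub B₂ B := fun ω hω => by
    rw [hB₂] at hω
    exact b1 ω hω.1
  have hP2 : Pe F.p B / 8 ≤ Pe F.p B₂ := by
    have h3 := Pe_or F.isLaw (A := B₁) (B₀ := bad) (B₁ := B₂)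
      (fun ω hω => by
        rw [hB₂]
        by_cases h4 : bad ω
        · exact Or.inl h4
        · exact Or.inr ⟨hω, h4⟩)
    linarith
  have hz0 : ∀ ω, B₂ ω → 2 ^ (w i₃ + g₀ i₃ 0) / 2 ^ (g₀ i₃ 2 + (t₀ + t₀)) ≤
      |hs (TH i₀ (slam F (w i₀) ω) 2) (bt F ω) (bd F ω) (ev c 2 (gG G ω i₃) 0)| := fun ω hω => by
    rw [hB₂] at hω
    refine (not_lt.1 fun h => hω.2 ?_)
    rw [hbd]
    refine ⟨b1 ω hω.1, fun _ => ?_⟩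
    rw [add_assoc (g₀ i₃ 2)]
    exact h.le
  -- the mixed frame
  have hrT := n.rT 1 (by omega) hs1
  have hz : ∀ ω, B₂ ω → 2 ^ (w i₃ + g₀ i₃ 0) / 2 ^ (g₀ i₃ 2 + (t₀ + t₀) + 1) ≤
      |hs (TH i₀ (slam F (w i₀) ω) 2) (bt F ω) (bd F ω)
        (ev c r (mx Sc (kT w TH ω i₀) (kT w TH ω i₂)) 0)| := fun ω hω =>
    E.zlo (Q := C * q) n.h0 n.h2 n.h3 n.w2 (by omega) hs0 hs1 hall no.st hrT (by omega) no.lo
      no.co (s2 ω hω) (hz0 ω hω)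
  have hE2 := E.sb (B' := B₂) (κ₁ := 1 / 8) (κ₂ := 8 * max κ 0) s2 (by linarith) (by positivity)
    (by
      have := le_max_left κ 0
      linarith)
  have hAJ : w i₂ ≤ J := (E.wA i₂ n.h2).trans E.AJ
  have hkc := fun ω => kc_Xcf (TH := TH) (Sc := Sc) n.w0 hAJ ω
  have hXs : ∀ ω, Xcf w TH Sc i₀ i₂ (slam F (w i₂) ω) 2 = TH i₀ (slam F (w i₀) ω) 2 :=
    fun ω => Xcf_st n.w0 hAJ ω hs2
  obtain ⟨Y₁, hY₁⟩ : ∃ Y, Y = t₀ + t₀ + 1 := ⟨_, rfl⟩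
  have hzY : ∀ ω, B₂ ω → 2 ^ (w i₃ + g₀ i₃ 0) / 2 ^ g₀ i₃ 2 ≤ 2 ^ Y₁ *
      |hs (TH i₀ (slam F (w i₀) ω) 2) (bt F ω) (bd F ω)
        (ev c r (mx Sc (kT w TH ω i₀) (kT w TH ω i₂)) 0)| := fun ω hω => by
    refine le_trans (le_of_eq ?_) (mul_le_mul_of_nonneg_left (hz ω hω) (by positivity))
    rw [add_assoc (g₀ i₃ 2), ← hY₁, pow_add 2 (g₀ i₃ 2)]
    field_simp
  have hfro := hfro_cev E (i₀ := i₀) (i₂ := i₂) (i₃ := i₃) (s₀ := 2) (f := f) (g' := g₀ i₃)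
    (Y₁ := 2 ^ Y₁) (Y₂ := 2 ^ (Z₀ + X + 1)) n.h0 n.h2 (by omega) hs2 (B' := B₂)
    (fun ω hω => b3 ω (by rw [hB₂] at hω; exact hω.1))
    (fun ω hω => by
      rw [hXs, hkc]
      exact hzY ω hω) (by positivity)
    (hfro_num (by have := no.va; omega) (by have := no.vb; omega) n.w0)
  have hfin := hendA hE2 (fun ω hω => hBA ω (s2 ω hω)) hεc (by omega) n he2 he3 hd
    (fun l hl hsl y hy => by
      have h3 := (h1 l hl).1 hsl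
      subst h3
      have hy' : y = 0 ∨ y = 1 := by omega
      rcases hy' with rfl | rfl
      · exact Or.inl (n.hh 1 (by omega) hs1 0 (by omega) hs0)
      · rcases hx2 with h | h
        · exact Or.inl h
        · exact Or.inr ⟨rfl, h⟩) (by omega) (by omega) h1
    (fun y hy hys => (heq y hy hys).imp_right (Or.imp_right fun h ω hω => h ω (s2 ω hω)))
    (f := f) (s₀ := 2)
    (fun ω hω => by
      have h3 := hz ω hω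
      have h4 : (2 : ℝ) ^ (w i₃ + g' 0) / 2 ^ g₀ i₃ 2 ≤ 2 ^ X' *
          (2 ^ (w i₃ + g₀ i₃ 0) / 2 ^ (g₀ i₃ 2 + (t₀ + t₀) + 1)) := by
        rw [← mul_div_assoc, div_le_div_iff₀ (by positivity) (by positivity), ← pow_add,
          ← pow_add, ← pow_add]
        have := no.gp
        exact p2 (by omega)
      exact h4.trans (mul_le_mul_of_nonneg_left h3 (by positivity)))
    (fun ω hω => by
      have h3 := hfro ω hω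
      rw [hXs, hkc] at h3
      refine h3.trans (mul_le_mul_of_nonneg_right (div_le_div_of_nonneg_right ?_
        (by positivity)) (abs_nonneg _))
      rw [← pow_add]
      exact p2 (by omega))
    hbJ
    { nf with
      f1 := hCX'.trans nf.f1
      n1 := by have := nf.n1; omega
      n2 := fun l hl => by have := nf.n2 l hl; omega
      n3 := by have := nf.n3; omega
      n4 := fun l hl => hCX'.trans (nf.n4 l hl)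
      n5 := hCX'.trans nf.n5
      n6 := by have := nf.n6; omega }
  linarith

/-- **The end of the cell with one static coordinate at the place** `2`. -/
theorem ts_end (m D r : ℕ) (hD : 1 ≤ D) (hr : 3 ≤ r) : ∃ C : ℕ, 1 ≤ C ∧
    ∀ {θ : ℝ} {S : PCl m} {P : List (Fin m) × Fin m → ℝ → ℝ → ℝ} (_ : ThrOf (chsys m θ) S P)
    (_ : TmH S) (c : ℕ → Fin m) (_ : Set.InjOn c (Set.Iio (r + 1))) (a₁ : ℚ) (e₁ h₁ : ℝ)
    (_ : 0 ≤ a₁) (_ : a₁ < 1) (_ : e₁ < θ * a₁) (_ : 0 < h₁) (_ : bet P c 0 a₁ a₁ + h₁ ≤ 1)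
    (_ : bet P c 2 a₁ a₁ + h₁ ≤ 1) (a w' : ℚ)
    (b eb h' ε κ₀ : ℝ) (_ : 0 ≤ w') (_ : w' ≤ a) (_ : a ≤ 1) (_ : b < 1) (_ : eb < θ * w')
    (_ : 0 < h') (_ : bet P c r a w' + h' ≤ 1) (_ : 0 < ε) (_ : 0 < κ₀),
    Bas S (fun J F A₀ => ∀ {Dr N M A cl : ℕ} {Sc : ℕ → Prop} {w e h pp : ℕ → ℕ}
      {z g gc gT g₀ : ℕ → ℕ → ℕ} {κ : ℝ} {B : F.Ω → Prop}
      {G : ℕ → PtT F → ℕ → MvPolynomial (Option (Fin m)) ℝ}
      {H : ℕ → LnT F → ℕ → MvPolynomial (Option (Fin m)) ℝ}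
      {T : ℕ → PtT F → ℕ → MvPolynomial (Option (Fin m)) ℝ}
      {TH : ℕ → LnT F → ℕ → MvPolynomial (Option (Fin m)) ℝ}
      {Gt : ℕ → PtT F → MvPolynomial (Option (Fin m)) ℝ}
      {Ht : ℕ → LnT F → MvPolynomial (Option (Fin m)) ℝ},
      CEv F c r D Dr N M A cl Sc w e h pp z g gc gT g₀ κ B G H T TH Gt Ht → Sub B A₀ →
      ε * J ≤ cl → C ≤ cl →
      ∀ {i₀ i₁ i₂ i₃ X X' p x d eM f : ℕ} {g' : ℕ → ℕ},
      NumW r N M A cl J Sc w e pp z g gc gT g₀ i₀ i₁ i₂ i₃ X' p x g' → C * (cl + X + 1) ≤ X' →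
      e i₂ ≤ eM → e i₃ ≤ eM → (∀ y < r, g₀ i₃ y ≤ g' y + d) →
      (g₀ i₃ 1 ≤ g' 1 + X' ∨ w i₂ + g₀ i₂ 1 + g₀ i₃ 2 ≤ w i₃ + g₀ i₂ 2 + g' 1 + X') →
      (∀ l < r, Sc l ↔ l = 2) →
      (∀ y < r, ¬ Sc y → g₀ i₃ y ≤ g' y + X' ∨ ((∀ l < r, y < l → l = 2) ∧
        EqW r N M A cl w pp z g gc gT g₀ i₀ i₁ i₃ X' 2 y g')) →
      (w i₃ : ℝ) ≤ b * J →
      NumT J A X w e gT g₀ i₀ i₂ i₃ f (C * (cl + X + 1)) ⌊(a₁ : ℝ) * J⌋₊ ⌊e₁ * J⌋₊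
        ⌊(bet P c 0 a₁ a₁ + h₁) * J⌋₊ ⌊(bet P c 2 a₁ a₁ + h₁) * J⌋₊ g' →
      NumF r J (w i₂) (w i₃) ⌊(a : ℝ) * J⌋₊ ⌊(w' : ℝ) * J⌋₊ ⌊eb * J⌋₊
        ⌊(bet P c r a w' + h') * J⌋₊ eM d (C * (cl + X' + 1)) f p 2 (g₀ i₃) g' (gT i₂) →
      Pe F.p B < κ₀ * Pe F.p A₀) := by
  obtain ⟨C, hC, hgen⟩ := ts_endG m D r hD hr
  refine ⟨C, hC, ?_⟩
  intro θ S P hP hT c hc a₁ e₁ h₁ ha0 ha1 he1 hh1 hb0 hb2 a w' b eb h' ε κ₀ hw0 hwa ha hb he hh h2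
    hε hκ
  refine Bas.mono 0 (hgen hP hT c hc a₁ e₁ h₁ ha0 ha1 he1 hh1 hb0 hb2 a w' b eb h' ε κ₀ hw0 hwa ha
    hb he hh h2 hε hκ) ?_
  rintro J - F A₀ hA
  intro Dr N M A cl Sc w e h pp z g gc gT g₀ κ B G H T TH Gt Ht E hBA hεc hCc i₀ i₁ i₂ i₃ X X' p x
    d eM f g' n hXX he2 he3 hd hx2 h1 heq
  exact hA E hBA hεc hCc n hXX he2 he3 hd hx2 h1 fun y hy hys => (heq y hy hys).imp_right Or.inl

end Pool.TN
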