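import Pool.Agent.H42.D2.Jcc
import Pool.Agent.H23.D2.Thp

/-!
# The closed gradient of the thin place one from the static place two

`scl_ev`: over a static place two whose second derivative in the direction one is of natural size on an
event, the gradient of the thin place one is closed on the line of an earlier window.
-/

set_option autoImplicit false

namespace Pool.TNW

open Finset Real MvPolynomial
open Pool.Agent.H49.Ent Pool.Agent.H32.Dense Pool.STK Pool.KA Pool.KSAT Pool.K2S Pool.PB Pool.S6C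
open Pool.GEN Pool.CHT Pool.CHX Pool.ISO Pool.D2R Pool.D2Z Pool.D2F Pool.TN
open Pool.FLF (Fam.sub)
open Pool.PB.Trl (rt rt_mem t_rt)

variable {m J : ℕ}

/-- **The closed gradient** of the thin place one, from the static place two. -/
noncomputable def lamC {F : Fam m J} (c : ℕ → Fin m) (t : ℕ)
    (Xc : LnT F → ℕ → MvPolynomial (Option (Fin m)) ℝ) (s : LnT F) (_ : ℕ) : Polynomial ℝ :=
  kpol c t (fun s => Xc s 1) s 0 -
    Polynomial.C (((zp c 3 t (fun s => Xc s 2) Xc 1 s).eval 0)⁻¹) *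
      zp c 3 t (fun s => Xc s 2) Xc 0 s

theorem lamC_deg {F : Fam m J} (c : ℕ → Fin m) (t : ℕ)
    {Xc : LnT F → ℕ → MvPolynomial (Option (Fin m)) ℝ} {D : ℕ}
    (hX : ∀ s l, (Xc s l).totalDegree ≤ D) (s : LnT F) (i : ℕ) :
    (lamC c t Xc s i).natDegree ≤ 4 * D := by
  unfold lamC
  refine (Polynomial.natDegree_sub_le _ _).trans (max_le ?_
    ((Polynomial.natDegree_C_mul_le _ _).trans ?_))
  · have := kpol_deg (F := F) c t (fun s => hX s 1) s 0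
    omega
  · have h1 := zp_deg c 3 t (Q := fun s => Xc s 2) (fun s => hX s 2) hX 0 s
    have h3 : D * (3 + 1) = 4 * D := by ring
    omega

/-- **The numbers**: `i` the window of the static chart, `t` the line, `k` the ball. -/
structure SNum (N A cl X f dd Q : ℕ) (w pp : ℕ → ℕ) (gc gT g₀ : ℕ → ℕ → ℕ) (i t k : ℕ) :
    Prop where
  iN : i ≤ N
  tN : t ≤ N
  kN : k ≤ N
  it : w i ≤ w t
  tk : w t ≤ w k
  cT : ∀ l < 3, cl ≤ gT i l ∧ cl ≤ gc i l ∧ cl ≤ gT t l ∧ cl ≤ gT k l ∧ cl ≤ gc k l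
  pi : cl ≤ pp i
  pk : cl ≤ pp k
  ci : cl ≤ gc i 3
  ck : cl ≤ gc k 3
  lbi : g₀ i 2 + (A - w i) ≤ gT i 2 + X
  lbk : g₀ k 2 + (A - w k) ≤ gT i 2 + X
  mj : g₀ t 1 + (w k - w t) ≤ g₀ k 1 + X
  fz : g₀ k 1 ≤ f + dd + (g₀ t 1 + (w k - w t)) + X
  nv : f + dd + (w i + g₀ i 1 + g₀ k 2) + Q ≤ (w t - w i) + (w k + g₀ k 1 + g₀ i 2)

/-- **The closed gradient of the thin place one** on an event, from the static place two. -/
theorem scl_ev (m D : ℕ) : ∃ C : ℕ, 1 ≤ C ∧ ∀ {J : ℕ} {F : Fam m J} {c : ℕ → Fin m}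
    {Dr N M A cl : ℕ} {Sc : ℕ → Prop} {w e h pp : ℕ → ℕ} {z g gc gT g₀ : ℕ → ℕ → ℕ} {κ θ : ℝ}
    {B : F.Ω → Prop} {G : ℕ → PtT F → ℕ → MvPolynomial (Option (Fin m)) ℝ}
    {H : ℕ → LnT F → ℕ → MvPolynomial (Option (Fin m)) ℝ}
    {T : ℕ → PtT F → ℕ → MvPolynomial (Option (Fin m)) ℝ}
    {TH : ℕ → LnT F → ℕ → MvPolynomial (Option (Fin m)) ℝ}
    {Gt : ℕ → PtT F → MvPolynomial (Option (Fin m)) ℝ}
    {Ht : ℕ → LnT F → MvPolynomial (Option (Fin m)) ℝ},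
    CEv F c 3 D Dr N M A cl Sc w e h pp z g gc gT g₀ κ B G H T TH Gt Ht →
    ∀ {X f dd i t k n : ℕ}, ¬ Sc 0 → ¬ Sc 1 → Sc 2 →
    SNum N A cl X f dd (C * (cl + X + n + 1)) w pp gc gT g₀ i t k → 0 < Pe F.p B → 0 ≤ θ →
    (∀ (B' : F.Ω → Prop) (hB' : 0 < Pe F.p B'), Sub B' B → Pe F.p B ≤ 2 * Pe F.p B' →
      (Fam.sub F B' hB').Tm θ) →
    C * (θ + 1) ≤ ((J : ℝ) - w i) * Real.log 2 → Real.exp (C * (θ + 1)) ≤ 2 ^ n →
    (∀ ω, B ω → 2 ^ (w k + g₀ k 1) / 2 ^ (g₀ k 2 + dd) ≤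
      |hs (TH i (slam F (w i) ω) 2) (bt F ω) (bd F ω) (ev c 2 (gG G ω k) 1)|) →
    ∃ B' : F.Ω → Prop, Sub B' B ∧ Pe F.p B ≤ 2 * Pe F.p B' ∧ ∀ ω, B' ω →
      ∀ V : Option (Fin m) → ℝ, V none = 0 →
      |∑ j ∈ range 1, (lamC c (w t) (Xcf w TH Sc i t) (slam F (w t) ω) j).eval (rt F (w t) ω) *
          V (some (c j)) - cv (gG G ω k 1) V| ≤
        2 ^ (C * (cl + X + 1) + dd) / 2 ^ g₀ k 1 * en c (g₀ k) (w k) (gG G ω k) 1 V := by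
  obtain ⟨C₂, hC₂, hrem⟩ := rem_win m (D * (3 + 1)) 1 1
  obtain ⟨C₃, hC₃, hvar⟩ := var_one (D * (3 + 1))
  obtain ⟨a₂, ha₂⟩ := exists_nat_ge C₂
  obtain ⟨a₃, ha₃⟩ := pow_unbounded_of_one_lt C₃ (show (1 : ℝ) < 2 by norm_num)
  obtain ⟨C, hC⟩ : ∃ C, C = a₂ + a₃ + 60 := ⟨_, rfl⟩
  refine ⟨C, by omega, ?_⟩
  intro J F c Dr N M A cl Sc w e h pp z g gc gT g₀ κ θ B G H T TH Gt Ht E X f dd i t k n
    hs0 hs1 hs2 nn hB hθ hTm hJ hexp hbig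
  have hi := nn.iN
  have ht := nn.tN
  have hk := nn.kN
  have hiJ : w i ≤ J := (E.wA i hi).trans E.AJ
  have htJ : w t ≤ J := (E.wA t ht).trans E.AJ
  have hc : Set.InjOn c (Set.Iio 3) := E.inj.mono (Set.Iio_subset_Iio (by norm_num))
  have hc2 : Set.InjOn c (Set.Iio 2) := hc.mono (Set.Iio_subset_Iio (by norm_num))
  have hΓ : ∀ ω l, CvC c l (gG G ω k l) := fun ω l => cvc_grd ((E.evs k hk).ball.depG _ l) _
  have hκ : ∀ j ≤ N, ∀ ω l, CvC c l (kT w TH ω j l) := fun j hj ω l =>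
    cvc_grd ((E.evs j hj).thin.depH _ l) _
  have hSc : ∀ l < 3, (Sc l ↔ l = 2) := fun l hl => by
    have : l = 0 ∨ l = 1 ∨ l = 2 := by omega
    rcases this with h | h | h
    · rw [h]; exact ⟨fun h => absurd h hs0, fun h => absurd h (by norm_num)⟩
    · rw [h]; exact ⟨fun h => absurd h hs1, fun h => absurd h (by norm_num)⟩
    · rw [h]; exact ⟨fun _ => rfl, fun _ => hs2⟩
  have hns : ∀ x < 2, ¬ Sc x := fun x hx h => by
    have := (hSc x (by omega)).1 h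
    omega
  have hCC : C₂ * (θ + 1) ≤ C * (θ + 1) := by
    refine mul_le_mul_of_nonneg_right (ha₂.trans ?_) (by linarith)
    have : a₂ ≤ C := by omega
    exact_mod_cast this
  have e3 : Real.exp (C₂ * (θ + 1)) ≤ 2 ^ n := (Real.exp_le_exp.2 hCC).trans hexp
  have eQ : C * (cl + X + n + 1) = a₂ * (cl + X + n + 1) + a₃ * (cl + X + n + 1) +
      60 * (cl + X + n + 1) := by
    rw [hC]
    ring
  have e5 : a₃ ≤ a₃ * (cl + X + n + 1) := Nat.le_mul_of_pos_right _ (by omega)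
  have hnv := nn.nv
  rw [eQ] at hnv
  obtain ⟨S₂, hS₂⟩ : ∃ S : ℝ, S = 2 ^ (18 * cl + X + 25) * 2 ^ w i / 2 ^ g₀ i 2 * 2 ^ g₀ i 1 :=
    ⟨_, rfl⟩
  have hS20 : 0 < S₂ := by rw [hS₂]; positivity
  have cTi : ∀ l < 3, cl ≤ gT i l ∧ cl ≤ gc i l := fun l hl => ⟨(nn.cT l hl).1, (nn.cT l hl).2.1⟩
  obtain ⟨B', k1, k2, k3⟩ := hrem J F B hB (fun _ => w i)
    (fun _ _ => zp c 3 (w i) (fun s => TH i s 2) (TH i) 1) (fun _ _ => S₂) θ (fun _ _ => hiJ)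
    (fun _ _ _ _ s => zp_deg c 3 (w i) (Q := fun s => TH i s 2) (fun s => deg_TH E hi s 2)
      (fun s l => deg_TH E hi s l) 1 s)
    (fun _ _ _ _ => hS20) hθ (fun B' hB' h1 h2 => hTm B' hB' h1 (by rwa [pow_one] at h2))
    (fun _ _ => hCC.trans hJ) (fun ω hω _ _ _ _ => by
      have h1 := zsam E hi cTi nn.pi nn.ci hω (l := 2) (by norm_num) hns (fun _ => nn.lbi) 1
      refine h1.trans (le_of_eq ?_)
      rw [hS₂, show 15 * cl + 4 * 3 + X + 10 + (cl + 1) * 3 = 18 * cl + X + 25 by ring])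
  refine ⟨B', k1, by rwa [pow_one] at k2, fun ω hω V hV => ?_⟩
  have hb := k1 ω hω
  have hsup := k3 ω hω 0 (by norm_num) 0 (by norm_num)
  -- the values along the window
  obtain ⟨Z₁, hZ₁⟩ : ∃ p, p = zp c 3 (w t) (fun s => Xcf w TH Sc i t s 2)
    (Xcf w TH Sc i t) 1 (slam F (w t) ω) := ⟨_, rfl⟩
  obtain ⟨Z₀, hZ₀⟩ : ∃ p, p = zp c 3 (w t) (fun s => Xcf w TH Sc i t s 2)
    (Xcf w TH Sc i t) 0 (slam F (w t) ω) := ⟨_, rfl⟩
  have hevZ : ∀ τ, Z₁.eval τ =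
      (zp c 3 (w i) (fun s => TH i s 2) (TH i) 1 (slam F (w i) ω)).eval
        (((((slam F (w t) ω).2.2 % 2 ^ (w t - w i) : ℕ) : ℝ) + τ) / 2 ^ (w t - w i)) := by
    intro τ
    rw [hZ₁, zp_fr12 hc (fun s => dep_Xcf E hi ht s 2) (fun s l => dep_Xcf E hi ht s l)
      (Xc' := fun s => TH i (co (w t - w i) s)) (fun s l => dep_TH E hi _ l)]
    have e1 : (fun s => Xcf w TH Sc i t s 2) = fun s => TH i (co (w t - w i) s) 2 := by
      funext s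
      unfold Xcf
      rw [if_pos hs2]
    rw [e1, zp_co hc nn.it (Q := fun s => TH i s 2) (Xc := TH i)
      (fun s => (dep_TH E hi s 2).mono (by norm_num)) (fun s l => dep_TH E hi s l),
      co_slam F nn.it htJ]
  have h01 : (0 : ℝ) ∈ Set.Icc (0 : ℝ) 1 := by constructor <;> norm_num
  have hr01 := rt_mem F (w t) ω
  obtain ⟨Λ, hΛ⟩ : ∃ Λ : ℝ, Λ = 2 ^ (w k + g₀ k 1) / 2 ^ (g₀ k 2 + dd) := ⟨_, rfl⟩
  have hΛ0 : 0 < Λ := by rw [hΛ]; positivity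
  have hZv : |Z₁.eval (rt F (w t) ω) - Z₁.eval 0| ≤ Λ / 2 ^ (f + 1) := by
    rw [hevZ, hevZ]
    obtain ⟨d, hd⟩ : ∃ d, d = w t - w i := ⟨_, rfl⟩
    rw [← hd] at hnv ⊢
    have h1 := hvar _ _ (zp_deg c 3 (w i) (Q := fun s => TH i s 2) (fun s => deg_TH E hi s 2)
      (fun s l => deg_TH E hi s l) 1 (slam F (w i) ω)) hsup _
      (mem_co (b := (slam F (w t) ω).2.2) (n := d) hr01) _
      (mem_co (b := (slam F (w t) ω).2.2) (n := d) h01)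
    refine h1.trans ?_
    have e1 : |((((slam F (w t) ω).2.2 % 2 ^ d : ℕ) : ℝ) + rt F (w t) ω) / 2 ^ d -
        ((((slam F (w t) ω).2.2 % 2 ^ d : ℕ) : ℝ) + 0) / 2 ^ d| ≤ 1 / 2 ^ d := by
      have e2 : ((((slam F (w t) ω).2.2 % 2 ^ d : ℕ) : ℝ) + rt F (w t) ω) / 2 ^ d -
        ((((slam F (w t) ω).2.2 % 2 ^ d : ℕ) : ℝ) + 0) / 2 ^ d = rt F (w t) ω / 2 ^ d := by
        ring
      rw [e2, abs_of_nonneg (div_nonneg hr01.1 (by positivity))]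
      exact div_le_div_of_nonneg_right hr01.2 (by positivity)
    calc C₃ * (Real.exp (C₂ * (θ + 1)) * S₂) * _ ≤ 2 ^ a₃ * (2 ^ n * S₂) * (1 / 2 ^ d) :=
          mul_le_mul (mul_le_mul ha₃.le (mul_le_mul_of_nonneg_right e3 hS20.le) (by positivity)
            (by positivity)) e1 (abs_nonneg _) (by positivity)
      _ = 2 ^ (a₃ + n + (18 * cl + X + 25) + w i + g₀ i 1) / 2 ^ (g₀ i 2 + d) := by
          rw [hS₂]
          simp only [pow_add]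
          field_simp
      _ ≤ 2 ^ (w k + g₀ k 1) / 2 ^ (g₀ k 2 + dd + (f + 1)) := by
          rw [div_le_div_iff₀ (by positivity) (by positivity), ← pow_add, ← pow_add]
          exact p2 (by omega)
      _ = Λ / 2 ^ (f + 1) := by
          rw [hΛ, pow_add 2 (g₀ k 2 + dd)]
          field_simp
  -- the two frames
  obtain ⟨Ξ, hΞd⟩ : ∃ Ξ, Ξ = mx Sc (kT w TH ω i) (gG G ω k) := ⟨_, rfl⟩
  obtain ⟨Ξ', hΞd'⟩ : ∃ Ξ', Ξ' = mx Sc (kT w TH ω i) (kT w TH ω t) := ⟨_, rfl⟩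
  have hΞ : ∀ l, CvC c l (Ξ l) := fun l => by rw [hΞd]; exact mx_cvc (hκ i hi ω) (hΓ ω) l
  have hΞ' : ∀ l, CvC c l (Ξ' l) := fun l => by
    rw [hΞd']; exact mx_cvc (hκ i hi ω) (hκ t ht ω) l
  have hXc : kc (w t) (Xcf w TH Sc i t) ω = Ξ' := by rw [kc_Xcf nn.it htJ, hΞd']
  have hdiff : ∀ l < 3, l ≠ 1 → ∀ V : Option (Fin m) → ℝ, V none = 0 →
      cv (Ξ l) V = cv (Ξ' l) V := by
    intro l hl hlj V hV
    by_cases hls : l = 2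
    · rw [hΞd, hΞd', hls, mx_pos hs2, mx_pos hs2]
    · have : l = 0 := by omega
      subst this
      rw [cv_c0 (hΞ 0) hV, cv_c0 (hΞ' 0) hV]
  have hΞj : Ξ 1 = gG G ω k 1 := by rw [hΞd]; exact mx_neg hs1
  have hΞ'j : Ξ' 1 = kT w TH ω t 1 := by rw [hΞd']; exact mx_neg hs1
  obtain ⟨Q₂, hQ₂⟩ : ∃ Q, Q = TH i (slam F (w i) ω) 2 := ⟨_, rfl⟩
  have hQ2d' : DepC c 2 Q₂ := by rw [hQ₂]; exact dep_TH E hi _ 2
  have hQ2d : DepC c 3 Q₂ := hQ2d'.mono (by norm_num)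
  have hXst : Xcf w TH Sc i t (slam F (w t) ω) 2 = Q₂ := by
    unfold Xcf
    rw [if_pos hs2, co_slam F nn.it htJ, hQ₂]
  have ez : ∀ x, (zp c 3 (w t) (fun s => Xcf w TH Sc i t s 2) (Xcf w TH Sc i t) x
      (slam F (w t) ω)).eval (rt F (w t) ω) = hs Q₂ (bt F ω) (bd F ω) (ev c 3 Ξ' x) :=
    fun x => by
      rw [zp_rt hc htJ (fun s => (dep_Xcf E hi ht s 2).mono (by norm_num))
        (fun s l => dep_Xcf E hi ht s l), hXc, hXst]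
  have hagr : hs Q₂ (bt F ω) (bd F ω) (ev c 3 Ξ' 1) = hs Q₂ (bt F ω) (bd F ω) (ev c 3 Ξ 1) :=
    hs_agr hc hQ2d _ _ (ev_none _ _ _ _) (ev_none _ _ _ _) fun l hl =>
      (ev_chg_j hc hΞ hΞ' (by norm_num) hdiff l hl).symm
  have hagr2 : hs Q₂ (bt F ω) (bd F ω) (ev c 3 Ξ 1) =
      hs Q₂ (bt F ω) (bd F ω) (ev c 2 (gG G ω k) 1) := by
    refine hs_agr hc2 hQ2d' _ _ (ev_none _ _ _ _) (ev_none _ _ _ _) fun l hl => ?_
    by_cases h : l = 1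
    · subst h
      rw [ev_eq hc hΞ (by norm_num), ev_eq hc2 (hΓ ω) (by norm_num)]
    · rw [ev_low hc hΞ l (by omega) (by omega), ev_low hc2 (hΓ ω) l hl (by omega)]
  have hL : Λ ≤ |hs Q₂ (bt F ω) (bd F ω) (ev c 3 Ξ 1) - 0 * 0| := by
    rw [zero_mul, sub_zero, hagr2, hΛ, hQ₂]
    exact hbig ω hb
  have hv : |hs Q₂ (bt F ω) (bd F ω) (ev c 3 Ξ 1) - 0 * 0 - Z₁.eval 0| ≤ Λ / 2 ^ (f + 1) := by
    rw [zero_mul, sub_zero, ← hagr, ← ez 1, ← hZ₁]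
    exact hZv
  have hen0 : en c (g₀ k) (w k) (gG G ω k) 2 (ev c 3 Ξ 0) = 2 ^ g₀ k 0 :=
    en_ev0 hc hΞ (by norm_num) (by norm_num) (fun x hx V _ => by
      rw [hΞd, mx_neg (hns x hx)]) _ _
  have h0 : |hs Q₂ (bt F ω) (bd F ω) (ev c 3 Ξ 0) - 0 * 0| ≤
      2 ^ (12 * cl + X + 22) * 2 ^ w k / 2 ^ g₀ k 2 * 2 ^ g₀ k 0 := by
    have h1 := E.zS hi hk (nn.it.trans nn.tk)
      (fun l hl => ⟨(nn.cT l hl).2.2.2.1, (nn.cT l hl).2.2.2.2⟩) nn.pk nn.ck hb (l := 2)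
      (by norm_num) hns (nn.cT 2 (by norm_num)).1 nn.lbk (ev c 3 Ξ 0)
    rw [hen0, show 12 * cl + 4 * 3 + X + 10 = 12 * cl + X + 22 by ring, ← hQ₂] at h1
    rw [zero_mul, sub_zero]
    exact h1
  -- the correction
  have v0 := ev_none c 3 Ξ' 0
  have v1 : ev c 3 Ξ' 0 (some (c 0)) = 1 := ev_eq hc hΞ' (by norm_num)
  have hγ := jgam_one E (by norm_num) hs0 hs1 ht hk nn.tk (nn.cT 1 (by norm_num)).2.2.1
    (nn.cT 1 (by norm_num)).2.2.2.2 nn.mj hb v0 v1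
  have hres := jreal (a := 0) (μ := 0) (zk := 0) (zc := 0) (zj := 0) (E₁ := 0)
    (L0 := Z₁.eval 0) (f := f) (hs_chg hc hΞ hΞ' hdiff 0 hQ2d (bt F ω) (bd F ω))
    (by simp) h0 (by simp) hΛ0 hL hv (γ := cv (Ξ 1 - Ξ' 1) (ev c 3 Ξ' 0))
    (Gt := 2 ^ (9 * cl + 2 * X + 10) * (2 ^ g₀ k 0 / 2 ^ (g₀ t 1 + (w k - w t))))
    (by rw [hΞj, hΞ'j]; exact hγ)
  rw [← ez 0, ← hZ₀, mul_zero, zero_sub, add_zero, mul_neg] at hres
  -- the end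
  obtain ⟨ρ, hρ⟩ : ∃ ρ : ℝ, ρ = 2 ^ g₀ k 0 / 2 ^ g₀ k 1 := ⟨_, rfl⟩
  have hρ0 : 0 < ρ := by rw [hρ]; positivity
  have t1 : 2 * (2 ^ (12 * cl + X + 22) * 2 ^ w k / 2 ^ g₀ k 2 * 2 ^ g₀ k 0) / Λ =
      2 ^ (12 * cl + X + 23 + dd) * ρ := by
    rw [hΛ, hρ]
    simp only [pow_add]
    field_simp
  have t2 : 2 ^ (9 * cl + 2 * X + 10) * (2 ^ g₀ k 0 / 2 ^ (g₀ t 1 + (w k - w t))) / 2 ^ f ≤
      2 ^ (9 * cl + 3 * X + 10 + dd) * ρ := by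
    rw [hρ]
    have e1 : 2 ^ (9 * cl + 2 * X + 10) * (2 ^ g₀ k 0 / 2 ^ (g₀ t 1 + (w k - w t))) / 2 ^ f =
        (2 : ℝ) ^ (9 * cl + 2 * X + 10) * 2 ^ g₀ k 0 /
          (2 ^ (g₀ t 1 + (w k - w t)) * 2 ^ f) := by
      field_simp
    rw [e1, ← mul_div_assoc, div_le_div_iff₀ (by positivity) (by positivity), ← pow_add,
      ← pow_add, ← pow_add, ← pow_add, ← pow_add]
    have := nn.fz
    exact p2 (by omega)
  have t3 : 2 ^ (12 * cl + X + 23 + dd) * ρ + 2 ^ (9 * cl + 3 * X + 10 + dd) * ρ ≤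
      2 ^ (C * (cl + X + 1) + dd) * ρ := by
    have e0 : C * (cl + X + 1) = (a₂ + a₃) * (cl + X + 1) + 60 * (cl + X + 1) := by
      rw [hC]
      ring
    obtain ⟨W, hW⟩ : ∃ W, W = 59 * (cl + X + 1) + dd := ⟨_, rfl⟩
    have e1 : (2 : ℝ) ^ (12 * cl + X + 23 + dd) ≤ 2 ^ W := p2 (by omega)
    have e2 : (2 : ℝ) ^ (9 * cl + 3 * X + 10 + dd) ≤ 2 ^ W := p2 (by omega)
    have e3 : 2 * (2 : ℝ) ^ W ≤ 2 ^ (C * (cl + X + 1) + dd) := by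
      rw [← pow_succ', e0]
      exact p2 (by omega)
    rw [← add_mul]
    refine mul_le_mul_of_nonneg_right ?_ hρ0.le
    linarith
  rw [t1] at hres
  have hmain := (hres.trans (add_le_add le_rfl t2)).trans t3
  have hcv1 : ∀ W : Option (Fin m) → ℝ, CvC c 1 W → ∀ V : Option (Fin m) → ℝ, V none = 0 →
      cv W V = W (some (c 0)) * V (some (c 0)) := fun W hW V hV => by
    have hc1 : Set.InjOn c (Set.Iio 1) := hc.mono (Set.Iio_subset_Iio (by norm_num))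
    rw [cv_eq hc1 hW, hV, mul_zero, zero_add, Finset.sum_range_one]
  rw [hΞj, hΞ'j, cv_subl, hcv1 _ (hΓ ω 1) _ v0, hcv1 _ (hκ t ht ω 1) _ v0, v1, mul_one,
    mul_one] at hmain
  rw [Finset.sum_range_one, hcv1 _ (hΓ ω 1) _ hV, en_one _ _ (hΓ ω 0) hV]
  have hlam : (lamC c (w t) (Xcf w TH Sc i t) (slam F (w t) ω) 0).eval (rt F (w t) ω) =
      kT w TH ω t 1 (some (c 0)) + -((Z₁.eval 0)⁻¹ * Z₀.eval (rt F (w t) ω)) := by
    unfold lamC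
    rw [Polynomial.eval_sub, Polynomial.eval_mul, Polynomial.eval_C, kpol_rt F c htJ, ← hZ₀,
      ← hZ₁, sub_eq_add_neg]
    congr 1
    unfold Xcf kT
    rw [if_neg hs1]
  rw [hlam]
  obtain ⟨x, hx⟩ : ∃ x, x = -((Z₁.eval 0)⁻¹ * Z₀.eval (rt F (w t) ω)) := ⟨_, rfl⟩
  rw [← hx] at hmain ⊢
  have e1 : (kT w TH ω t 1 (some (c 0)) + x) * V (some (c 0)) -
      gG G ω k 1 (some (c 0)) * V (some (c 0)) =
      (x - (gG G ω k 1 (some (c 0)) - kT w TH ω t 1 (some (c 0)))) * V (some (c 0)) := by ring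
  rw [e1, abs_mul]
  refine (mul_le_mul_of_nonneg_right hmain (abs_nonneg _)).trans (le_of_eq ?_)
  rw [hρ]
  ring

end Pool.TNW
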