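import Pool.Agent.H95.R136.Rra
import Pool.Agent.H95.R136.Ap2
import Pool.Agent.H95.R136.Scl

/-!
# The numbers of a thin coordinate of the list

`RecQ.rl`: rational windows `w'` near `t` and `a` near `t + q` with the number of a thin coordinate of
the list. `ApN.snum`: the numbers of the closed gradient from a static place two.
-/

set_option autoImplicit false

namespace Pool.D2R

open Finset Real MvPolynomial
open Pool.Agent.H49.Ent Pool.Agent.H32.Dense Pool.STK Pool.KA Pool.KSAT Pool.K2S Pool.PB Pool.S6C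
open Pool.GEN Pool.CHT Pool.CHX Pool.D2F
open Pool.LBT (ThrOf)
open Pool.FLF (Fam.sub)
open Pool.PKG (RecQ RecL PtI KdQ Kd)

/-- **The rational points** of a thin coordinate `l` of the list. -/
theorem RecQ.rl {m : ℕ} {S : PCl m} {P P₂ : List (Fin m) × Fin m → ℝ → ℝ → ℝ} {θ θ₂ : ℝ}
    {c : ℕ → Fin m} {i : ℕ} {Pt : ℝ → ℝ → ℝ} {L T : ℕ → ℝ → ℝ → ℝ} {Sl : ℕ → ℝ} {kd : ℕ → Kd}
    {S₀ N : ℕ} {Al V : ℕ → ℝ} {S₂ N' : ℕ} {V' : ℕ → ℝ} {Eb e₂ K ε q t : ℝ}
    (R : RecQ S P P₂ θ θ₂ c i Pt L T Sl kd S₀ N Al V S₂ N' V' Eb e₂ K ε q t) {l : ℕ}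
    (hl : l < i) (hkd : kd l = .thin) {Eb' e' : ℝ}
    (RL : RecL S P θ c l L S₀ N Al V S₂ N' V' Eb' e' K q t) {y : ℝ}
    (hy : 0 < y) (hy1 : y ≤ 1 / 1000) (hεy : ε ≤ y / 4) (hK : 3 ≤ K) {j : ℕ} (hj : j < N)
    (hA : Al j = 1) (hV : V j = 0) : ∃ a w' : ℚ, t + q < a ∧ (a : ℝ) < t + 2 * q ∧ t < w' ∧
      (w' : ℝ) < t + q ∧ 0 ≤ w' ∧ w' ≤ a ∧ a < 1 ∧ e' < θ * w' ∧
      bet P c l a w' + y * q ≤ 1 ∧ ∀ J : ℕ, (⌊(bet P c l a w' + y * q) * J⌋₊ : ℝ) ≤
        L l t t * J + q * J + 5 * (y * (q * J)) := by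
  have hq := R.q0
  have hyq : 0 < y * q := mul_pos hy hq
  obtain ⟨dr, hdr, hrat⟩ := RL.rat j hj (y * q) hyq
  rw [hA, hV, one_mul, zero_mul, add_zero] at hrat
  have mdr : 0 < min dr q := lt_min hdr hq
  obtain ⟨w', hw1, hw2⟩ := exists_rat_btwn (show t < t + min dr q by linarith only [mdr])
  obtain ⟨a, ha1, ha2⟩ := exists_rat_btwn (show t + q < t + q + min dr q by
    linarith only [mdr])
  have m1 := min_le_left dr q
  have m2 := min_le_right dr q
  have ht0 := R.t0
  have ht1 := R.t1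
  have hKq : 3 * q ≤ K * q := mul_le_mul_of_nonneg_right hK hq.le
  have r1 := hrat a w' ha1.le (by linarith only [ha2, m1]) hw1.le
    (by linarith only [hw2, m1]) (by linarith only [hw2, ha1, m2])
  have bx : ∀ x : ℝ, t ≤ x → x ≤ t + 2 * q → |x - t| ≤ K * q := fun x h4 h5 => by
    rw [abs_le]
    exact ⟨by linarith only [h4, hKq, hq], by linarith only [h5, hKq, hq]⟩
  have hthin := R.kd l hl
  rw [hkd] at hthin
  have h3 := hthin.2 (t + q) t (by linarith only [hKq, hq]) (by linarith only [hq])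
    (by linarith only [hKq, hq])
  have h4 := abs_le.1 (R.dT l hl.le t (bx t le_rfl (by linarith only [hq])))
  rw [sub_self, mul_zero, sub_zero] at h4
  have h5 := mul_le_mul_of_nonneg_right hεy hq.le
  have h6 : bet P c l a w' + y * q ≤ L l t t + q + 5 * (y * q) := by
    linarith only [r1, h3, h4.2, h5, hyq]
  have hyq1 : y * q ≤ q / 1000 := by
    have := mul_le_mul_of_nonneg_right hy1 hq.le
    linarith only [this]
  have e3K : 3 * K * q = 3 * (K * q) := by ring
  have hlow : t ≤ L l t t := by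
    have h1 := RecQ.lowL R (x := 0) (Or.inl ⟨j, hj, hV⟩) (by linarith only [ht0, hKq, hq])
      (by linarith only [ht1, hKq, hq]) l hl.le
    rw [zero_mul, add_zero] at h1
    exact h1
  have hroom := RL.room l le_rfl t (bx t le_rfl (by linarith only [hq]))
  have hEb := RL.Eb0
  have ha3 : (a : ℝ) < 1 := by linarith only [ha2, m2, ht1, hKq, hq]
  have hw3 : (0 : ℝ) ≤ w' := by linarith only [hw1, ht0, hKq, hq]
  have hwa : (w' : ℝ) ≤ a := by linarith only [hw2, ha1, m2]
  refine ⟨a, w', ha1, by linarith only [ha2, m2], hw1, by linarith only [hw2, m2],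
    by exact_mod_cast hw3, by exact_mod_cast hwa, by exact_mod_cast ha3,
    RL.eθ w' (bx _ hw1.le (by linarith only [hw2, m2, hq])), ?_, fun J => ?_⟩
  · linarith only [h6, hroom, hEb, e3K, hKq, hyq1, hq]
  · have hJ0 : (0 : ℝ) ≤ J := Nat.cast_nonneg J
    have h7 := mul_le_mul_of_nonneg_right h6 hJ0
    have e1 : (L l t t + q + 5 * (y * q)) * J = L l t t * J + q * J +
        5 * (y * (q * J)) := by ring
    rw [e1] at h7
    rcases le_total 0 ((bet P c l a w' + y * q) * (J : ℝ)) with h8 | h8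
    · exact (Nat.floor_le h8).trans h7
    · rw [Nat.floor_of_nonpos h8, Nat.cast_zero]
      have h10 : 0 ≤ L l t t * J := mul_nonneg (by
        linarith only [hlow, ht0, hKq, hq]) hJ0
      have h11 : 0 ≤ q * (J : ℝ) := mul_nonneg hq.le hJ0
      have h12 : 0 ≤ y * (q * J) := mul_nonneg hy.le (mul_nonneg hq.le hJ0)
      linarith only [h10, h11, h12]

end Pool.D2R

namespace Pool.TN

open Pool.TNW (SNum)

variable {N J A cl : ℕ} {Sc : ℕ → Prop} {w e pp : ℕ → ℕ} {g gc gT g₀ : ℕ → ℕ → ℕ}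
    {U y τ Ee K A' : ℝ} {v Sl Λ : ℕ → ℝ}

/-- **The numbers of the closed gradient** from the static place two, slope `Sl 2 = 1 + Sl 1`. -/
theorem ApN.snum (h : ApN 3 N J A cl Sc w e pp g gc gT g₀ U y τ Ee K A' v Sl Λ) {X Q : ℕ}
    (hX : 20 * (y * U) ≤ X) (hQ : (Q : ℝ) ≤ U / 100)
    (hy : y ≤ 1 / 1000) (hsc : Sc 2)
    (h2 : Sl 2 = 1 + Sl 1) (h1 : 1 < Sl 1) {i t k : ℕ} (hi : i ≤ N) (ht : t ≤ N) (hk : k ≤ N)
    (vi : v i + Sl 1 + 1 = v t) (vt : v t + 1 = v k) (hK : 2 ≤ K + v i) (hA : v k + 1 ≤ A') :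
    SNum N A cl X (g₀ k 1 - (g₀ t 1 + (w k - w t))) (2 * Q) Q w pp gc gT g₀ i t k := by
  have hit : v i ≤ v t := by linarith only [vi, h1]
  have htk : v t ≤ v k := by linarith only [vt]
  have m1 := h.wm i hi t ht hit
  have m2 := h.wm t ht k hk htk
  have Kt : 2 ≤ K + v t := by linarith only [hK, hit]
  have Kk : 2 ≤ K + v k := by linarith only [hK, hit, htk]
  have At : v t + 1 ≤ A' := by linarith only [hA, htk]
  have Ai : v i + 1 ≤ A' := by linarith only [hA, htk, hit]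
  have hU := h.U0
  have hyU := h.yUs hy
  have c1 := h.cl1
  have wi := h.w1 i hi
  have wt := h.w1 t ht
  have wk := h.w1 k hk
  have gi1 := h.ga i hi 1 (by norm_num)
  have gi2 := h.ga i hi 2 (by norm_num)
  have gt1 := h.ga t ht 1 (by norm_num)
  have gk1 := h.ga k hk 1 (by norm_num)
  have gk2 := h.ga k hk 2 (by norm_num)
  have yU1 := h.yU
  refine
    { iN := hi
      tN := ht
      kN := hk
      it := m1
      tk := m2
      cT := fun l hl => ⟨nat_le_of_real (by
        linarith only [h.gT0 hi hl hK hy Ai, c1, hyU, hU]), nat_le_of_real (by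
        linarith only [h.gc0 hi hl.le hK hy Ai, c1, hyU, hU]), nat_le_of_real (by
        linarith only [h.gT0 ht hl Kt hy At, c1, hyU, hU]), nat_le_of_real (by
        linarith only [h.gT0 hk hl Kk hy hA, c1, hyU, hU]), nat_le_of_real (by
        linarith only [h.gc0 hk hl.le Kk hy hA, c1, hyU, hU])⟩
      pi := nat_le_of_real (by linarith only [h.pp0 hi hK hy Ai, c1, hyU, hU])
      pk := nat_le_of_real (by linarith only [h.pp0 hk Kk hy hA, c1, hyU, hU])
      ci := nat_le_of_real (by linarith only [h.gc0 hi le_rfl hK hy Ai, c1, hyU, hU])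
      ck := nat_le_of_real (by linarith only [h.gc0 hk le_rfl Kk hy hA, c1, hyU, hU])
      lbi := (h.ZN hX (by norm_num) hsc hi hi le_rfl hK hy Ai).lb
      lbk := (h.ZN hX (by norm_num) hsc hi hk (hit.trans htk) Kk hy hA).lb
      mj := ?_
      fz := by omega
      nv := ?_ }
  · refine nat_le_of_real ?_
    push_cast
    rw [Nat.cast_sub m2]
    have h5 : 0 ≤ (Sl 1 - 1) * (v k - v t) * U := by
      have : 0 ≤ Sl 1 - 1 := by linarith only [h1]
      have : 0 ≤ v k - v t := by linarith only [htk]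
      positivity
    linarith only [wt, wk, gt1, gk1, h5, hX, yU1]
  · obtain ⟨f, hf⟩ : ∃ f, f = g₀ k 1 - (g₀ t 1 + (w k - w t)) := ⟨_, rfl⟩
    rw [← hf]
    have hfR : (f : ℝ) ≤ Sl 1 * U + U / 100 := by
      rcases Nat.lt_or_ge (g₀ k 1) (g₀ t 1 + (w k - w t)) with h4 | h4
      · have h5 : f = 0 := by omega
        rw [h5]
        have h6 : 0 ≤ Sl 1 * U := mul_nonneg (by linarith only [h1]) hU.le
        push_cast
        linarith only [h6, hU]
      · have h5 : f + (g₀ t 1 + (w k - w t)) = g₀ k 1 := by omega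
        have h6 : (f : ℝ) + (g₀ t 1 + (w k - w t)) = g₀ k 1 := by
          rw [← Nat.cast_sub m2]
          exact_mod_cast h5
        have e1 : Sl 1 * v k * U = Sl 1 * v t * U + Sl 1 * U := by rw [← vt]; ring
        have e2 : v k * U = v t * U + U := by rw [← vt]; ring
        linarith only [h6, wt, wk, gt1, gk1, e1, e2, hyU, yU1, hU]
    refine nat_le_of_real ?_
    push_cast
    rw [Nat.cast_sub m1]
    have e1 : Sl 2 * v i * U = v i * U + Sl 1 * v i * U := by rw [h2]; ring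
    have e2 : Sl 2 * v k * U = v k * U + Sl 1 * v k * U := by rw [h2]; ring
    have e3 : v t * U = v i * U + Sl 1 * U + U := by rw [← vi]; ring
    linarith only [hfR, wi, wt, wk, gi1, gi2, gk1, gk2, e1, e2, e3, hyU, yU1, hU, hQ]

end Pool.TN
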