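import Pool.Agent.H95.R136.Cap
import Pool.Agent.H95.R136.Rra
import Pool.Agent.H95.R136.Ap2

/-!
# The slope of a static coordinate over one coordinate of slope one and a thin coordinate

`cellQ_ts2`: the cell `[one, thin, sta]` if the slope of the static coordinate is above two and not the
slope of the thin one plus one.
-/

set_option autoImplicit false

namespace Pool.TN

open Finset Real MvPolynomial
open Pool.Agent.H49.Ent Pool.Agent.H32.Dense Pool.STK Pool.KA Pool.KSAT Pool.K2S Pool.PB Pool.S6C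
open Pool.GEN Pool.CHT Pool.CHX Pool.ISO Pool.D2R Pool.D2Z Pool.D2F Pool.AFT Pool.PKG
open Pool.LBT (ThrOf)

/-- The windows. -/
def vt2 (v0 v2 v3 : ℝ) (k : ℕ) : ℝ :=
  if k = 0 then v0 else if k = 1 then 1 else if k = 2 then v2 else v3

/-- **The class theorem of the cell** `[one, thin, sta]`, static slope above two and not the thin one
plus one. -/
theorem cellQ_ts2 {n : ℕ} {Sl : ℕ → ℝ} {κ : ℕ → Kd} (k0 : κ 0 = .one) (k1 : κ 1 = .thin)
    (k2 : κ 2 = .sta) (h0 : Sl 0 = 1) (h1 : 1 < Sl 1) (h2 : 2 < Sl 2)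
    (hne : Sl 2 ≠ 1 + Sl 1) : CellQ n 3 Sl κ := by
  intro del hdel S₀ hS₀
  obtain ⟨d0, hd0⟩ : ∃ d, d = 1 / (Sl 2 - 2) := ⟨_, rfl⟩
  obtain ⟨d1, hd1⟩ : ∃ d, d = 1 / (Sl 2 - 1 - Sl 1) := ⟨_, rfl⟩
  have hs2 : 0 < Sl 2 - 2 := by linarith only [h2]
  have hd00 : 0 < d0 := by rw [hd0]; positivity
  have e0 : (Sl 2 - 2) * d0 = 1 := by rw [hd0]; field_simp
  have e1 : (Sl 2 - 1 - Sl 1) * d1 = 1 := by
    have : Sl 2 - 1 - Sl 1 ≠ 0 := fun h => hne (by linarith only [h])
    rw [hd1]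
    field_simp
  have hab := le_abs_self d1
  have hab0 := abs_nonneg d1
  have hab1 := neg_abs_le d1
  obtain ⟨A', hA'⟩ : ∃ A', A' = |d1| + 2 * d0 + 6 := ⟨_, rfl⟩
  obtain ⟨K, hK⟩ : ∃ K, K = A' + 3 := ⟨_, rfl⟩
  obtain ⟨v, hv⟩ : ∃ v : ℕ → ℝ, v = vt2 (-|d1|) (1 + d0) (1 + d1) := ⟨_, rfl⟩
  have q0 : v 0 = -|d1| := by rw [hv]; rfl
  have q1 : v 1 = 1 := by rw [hv]; rfl
  have q2 : v 2 = 1 + d0 := by rw [hv]; rfl
  have q3 : v 3 = 1 + d1 := by rw [hv]; rfl
  have hvb : ∀ k ≤ 3, v 0 ≤ v k ∧ v k + d0 + 4 ≤ A' ∧ 2 ≤ K + v k := fun k hk => by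
    have : k = 0 ∨ k = 1 ∨ k = 2 ∨ k = 3 := by omega
    rcases this with rfl | rfl | rfl | rfl
    · rw [q0]
      exact ⟨le_rfl, by linarith only [hA', hab0, hd00], by linarith only [hK, hA', hab0, hd00]⟩
    · rw [q0, q1]
      exact ⟨by linarith only [hab0], by linarith only [hA', hab0, hd00],
        by linarith only [hK, hA', hab0, hd00]⟩
    · rw [q0, q2]
      exact ⟨by linarith only [hab0, hd00], by linarith only [hA', hab0, hd00],
        by linarith only [hK, hA', hab0, hd00]⟩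
    · rw [q0, q3]
      exact ⟨by linarith only [hab1], by linarith only [hA', hab, hd00],
        by linarith only [hK, hA', hab1, hd00]⟩
  have hA6 : 6 ≤ A' := by linarith only [hA', hab0, hd00]
  have hdA : d0 + 2 ≤ A' := by linarith only [hA', hab0, hd00]
  obtain ⟨Al, hAl⟩ : ∃ Al : ℕ → ℝ, Al = fun k => if k = 4 then 1 else A' := ⟨_, rfl⟩
  obtain ⟨Vl, hVl⟩ : ∃ Vl : ℕ → ℝ, Vl = fun k => if k = 4 then 0 else v k := ⟨_, rfl⟩
  have Al4 : Al 4 = 1 := by rw [hAl]; simp
  have Vl4 : Vl 4 = 0 := by rw [hVl]; simp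
  have Alk : ∀ k ≤ 3, Al k = A' := fun k hk => by
    rw [hAl]
    simp only [show k ≠ 4 by omega, if_false]
  have Vlk : ∀ k ≤ 3, Vl k = v k := fun k hk => by
    rw [hVl]
    simp only [show k ≠ 4 by omega, if_false]
  refine ⟨K, 5, Al, Vl, by linarith only [hK, hA6], fun k hk => ?_, fun S₂ hS₂ => ?_⟩
  · rcases Nat.lt_or_ge k 4 with h5 | h5
    · rw [Alk k (by omega), Vlk k (by omega)]
      have h6 := hvb k (by omega)
      exact ⟨by linarith only [h6.2.2], by linarith only [h6.2.1, hd00], by linarith only [hK]⟩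
    · have h6 : k = 4 := by omega
      subst h6
      rw [Al4, Vl4]
      exact ⟨by linarith only [hK, hA6], by norm_num, by linarith only [hK, hA6]⟩
  obtain ⟨D, hD, hcev⟩ := cevN n 3 S₂ (by norm_num) le_rfl (hS₀.trans hS₂)
  obtain ⟨C, hC, hend⟩ := sta_two n D 3 hD le_rfl
  have hCR : (1 : ℝ) ≤ C := by exact_mod_cast hC
  have hC0 : (0 : ℝ) < C := by linarith only [hCR]
  obtain ⟨y, hy⟩ : ∃ y : ℝ, y = 1 / (6000 * C) := ⟨_, rfl⟩
  have hy0 : 0 < y := by rw [hy]; positivity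
  have hyC : 6000 * (C * y) = 1 := by rw [hy]; field_simp
  have hyy : y ≤ C * y := le_mul_of_one_le_left hy0.le hCR
  have hy1 : y ≤ 1 / 6000 := by linarith only [hyC, hyy]
  obtain ⟨n₀, s', ε₀, hn₀, hs', hns, hε₀, hcev⟩ := hcev D le_rfl Sl y 1 hy0
    (by linarith only [hy1]) one_pos
    (fun l hl1 hl2 _ => by
      have : l = 1 ∨ l = 2 := by omega
      rcases this with rfl | rfl
      · exact h1
      · linarith only [h2])
    (fun _ => by
      rw [h0]
      exact ⟨h1, by linarith only [h2]⟩)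
  obtain ⟨V', hV'⟩ : ∃ V' : ℕ → ℝ, V' = fun j => v (j / n₀) + ((j % n₀ : ℕ) + 1) * s' := ⟨_, rfl⟩
  refine ⟨4 * n₀, V', fun j hj => ?_, min ε₀ (y / 4), lt_min hε₀ (by positivity), ?_⟩
  · have h5 : j / n₀ ≤ 3 := by
      have : j / n₀ < 4 := Nat.div_lt_of_lt_mul (by omega)
      omega
    have h6 : ((j % n₀ : ℕ) : ℝ) + 1 ≤ n₀ + 1 := by
      have : j % n₀ < n₀ := Nat.mod_lt _ (by omega)
      have : ((j % n₀ : ℕ) : ℝ) ≤ n₀ := by exact_mod_cast this.le
      linarith only [this]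
    have h7 := mul_le_mul_of_nonneg_right h6 hs'.le
    have h8 := hvb _ h5
    have h9 : 0 ≤ ((j % n₀ : ℕ) + 1 : ℝ) * s' := by positivity
    rw [hV']
    beta_reduce
    exact ⟨by linarith only [h8.2.2, h9], by linarith only [h8.2.1, h7, hns, hd00, hK]⟩
  intro S P P₂ θ θ₂ c Pt L T Eb e₂' q t R
  exfalso
  have hq := R.q0
  have hεe : min ε₀ (y / 4) ≤ ε₀ := min_le_left _ _
  have hεy : min ε₀ (y / 4) ≤ y / 4 := min_le_right _ _
  have hε0 : 0 < min ε₀ (y / 4) := lt_min hε₀ (by positivity)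
  have hyq : 0 < y * q := mul_pos hy0 hq
  obtain ⟨a, w', ra1, ra2, ra3, ra4, ra5, ra6, ra7, ra8, ra9, rb, rn, -⟩ :=
    RecQ.ra R hy0 (by linarith only [hy1]) hεy (by linarith only [hK, hA6]) (j := 4)
      (by norm_num) Al4 Vl4
  obtain ⟨K₁, hK₁, hcev⟩ := hcev R hS₂ hε0.le hεe (by linarith only [hK, hA6]) A' (d0 / 2) 3 0 v
    (fun l => l = 2) (by linarith only [hK]) (by positivity) (fun k hk =>
      ⟨by linarith only [(hvb k hk).2.2], by linarith only [(hvb k hk).2.1, hd00]⟩)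
    (fun k hk => ⟨k, by omega, Alk k hk, Vlk k hk⟩)
    (fun k hk j hj1 hj2 => ⟨k * n₀ + (j - 1), by
      have h5 : k * n₀ ≤ 3 * n₀ := Nat.mul_le_mul_right _ hk
      omega, by
      have h5 : (k * n₀ + (j - 1)) / n₀ = k := by
        rw [mul_comm, Nat.mul_add_div (by omega), Nat.div_eq_of_lt (by omega), add_zero]
      have h6 : (k * n₀ + (j - 1)) % n₀ = j - 1 := by
        rw [mul_comm, Nat.mul_add_mod, Nat.mod_eq_of_lt (by omega)]
      rw [hV']
      beta_reduce
      rw [h5, h6]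
      have h7 : ((j - 1 : ℕ) : ℝ) + 1 = j := by
        have : ((j - 1 + 1 : ℕ) : ℝ) = j := by rw [Nat.sub_add_cancel hj1]
        push_cast at this
        exact this
      rw [h7]⟩) (fun l hl hsc => by
      have : l = 0 ∨ l = 1 := by omega
      rcases this with rfl | rfl
      · exact Or.inl k0
      · exact Or.inr k1) (fun l hl hsc => by
      have : l = 2 := hsc
      rw [this]
      exact k2)
  have hV1 := hcev 1 one_pos
  have hV2 := hend R.thr₂ R.tmh c R.inj a e₂' (y * q) (y * q / 2) (1 / K₁) (by linarith only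
    [ra5, ra6]) ra7 ra8 hyq (rb 0 (by norm_num)) (rb 2 (by norm_num)) (by positivity)
    (by positivity)
  have hpos : Bas S (fun _ F A => 0 < Pe F.p A) := ⟨1, one_pos, 0, fun J _ F A hA =>
    R.tmh.1 1 J F A hA⟩
  obtain ⟨J₁, hJ₁⟩ := exists_nat_ge (((C : ℝ) + 2) / (y * q) + 2 / (d0 * q))
  refine Pool.LBT.bas_false R.ne (Φ := fun _ _ _ => True) ⟨1, one_pos, 0, fun _ _ _ _ _ =>
    trivial⟩ (Bas.mono J₁ ((hV1.and hV2).and hpos) ?_)
  rintro J hJ F A₀ ⟨⟨hA1, hA2⟩, hA0⟩ -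
  have hJR : (J₁ : ℝ) ≤ J := by exact_mod_cast hJ
  have hdq : 0 < d0 * q := mul_pos hd00 hq
  have hyU : (C : ℝ) + 2 ≤ y * (q * J) := by
    have h4 : ((C : ℝ) + 2) / (y * q) ≤ J := by
      have : 0 ≤ 2 / (d0 * q) := by positivity
      linarith only [hJ₁, hJR, this]
    rw [div_le_iff₀ hyq] at h4
    linarith only [h4]
  have hdU : 2 ≤ d0 * (q * J) := by
    have h4 : 2 / (d0 * q) ≤ J := by
      have : 0 ≤ ((C : ℝ) + 2) / (y * q) := by positivity
      linarith only [hJ₁, hJR, this]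
    rw [div_le_iff₀ hdq] at h4
    linarith only [h4]
  have hJ0 : (0 : ℝ) ≤ J := Nat.cast_nonneg J
  obtain ⟨U, hU⟩ : ∃ U : ℝ, U = q * J := ⟨_, rfl⟩
  rw [← hU] at hyU hdU
  have hU0 : 0 ≤ U := by rw [hU]; positivity
  obtain ⟨w, hw⟩ : ∃ w : ℕ → ℕ, w = fun k => ⌊(t + v k * q) * J⌋₊ := ⟨_, rfl⟩
  obtain ⟨A, hA⟩ : ∃ A : ℕ, A = ⌊(t + A' * q) * J⌋₊ := ⟨_, rfl⟩
  obtain ⟨cl, hcl⟩ : ∃ cl : ℕ, cl = ⌊y * q * J⌋₊ := ⟨_, rfl⟩
  have ht0 := R.t0
  have ht1 := R.t1
  have hKq : ∀ k ≤ 3, 0 ≤ t + v k * q := fun k hk => by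
    have h5 := mul_le_mul_of_nonneg_right (hvb k hk).2.2 hq.le
    linarith only [h5, ht0, hq]
  have wR : ∀ k ≤ 3, t * J + v k * U - 1 ≤ w k ∧ (w k : ℝ) ≤ t * J + v k * U := fun k hk => by
    have h6 := Nat.floor_le (mul_nonneg (hKq k hk) hJ0)
    have h7 := Nat.lt_floor_add_one ((t + v k * q) * J)
    have h8 : (t + v k * q) * J = t * J + v k * U := by rw [hU]; ring
    rw [hw]
    beta_reduce
    rw [h8] at h6 h7 ⊢
    exact ⟨by linarith only [h7], h6⟩
  have AR : t * J + A' * U - 1 ≤ A := by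
    have h7 := Nat.lt_floor_add_one ((t + A' * q) * J)
    have h8 : (t + A' * q) * J = t * J + A' * U := by rw [hU]; ring
    rw [hA]
    rw [h8] at h7 ⊢
    linarith only [h7]
  have W1 := wR 1 (by norm_num)
  have W2 := wR 2 (by norm_num)
  rw [q1] at W1
  rw [q2] at W2
  have m12 : w 1 ≤ w 2 := nat_le_of_real (by linarith only [W1.2, W2.1, hdU])
  obtain ⟨B, e, h, pp, g, gc, gT, g₀, G, H, Th, TH, Gt, Ht, hBA, hBP, E, hap⟩ := hA1 w A cl
    (fun k => by rw [hw]) hA hcl (fun _ _ => w 2 - w 1) (fun k hk p _ => by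
      constructor
      · rw [Nat.cast_sub m12, ← hU]
        linarith only [W1.2, W2.1, hdU]
      · refine nat_le_of_real ?_
        push_cast
        rw [Nat.cast_sub m12]
        have h5 := (wR k hk).2
        have h6 := mul_le_mul_of_nonneg_right (hvb k hk).2.1 hU0
        have h7 : 0 ≤ (1 / 6000 - y) * U := mul_nonneg (by linarith only [hy1]) hU0
        linarith only [h5, h6, W1.1, W2.2, AR, hyU, h7, hCR])
  rw [← hU] at hap
  obtain ⟨X, hX⟩ : ∃ X, X = 50 * cl := ⟨_, rfl⟩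
  obtain ⟨Q, hQ⟩ : ∃ Q, Q = C * (cl + X + 1) := ⟨_, rfl⟩
  have c1 := hap.cl1
  have c2 := hap.cl2
  have XR : (X : ℝ) = 50 * cl := by rw [hX]; push_cast; ring
  have hCyU : 6000 * (C * (y * U)) ≤ U := by
    have h5 : 6000 * (C * y) * U = U := by rw [hyC, one_mul]
    linarith only [h5]
  have QR : (Q : ℝ) ≤ U / 100 := by
    have h5 : (Q : ℝ) = C * (cl + 50 * cl + 1) := by rw [hQ, hX]; push_cast; ring
    rw [h5]
    have h6 : (cl : ℝ) + 50 * cl + 1 ≤ 52 * (y * U) := by linarith only [c1, hyU, hCR]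
    have h7 := mul_le_mul_of_nonneg_left h6 hC0.le
    linarith only [h7, hCyU, hU0]
  have hX20 : 20 * (y * U) ≤ X := by rw [XR]; linarith only [c2, hyU, hCR]
  have y3 : y ≤ 1 / 1000 := by linarith only [hy1]
  have vA : ∀ k ≤ 3, v k + 1 ≤ A' := fun k hk => by linarith only [(hvb k hk).2.1, hd00]
  have vK : ∀ k ≤ 3, 2 ≤ K + v k := fun k hk => (hvb k hk).2.2
  have hs1 : (Sl 2 - 1) * (A' - v 1) ≥ 1 := by
    rw [q1]
    have : 1 * 1 ≤ (Sl 2 - 1) * (A' - 1) := mul_le_mul (by linarith only [h2])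
      (by linarith only [hA6]) zero_le_one (by linarith only [h2])
    linarith only [this]
  have hwa : w 1 ≤ ⌊(a : ℝ) * J⌋₊ := by
    rw [hw]
    exact Nat.floor_le_floor (mul_le_mul_of_nonneg_right
      (by rw [q1, one_mul]; exact ra1.le) hJ0)
  have heb : e 1 + Q ≤ ⌊e₂' * J⌋₊ := by
    refine nat_le_of_real ?_
    push_cast
    have h5 := Nat.lt_floor_add_one (e₂' * J)
    have h6 := mul_le_mul_of_nonneg_right R.Ebe.le hJ0
    have h7 := hap.ee 1 (by norm_num)
    have h8 : U ≤ K * U := le_mul_of_one_le_left hU0 (by linarith only [hK, hA6])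
    have h9 : (Eb + 3 * K * q) * J = Eb * J + 3 * (K * U) := by rw [hU]; ring
    rw [h9] at h6
    linarith only [h5, h6, h7, h8, QR, hap.yUs y3, hyU, hCR, hU0]
  have hfin := hA2 E hBA (by
      have : y * q / 2 * J = y * U / 2 := by rw [hU]; ring
      rw [this]
      linarith only [c2, hyU, hCR]) (nat_le_of_real (by linarith only [c2, hyU]))
    (X := X) (t := Q) (i := 0) (k := 1) (x₀ := 2) (jx := fun x => if x = 0 then 2 else 3)
    (by norm_num) (by norm_num) (hap.wm 0 (by norm_num) 1 (by norm_num) (hvb 1 (by norm_num)).1)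
    hwa (by norm_num) (by norm_num)
    (fun l hl => ⟨nat_le_of_real (by
      linarith only [hap.gT0 (k := 1) (by norm_num) hl (vK 1 (by norm_num)) y3
        (vA 1 (by norm_num)), c1, hap.yUs y3, hU0]), nat_le_of_real (by
      linarith only [hap.gc0 (k := 1) (by norm_num) hl.le (vK 1 (by norm_num)) y3
        (vA 1 (by norm_num)), c1, hap.yUs y3, hU0])⟩)
    (nat_le_of_real (by
      linarith only [hap.pp0 (k := 1) (by norm_num) (vK 1 (by norm_num)) y3
        (vA 1 (by norm_num)), c1, hap.yUs y3, hU0]))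
    (nat_le_of_real (by
      linarith only [hap.gc0 (k := 1) (l := 3) (by norm_num) le_rfl (vK 1 (by norm_num)) y3
        (vA 1 (by norm_num)), c1, hap.yUs y3, hU0]))
    (nat_le_of_real (by
      linarith only [hap.gT0 (k := 0) (l := 2) (by norm_num) (by norm_num) (vK 0 (by norm_num))
        y3 (vA 0 (by norm_num)), c1, hap.yUs y3, hU0]))
    (hap.lst (by norm_num) (by norm_num) (by norm_num) rfl QR hs1 y3)
    (hap.lst (by norm_num) (by norm_num) (by norm_num) rfl QR hs1 y3)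
    (le_of_eq hQ.symm)
    (fun l hl => by
      rw [← hQ]
      exact nat_le_of_real (by
        linarith only [hap.g00 (k := 1) (l := l) (by norm_num) (by omega) (vK 1 (by norm_num)) y3,
          QR, hU0]))
    (fun l hl => by
      rw [← hQ]
      exact hap.rm (by norm_num) (by omega) (by rw [q1]; linarith only [hK, hA6]) QR
        (by linarith only [hK, hA6]) y3)
    (by rw [← hQ]; exact heb)
    (hap.thr hX20 (by norm_num) (by norm_num) q1 hwa (by
      have := rn 0 (by norm_num) J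
      rw [← hU] at this
      exact this))
    (hap.thr hX20 (by norm_num) (by norm_num) q1 hwa (by
      have := rn 2 (by norm_num) J
      rw [← hU] at this
      exact this))
    (fun x hx _ => by
      rw [← hQ]
      have : x = 0 ∨ x = 1 := by omega
      rcases this with rfl | rfl
      · simp only [if_true]
        refine ⟨hap.ZN hX20 (by norm_num) rfl (by norm_num) (by norm_num)
          (hvb 2 (by norm_num)).1 (vK 2 (by norm_num)) y3 (vA 2 (by norm_num)),
          hap.wt2 QR (by norm_num) (by norm_num) (by norm_num) (by norm_num) ?_ y3⟩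
        rw [q1, q2, h0]
        linarith only [e0]
      · simp only [one_ne_zero, if_false]
        refine ⟨hap.ZN hX20 (by norm_num) rfl (by norm_num) (by norm_num)
          (hvb 3 (by norm_num)).1 (vK 3 (by norm_num)) y3 (vA 3 (by norm_num)),
          hap.wt2 QR (by norm_num) (by norm_num) (by norm_num) (by norm_num) ?_ y3⟩
        rw [q1, q3]
        linarith only [e1])
    (fun _ => by
      simp only [if_true]
      exact hap.brel hX20 (by norm_num) (by norm_num) (by norm_num)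
        (by rw [q1, q2]; linarith only [hd00]) h0 rfl)
  have hfin' : Pe F.p B < 1 / K₁ * Pe F.p A₀ := by
    refine lt_of_le_of_lt (Pe_mono F.isLaw fun ω hω => ⟨hω, fun h5 => absurd h5 (by norm_num)⟩) hfin
  have h6 : 1 / K₁ * Pe F.p A₀ ≤ Pe F.p B := by
    rw [div_mul_eq_mul_div, one_mul, div_le_iff₀ hK₁]
    linarith only [hBP]
  linarith only [hfin', h6]

end Pool.TN
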