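import Pool.Agent.H95.R136.Ap2
import Pool.Agent.H23.D2.Tho

/-!
# The numbers of a thin coordinate one of the list

`ApN.ng1`: the numbers of `thin_end` at the place one, from `ApN`.
-/

set_option autoImplicit false

namespace Pool.TN

variable {N J A cl : ℕ} {Sc : ℕ → Prop} {w e pp : ℕ → ℕ} {g gc gT g₀ : ℕ → ℕ → ℕ}
    {U y τ Ee K A' : ℝ} {v Sl Λ : ℕ → ℝ}

/-- **The numbers of the end** at the place one: the ball `k` at the position one. -/
theorem ApN.ng1 {r : ℕ} (hr : 1 ≤ r)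
    (h : ApN r N J A cl Sc w e pp g gc gT g₀ U y τ Ee K A' v Sl Λ) {Q : ℕ}
    (hQ : (Q : ℝ) ≤ U / 100) (hQs : 10 * (Q : ℝ) ≤ (Sl 1 - 1) * U)
    (hys : 100 * (y * U) ≤ (Sl 1 - 1) * U) (hy : y ≤ 1 / 1000) {t k : ℕ} (hk : k ≤ N)
    (vk : v k = 1) (hKv : 2 ≤ K) {a w' eb b eL : ℕ} {Ee' : ℝ} (ha : w k ≤ a) (hw : w t ≤ w')
    (he : (eL : ℝ) ≤ Ee' + U) (heb : Ee' + 3 * (K * U) ≤ eb + 1)
    (hroom : ∀ l ≤ 1, Λ l + Ee' + 3 * (K * U) ≤ J) (hSK : ∀ l ≤ 1, Sl l ≤ K)
    (hb : (b : ℝ) ≤ Λ 1 + U + 5 * (y * U)) :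
    NumG 1 J (w t) (w k) a w' eb b eL (2 * Q) Q (g₀ k) := by
  have hU := h.U0
  have hyU := h.yUs hy
  have yU1 := h.yU
  have hKU : 2 * U ≤ K * U := mul_le_mul_of_nonneg_right hKv hU.le
  have gk1 := h.ga k hk 1 hr
  rw [vk, mul_one] at gk1
  have hx : ∀ l ≤ 1, Sl l * v k * U ≤ K * U := fun l hl => by
    rw [vk, mul_one]
    exact mul_le_mul_of_nonneg_right (hSK l hl) hU.le
  exact
    { K1 := ha
      t1 := hw
      n1 := nat_le_of_real (by
        push_cast
        linarith only [he, heb, hKU, hQ, hyU, yU1, hU])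
      n2 := fun l hl => nat_le_of_real (by
        push_cast
        linarith only [he, hroom l hl, hx l hl, (h.ga k hk l (hl.trans hr)).2, hKU, hQ, hyU, yU1,
          hU])
      n4 := fun l hl => nat_le_of_real (by
        linarith only [h.g00 hk (hl.le.trans hr) (by rw [vk]; linarith only [hKv]) hy, hQ, hU])
      n5 := nat_le_of_real (by
        push_cast
        linarith only [h.g00 hk hr (by rw [vk]; linarith only [hKv]) hy, hQ, hU])
      n6 := nat_le_of_real (by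
        push_cast
        have h2 : (w k : ℝ) ≤ a := by exact_mod_cast ha
        linarith only [gk1, h2, hb, hQs, hys, yU1, hyU, hU]) }

end Pool.TN
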