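import Pool.Agent.H95.R136.Stc
import Pool.Agent.H23.D2.Thq

/-!
# A static place two over a thin place one, slope `Sl 2 = 1 + Sl 1`

`sta_critL`: the event of the cell is small, if the gradients of the place one are bounded below the
exponent of a second threshold structure.
-/

set_option autoImplicit false

namespace Pool.TNW

open Finset Real MvPolynomial
open Pool.Agent.H49.Ent Pool.Agent.H32.Dense Pool.STK Pool.KA Pool.KSAT Pool.K2S Pool.PB Pool.S6C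
open Pool.GEN Pool.CHT Pool.CHX Pool.ISO Pool.D2R Pool.D2Z Pool.D2F Pool.TN
open Pool.LBT (ThrOf)
open Pool.FLF (Fam.sub)
open Pool.PB.Trl (rt rt_mem t_rt)

/-- **The end of a static place two** over a thin place one at the slope `1 + Sl 1`. -/
theorem sta_critL (m D : ℕ) (hD : 1 ≤ D) : ∃ C : ℕ, 1 ≤ C ∧
    ∀ {θ θ' : ℝ} {S : PCl m} {P P' : List (Fin m) × Fin m → ℝ → ℝ → ℝ}
    (_ : ThrOf (chsys m θ) S P) (_ : ThrOf (chsys m θ') S P')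
    (_ : TmH S) (c : ℕ → Fin m) (_ : Set.InjOn c (Set.Iio (3 + 1))) (a : ℚ)
    (e₁ h₁ b ε κ₀ : ℝ) (_ : 0 ≤ a) (_ : a < 1) (_ : e₁ < θ * a) (_ : 0 < h₁)
    (_ : bet P c 0 a a + h₁ ≤ 1) (_ : bet P c 2 a a + h₁ ≤ 1) (_ : b < 1) (_ : 0 < ε)
    (_ : 0 < κ₀) (a₂ w₂ : ℚ) (eb₂ h₂ : ℝ) (_ : 0 ≤ w₂) (_ : w₂ ≤ a₂) (_ : a₂ ≤ 1)
    (_ : eb₂ < θ' * w₂) (_ : 0 < h₂) (_ : bet P' c 1 a₂ w₂ + h₂ ≤ 1),
    Bas S (fun J F A₀ => ∀ {Dr N M A cl X Q f i t k j eL : ℕ} {Sc : ℕ → Prop}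
      {w e h pp : ℕ → ℕ} {z g gc gT g₀ : ℕ → ℕ → ℕ} {κ : ℝ} {B : F.Ω → Prop}
      {G : ℕ → PtT F → ℕ → MvPolynomial (Option (Fin m)) ℝ}
      {H : ℕ → LnT F → ℕ → MvPolynomial (Option (Fin m)) ℝ}
      {T : ℕ → PtT F → ℕ → MvPolynomial (Option (Fin m)) ℝ}
      {TH : ℕ → LnT F → ℕ → MvPolynomial (Option (Fin m)) ℝ}
      {Gt : ℕ → PtT F → MvPolynomial (Option (Fin m)) ℝ}
      {Ht : ℕ → LnT F → MvPolynomial (Option (Fin m)) ℝ},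
      CEv F c 3 D Dr N M A cl Sc w e h pp z g gc gT g₀ κ B G H T TH Gt Ht → Sub B A₀ →
      ε * J ≤ cl → C ≤ cl → C * (cl + X + 1) ≤ Q → ¬ Sc 0 → ¬ Sc 1 → Sc 2 →
      w k ≤ ⌊(a : ℝ) * J⌋₊ → (w k : ℝ) ≤ b * J →
      (A - w k) + g₀ k 2 + Q ≤ gT i 2 → (A - w k) + g₀ k 2 + Q ≤ gT k 2 →
      (∀ l < 2, Q ≤ g₀ k l) → (∀ l ≤ 2, e k + g₀ k l + Q ≤ J) → e k + Q ≤ ⌊e₁ * J⌋₊ →
      ⌊(bet P c 0 a a + h₁) * J⌋₊ + w k ≤ g₀ k 0 + X + ⌊(a : ℝ) * J⌋₊ →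
      ⌊(bet P c 2 a a + h₁) * J⌋₊ + w k ≤ g₀ k 2 + X + ⌊(a : ℝ) * J⌋₊ →
      ZNum 3 N A cl X w pp gc gT g₀ 2 i j →
      w j + g₀ j 0 + g₀ k 2 + Q + Q ≤ w k + g₀ k 0 + g₀ j 2 → BRel M X w z g₀ j k →
      SNum N A cl X f (2 * Q) Q w pp gc gT g₀ i t k →
      (∀ ω, B ω → ∀ l ≤ 1, ∀ j < l, |gG G ω k l (some (c j))| ≤ 2 ^ (eL + nlp (g₀ k) j l)) →
      NumG 1 J (w t) (w k) ⌊(a₂ : ℝ) * J⌋₊ ⌊(w₂ : ℝ) * J⌋₊ ⌊eb₂ * J⌋₊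
        ⌊(bet P' c 1 a₂ w₂ + h₂) * J⌋₊ eL (2 * Q) Q (g₀ k) →
      Pe F.p B < κ₀ * Pe F.p A₀) := by
  classical
  obtain ⟨C₁, hC₁, hcl⟩ := sta_cl m D hD
  obtain ⟨C₂, hC₂, hend⟩ := thin_endL m D (4 * D) 3 1 hD (by norm_num) (Or.inl rfl)
  obtain ⟨C, hC⟩ : ∃ C, C = C₂ * (C₁ + 2) + C₁ := ⟨_, rfl⟩
  have hC2 : C₂ ≤ C₂ * (C₁ + 2) := Nat.le_mul_of_pos_right C₂ (by omega)
  refine ⟨C, by omega, ?_⟩
  intro θ θ' S P P' hP hP' hT c hc a e₁ h₁ b ε κ₀ ha0 ha he hh hb0 hb2 hb hε hκ a₂ w₂ eb₂ h₂ hw20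
    hwa2 ha2 he2 hh2 hbt2
  refine Bas.mono 0 ((hcl hP hT c hc a e₁ h₁ b ε κ₀ ha0 ha he hh hb0 hb2 hb hε hκ).and
    (hend hP' hT c hc a₂ w₂ b eb₂ h₂ ε (κ₀ / 4) hw20 hwa2 ha2 hb he2 hh2 hbt2 hε
    (by positivity))) ?_
  rintro J - F A₀ ⟨hA, hA'⟩
  intro Dr N M A cl X Q f i t k j eL Sc w e h pp z g gc gT g₀ κ B G H T TH Gt Ht E hBA hεc hCc hQ
    hs0 hs1 hs2 hwa hKb n1 n2 hg₀ hroom hef f0 f2 hZ hwt hR nn hlip nu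
  have hX : C₂ * (cl + C₁ * (cl + X + 1) + 1) + C₁ * (cl + X + 1) ≤ C * (cl + X + 1) := by
    have e1 : C * (cl + X + 1) = C₂ * ((C₁ + 2) * (cl + X + 1)) + C₁ * (cl + X + 1) := by
      rw [hC]; ring
    rw [e1]
    refine Nat.add_le_add_right (Nat.mul_le_mul_left C₂ ?_) _
    nlinarith
  by_contra hcon
  rw [not_lt] at hcon
  obtain ⟨B', b1, b2, b3⟩ := hA E hBA hεc (by omega) (by omega) hs0 hs1 hs2 hwa hKb n1 n2 hg₀ hroom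
    hef f0 f2 hZ hwt hR nn hcon
  have hE2 := E.sb (B' := B') (κ₁ := 1 / 4) (κ₂ := 4 * max κ 0) b1 (by linarith) (by positivity)
    (by
      have := le_max_left κ 0
      linarith)
  have hfin := hA' hE2 (fun ω hω => hBA ω (b1 ω hω)) hεc (by omega) (i₀ := i) (t := t)
    (k := k) (X := C₁ * (cl + X + 1)) (dd := 2 * Q) (eL := eL)
    (lam := lamC c (w t) (Xcf w TH Sc i t)) nn.tN nn.kN
    nn.tk nn.pk nn.ck hs0 (fun ω hω => hlip ω (b1 ω hω)) (fun h => absurd h (by norm_num))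
    (fun s j => lamC_deg c (w t) (fun s l => by
      unfold Xcf
      split_ifs
      · exact deg_TH E nn.iN _ l
      · exact deg_TH E nn.tN _ l) s j)
    (fun ω hω V hV => b3 ω hω V hV) hKb
    { K1 := nu.K1
      t1 := nu.t1
      n1 := by have := nu.n1; omega
      n2 := fun l hl => by have := nu.n2 l hl; omega
      n4 := fun l hl => le_trans (by omega) (nu.n4 l hl)
      n5 := by have := nu.n5; omega
      n6 := by have := nu.n6; omega }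
  linarith

end Pool.TNW
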