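import Pool.Agent.H66.D2.Apn
import Pool.Agent.H95.R136.Nts

/-!
# The cell `[one, thin, sta]` away from the critical slope

`cellQ_ts`: the class theorem `CellQ` of the target over one coordinate of slope one, a thin
coordinate and a static coordinate of slope two, if the slope of the target is not the slope of the
thin one plus one.
-/

set_option autoImplicit false

namespace Pool.TN

open Finset Real MvPolynomial
open Pool.Agent.H49.Ent Pool.Agent.H32.Dense Pool.STK Pool.KA Pool.KSAT Pool.K2S Pool.PB Pool.S6C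
open Pool.GEN Pool.CHT Pool.CHX Pool.ISO Pool.D2R Pool.D2Z Pool.D2F Pool.AFT Pool.PKG
open Pool.LBT (ThrOf)

/-- The windows of the cell. -/
def vts (v0 v1 va : ℝ) (k : ℕ) : ℝ :=
  if k = 0 then v0 else if k = 1 then v1 else if k = 2 then 0 else if k = 3 then 1 else va

theorem fl_leT {x B : ℝ} (h : x ≤ B) (hB : 0 ≤ B) : (⌊x⌋₊ : ℝ) ≤ B := by
  rcases le_total 0 x with h1 | h1
  · exact (Nat.floor_le h1).trans h
  · rw [Nat.floor_of_nonpos h1]
    simpa using hB

/-- **The windows** of the cell. -/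
theorem ts_par {s b : ℝ} (hs : 1 < s) (hb : 2 < b) (hne : b ≠ 1 + s) :
    ∃ (A' K : ℝ) (v : ℕ → ℝ), v 2 = 0 ∧ v 3 = 1 ∧ (v 4 ≤ 0 ∨ 2 ≤ v 4) ∧ 6 ≤ A' ∧
      K = -v 0 + A' + s + 3 ∧ (∀ k ≤ 4, v 0 ≤ v k ∧ v k + 4 ≤ A') ∧
      (1 + s - b) * v 4 + b + 1 ≤ 2 ∧ (b - 1) * v 4 - (b - 2) * v 1 + 1 ≤ A' ∧
      (b - 1) - (b - 2) * v 1 + 1 ≤ A' ∧ v 1 ≤ 0 ∧ v 1 ≤ v 4 ∧ v 0 ≤ -A' ∧
      A' ≤ (s - 1) * (-v 0) ∧ (b - 1) * (1 - v 4) + 1 ≤ (s - 1) * (-v 0) ∧
      (A' - v 1) + 2 * (b - 1) * (1 - v 1) + 2 ≤ 3 * K := by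
  obtain ⟨dd, hdd⟩ : ∃ dd, dd = 1 + s - b := ⟨_, rfl⟩
  have hdd0 : dd ≠ 0 := by
    rw [hdd]
    intro h
    exact hne (by linarith only [h])
  obtain ⟨va, hva1, hva2⟩ : ∃ va : ℝ, dd * va ≤ -(b - 1) ∧ (va ≤ 0 ∨ 2 ≤ va) := by
    rcases lt_or_gt_of_ne hdd0 with h1 | h1
    · have h2 : 0 < -dd := by linarith only [h1]
      refine ⟨(b - 1) / (-dd) + 1, ?_, Or.inr ?_⟩
      · have h3 : dd * ((b - 1) / (-dd) + 1) = -(b - 1) + dd := by
          field_simp
        linarith only [h3, h1]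
      · have h3 : 1 ≤ (b - 1) / (-dd) := by
          rw [le_div_iff₀ h2]
          linarith only [hdd, hs]
        linarith only [h3]
    · refine ⟨-(b - 1) / dd, ?_, Or.inl ?_⟩
      · have h3 : dd * (-(b - 1) / dd) = -(b - 1) := by field_simp
        linarith only [h3]
      · exact div_nonpos_of_nonpos_of_nonneg (by linarith only [hb]) h1.le
  obtain ⟨v1, hv1⟩ : ∃ v1, v1 = min 0 va := ⟨_, rfl⟩
  have v1a : v1 ≤ 0 := by rw [hv1]; exact min_le_left _ _
  have v1b : v1 ≤ va := by rw [hv1]; exact min_le_right _ _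
  have hab := le_abs_self va
  have hab0 := abs_nonneg va
  have hab1 := neg_abs_le va
  have v1c : -|va| ≤ v1 := by
    rw [hv1]
    exact le_min (by linarith only [hab0]) hab1
  obtain ⟨A', hA'⟩ : ∃ A', A' = 2 * b * (|va| + 1) + 2 := ⟨_, rfl⟩
  have pb1 : 0 ≤ (b - 2) * (v1 + |va|) := mul_nonneg (by linarith only [hb])
    (by linarith only [v1c])
  have pb2 : 0 ≤ (b - 1) * (|va| - va) := mul_nonneg (by linarith only [hb])
    (by linarith only [hab])
  have pb3 : 0 ≤ (b - 2) * |va| := mul_nonneg (by linarith only [hb]) hab0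
  have pb4 : 0 ≤ (b - 1) * (v1 + |va|) := mul_nonneg (by linarith only [hb])
    (by linarith only [v1c])
  have pb5 : 0 ≤ (b - 1) * (va + |va|) := mul_nonneg (by linarith only [hb])
    (by linarith only [hab1])
  have eA : A' = 2 * (b * |va|) + 2 * b + 2 := by rw [hA']; ring
  have F43 : 6 ≤ A' := by linarith only [eA, pb3, hab0, hb]
  have hs1 : 0 < s - 1 := by linarith only [hs]
  obtain ⟨B0, hB0⟩ : ∃ B0, B0 = A' + A' / (s - 1) := ⟨_, rfl⟩
  have hq0 : 0 ≤ A' / (s - 1) := div_nonneg (by linarith only [F43]) hs1.le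
  have hB1 : A' ≤ B0 := by linarith only [hB0, hq0]
  have hB2 : A' ≤ (s - 1) * B0 := by
    have h1 : (s - 1) * (A' / (s - 1)) = A' := by field_simp
    have h2 : 0 ≤ (s - 1) * A' := mul_nonneg hs1.le (by linarith only [F43])
    rw [hB0, mul_add, h1]
    linarith only [h2]
  have q0 : vts (-B0) v1 va 0 = -B0 := rfl
  have q1 : vts (-B0) v1 va 1 = v1 := rfl
  have q2 : vts (-B0) v1 va 2 = 0 := rfl
  have q3 : vts (-B0) v1 va 3 = 1 := rfl
  have q4 : vts (-B0) v1 va 4 = va := rfl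
  refine ⟨A', B0 + A' + s + 3, vts (-B0) v1 va, q2, q3, ?_, F43, ?_, ?_, ?_, ?_, ?_, ?_, ?_, ?_,
    ?_, ?_, ?_⟩
  · rw [q4]; exact hva2
  · rw [q0]; ring
  · intro k hk
    have : k = 0 ∨ k = 1 ∨ k = 2 ∨ k = 3 ∨ k = 4 := by omega
    have hb3 : |va| + 4 ≤ A' := by linarith only [eA, pb3, hab0, hb]
    rcases this with rfl | rfl | rfl | rfl | rfl
    · rw [q0]
      exact ⟨le_rfl, by linarith only [hB1, F43]⟩
    · rw [q0, q1]
      exact ⟨by linarith only [v1c, hb3, hB1], by linarith only [v1a, F43]⟩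
    · rw [q0, q2]
      exact ⟨by linarith only [F43, hB1], by linarith only [F43]⟩
    · rw [q0, q3]
      exact ⟨by linarith only [F43, hB1], by linarith only [F43]⟩
    · rw [q0, q4]
      exact ⟨by linarith only [hab1, hb3, hB1], by linarith only [hab, hb3]⟩
  · rw [q4, ← hdd]
    linarith only [hva1]
  · rw [q4, q1]
    linarith only [pb1, pb2, pb3, eA, hb, hab0]
  · rw [q1]
    linarith only [pb1, pb3, eA, hb, hab0]
  · rw [q1]; exact v1a
  · rw [q1, q4]; exact v1b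
  · rw [q0]
    linarith only [hB1]
  · rw [q0, neg_neg]
    exact hB2
  · rw [q0, neg_neg, q4]
    have : (b - 1) * (1 - va) + 1 ≤ A' := by linarith only [pb5, eA, hb, pb3, hab0]
    exact this.trans hB2
  · rw [q1]
    linarith only [pb4, eA, hb, pb3, hab0, v1c, hB1, hs]

/-- **The class theorem of the cell** `[one, thin, sta]`, static slope two, away from the critical
slope. -/
theorem cellQ_ts {n : ℕ} {Sl : ℕ → ℝ} {κ : ℕ → Kd} (k0 : κ 0 = .one) (k1 : κ 1 = .thin)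
    (k2 : κ 2 = .sta) (h0 : Sl 0 = 1) (h1 : 1 < Sl 1) (h2 : Sl 2 = 2) (h3 : 2 < Sl 3)
    (hne : Sl 3 ≠ 1 + Sl 1) : CellQ n 3 Sl κ := by
  intro del hdel S₀ hS₀
  obtain ⟨s, hs⟩ : ∃ s, s = Sl 1 := ⟨_, rfl⟩
  obtain ⟨b, hb⟩ : ∃ b, b = Sl 3 := ⟨_, rfl⟩
  rw [← hs] at h1 hne
  rw [← hb] at h3 hne
  obtain ⟨A', K, v, e2, e3, hva, F43, hK, hvb, F1, F2, F3, F41, F42, F51, F53, F54, F61⟩ :=
    ts_par h1 h3 hne
  obtain ⟨B0, hB0⟩ : ∃ B0, B0 = -v 0 := ⟨_, rfl⟩
  rw [← hB0] at hK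
  have hB1 : A' ≤ B0 := by linarith only [F51, hB0]
  have hKB : B0 + 3 ≤ K := by linarith only [hK, F43, h1]
  have hKA : A' + 3 ≤ K := by linarith only [hK, F43, h1, hB1]
  have hvb' : ∀ k ≤ 4, -B0 ≤ v k ∧ v k + 4 ≤ A' := fun k hk =>
    ⟨by linarith only [(hvb k hk).1, hB0], (hvb k hk).2⟩
  obtain ⟨Al, hAl⟩ : ∃ Al : ℕ → ℝ, Al = fun k => if k = 5 then 1 else A' := ⟨_, rfl⟩
  obtain ⟨Vl, hVl⟩ : ∃ Vl : ℕ → ℝ, Vl = fun k => if k = 5 then 0 else v k := ⟨_, rfl⟩
  have Al5 : Al 5 = 1 := by rw [hAl]; simp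
  have Vl5 : Vl 5 = 0 := by rw [hVl]; simp
  have Alk : ∀ k ≤ 4, Al k = A' := fun k hk => by
    rw [hAl]
    simp only [show k ≠ 5 by omega, if_false]
  have Vlk : ∀ k ≤ 4, Vl k = v k := fun k hk => by
    rw [hVl]
    simp only [show k ≠ 5 by omega, if_false]
  refine ⟨K, 6, Al, Vl, by linarith only [hKA, F43], fun k hk => ?_, fun S₂ hS₂ => ?_⟩
  · rcases Nat.lt_or_ge k 5 with h5 | h5
    · rw [Alk k (by omega), Vlk k (by omega)]
      have h6 := hvb' k (by omega)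
      exact ⟨by linarith only [h6.1, hKB], by linarith only [h6.2], by linarith only [hKA]⟩
    · have h6 : k = 5 := by omega
      subst h6
      rw [Al5, Vl5]
      exact ⟨by linarith only [hKA, F43], by norm_num, by linarith only [hKA, F43]⟩
  obtain ⟨D, hD, hcev⟩ := RecQ.cev n 3 S₂ (by norm_num) le_rfl (hS₀.trans hS₂)
  obtain ⟨C, hC, hend⟩ := ts_end n D 3 hD le_rfl
  have hCR : (1 : ℝ) ≤ C := by exact_mod_cast hC
  have hC0 : (0 : ℝ) < C := by linarith only [hCR]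
  obtain ⟨y, hy⟩ : ∃ y : ℝ, y = min 1 del / (6000 * C ^ 2) := ⟨_, rfl⟩
  have hm1 : min 1 del ≤ 1 := min_le_left _ _
  have hm2 : min 1 del ≤ del := min_le_right _ _
  have hm0 : 0 < min 1 del := lt_min one_pos hdel
  have hy0 : 0 < y := by rw [hy]; positivity
  have hyC : 6000 * C ^ 2 * y = min 1 del := by rw [hy]; field_simp
  have hCC : (1 : ℝ) ≤ C ^ 2 := one_le_pow₀ hCR
  have hyy : y ≤ C ^ 2 * y := le_mul_of_one_le_left hy0.le hCC
  have hCy : C * y ≤ C ^ 2 * y := by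
    refine mul_le_mul_of_nonneg_right ?_ hy0.le
    rw [pow_two]
    exact le_mul_of_one_le_left hC0.le hCR
  have hy1 : y ≤ 1 / 6000 := by linarith only [hyC, hyy, hm1]
  obtain ⟨n₀, s', ε₀, hn₀, hs', hns, hε₀, hcev⟩ := hcev D le_rfl Sl y 1 hy0
    (by linarith only [hy1]) one_pos
    (fun l hl1 hl2 _ => by
      have : l = 1 ∨ l = 2 := by omega
      rcases this with rfl | rfl
      · rw [← hs]; exact h1
      · rw [h2]; norm_num)
    (fun _ => by
      rw [h0, h2, ← hs]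
      exact ⟨h1, by norm_num⟩)
  obtain ⟨V', hV'⟩ : ∃ V' : ℕ → ℝ, V' = fun j => v (j / n₀) + ((j % n₀ : ℕ) + 1) * s' := ⟨_, rfl⟩
  refine ⟨5 * n₀, V', fun j hj => ?_, min ε₀ (y / 4), lt_min hε₀ (by positivity), ?_⟩
  · have h5 : j / n₀ ≤ 4 := by
      have : j / n₀ < 5 := Nat.div_lt_of_lt_mul (by omega)
      omega
    have h6 : ((j % n₀ : ℕ) : ℝ) + 1 ≤ n₀ + 1 := by
      have : j % n₀ < n₀ := Nat.mod_lt _ (by omega)
      have : ((j % n₀ : ℕ) : ℝ) ≤ n₀ := by exact_mod_cast this.le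
      linarith only [this]
    have h7 := mul_le_mul_of_nonneg_right h6 hs'.le
    have h8 := hvb' _ h5
    have h9 : 0 ≤ ((j % n₀ : ℕ) + 1 : ℝ) * s' := by positivity
    rw [hV']
    beta_reduce
    exact ⟨by linarith only [h8.1, h9, hKB], by linarith only [h8.2, h7, hns, hKA]⟩
  intro S P P₂ θ θ₂ c Pt L T Eb e₂' q t R
  by_contra hcon
  rw [not_le] at hcon
  have hq := R.q0
  have hεe : min ε₀ (y / 4) ≤ ε₀ := min_le_left _ _
  have hεy : min ε₀ (y / 4) ≤ y / 4 := min_le_right _ _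
  have hε0 : 0 < min ε₀ (y / 4) := lt_min hε₀ (by positivity)
  have hyq : 0 < y * q := mul_pos hy0 hq
  -- the rational points
  obtain ⟨dr, hdr, hrat⟩ := R.rat 5 (by norm_num) (y * q) hyq
  rw [Al5, Vl5, one_mul, zero_mul, add_zero] at hrat
  have eKq : K * q = B0 * q + A' * q + s * q + 3 * q := by rw [hK]; ring
  have hAq : 6 * q ≤ A' * q := mul_le_mul_of_nonneg_right F43 hq.le
  have hBq : A' * q ≤ B0 * q := mul_le_mul_of_nonneg_right hB1 hq.le
  have hsq : q ≤ s * q := by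
    have := mul_le_mul_of_nonneg_right h1.le hq.le
    linarith only [this]
  have mdr : 0 < min dr q := lt_min hdr hq
  obtain ⟨w', hw1, hw2⟩ := exists_rat_btwn (show t < t + min dr q by linarith only [mdr])
  obtain ⟨a, ha1, ha2⟩ := exists_rat_btwn (show t + q < t + q + min dr q by
    linarith only [mdr])
  have m1 := min_le_left dr q
  have m2 := min_le_right dr q
  have ht0 := R.t0
  have ht1 := R.t1
  obtain ⟨r1, r2, r3⟩ := hrat a w' ha1.le (by linarith only [ha2, m1]) hw1.le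
    (by linarith only [hw2, m1]) (by linarith only [hw2, ha1, m2])
  have bx : ∀ x : ℝ, t ≤ x → x ≤ t + 2 * q → |x - t| ≤ K * q := fun x h4 h5 => by
    rw [abs_le]
    exact ⟨by linarith only [h4, eKq, hAq, hBq, hsq, hq],
      by linarith only [h5, eKq, hAq, hBq, hsq, hq]⟩
  have L1 : ∀ l ≤ 3, L l (t + q) (t + q) ≤ L l t t + Sl l * q + y / 4 * q ∧
      L l t t + Sl l * q - y / 4 * q ≤ L l (t + q) (t + q) := fun l hl => by
    have h4 := abs_le.1 (R.dL l hl (t + q) (bx _ (by linarith only [hq])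
      (by linarith only [hq])))
    have h5 := mul_le_mul_of_nonneg_right hεy hq.le
    rw [add_sub_cancel_left] at h4
    exact ⟨by linarith only [h4.2, h5], by linarith only [h4.1, h5]⟩
  have room1 : ∀ l ≤ 3, L l (t + q) (t + q) + Eb + 3 * K * q < 1 := fun l hl =>
    R.room l hl _ (bx _ (by linarith only [hq]) (by linarith only [hq]))
  have hEb := R.Eb0
  have hEbe := R.Ebe
  have hyq1 : y * q ≤ q / 6000 := by
    have := mul_le_mul_of_nonneg_right hy1 hq.le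
    linarith only [this]
  have e3K : 3 * K * q = 3 * (K * q) := by ring
  have hdq := mul_pos hdel hq
  have hL3 : L 3 (t + q) t ≤ L 3 (t + q) (t + q) := by linarith only [hdq, hcon]
  have hKq0 : 6 * q ≤ K * q := by linarith only [eKq, hAq, hBq, hsq, hq]
  have hb0 : bet P₂ c 0 a a + y * q ≤ 1 := by
    linarith only [room1 0 (by norm_num), r3 0 (by norm_num), e3K, hKq0, hyq1, hEb, hq]
  have hb2 : bet P₂ c 2 a a + y * q ≤ 1 := by
    linarith only [room1 2 (by norm_num), r3 2 (by norm_num), e3K, hKq0, hyq1, hEb, hq]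
  have hb3 : bet P₂ c 3 a w' + y * q ≤ 1 := by
    linarith only [room1 3 le_rfl, r1, hL3, e3K, hKq0, hyq1, hEb, hq]
  have haa : (a : ℝ) < 1 := by linarith only [ha2, m2, ht1, hKq0, hq]
  have ha0' : (0 : ℝ) ≤ a := by linarith only [ha1, ht0, hKq0, hq]
  have hw0' : (0 : ℝ) ≤ w' := by linarith only [hw1, ht0, hKq0, hq]
  have hwa' : (w' : ℝ) ≤ a := by linarith only [hw2, ha1, m2]
  -- the event
  obtain ⟨K₁, hK₁, hcev⟩ := hcev R hS₂ hε0.le hεe (by linarith only [hKA, F43]) A' (1 / 2) 4 0 v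
    (fun l => l = 2) (by linarith only [hKA]) (by norm_num) (fun k hk =>
      ⟨by linarith only [(hvb' k hk).1, hKB], by linarith only [(hvb' k hk).2]⟩)
    (fun k hk => ⟨k, by omega, Alk k hk, Vlk k hk⟩)
    (fun k hk j hj1 hj2 => ⟨k * n₀ + (j - 1), by
      have h5 : k * n₀ ≤ 4 * n₀ := Nat.mul_le_mul_right _ hk
      omega, by
      have h5 : (k * n₀ + (j - 1)) / n₀ = k := by
        rw [mul_comm, Nat.mul_add_div (by omega), Nat.div_eq_of_lt (by omega), add_zero]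
      have h6 : (k * n₀ + (j - 1)) % n₀ = j - 1 := by
        rw [mul_comm, Nat.mul_add_mod, Nat.mod_eq_of_lt (by omega)]
      rw [hV']
      beta_reduce
      rw [h5, h6]
      have h7 : ((j - 1 : ℕ) : ℝ) + 1 = j := by
        have : ((j - 1 + 1 : ℕ) : ℝ) = j := by rw [Nat.sub_add_cancel hj1]
        push_cast at this
        exact this
      rw [h7]⟩) (fun l hl hsc => by
      have : l = 0 ∨ l = 1 := by omega
      rcases this with rfl | rfl
      · exact Or.inl k0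
      · exact Or.inr k1)
  have hV1 := hcev 1 one_pos
  have hV2 := hend R.thr₂ R.tmh c R.inj a e₂' (y * q) (by exact_mod_cast ha0')
    (by exact_mod_cast haa) (R.e₂θ a (bx _ (by linarith only [ha1, hq])
      (by linarith only [ha2, m2]))) hyq hb0 hb2 a w'
    (t + K * q) e₂' (y * q) (y * q / 2) (1 / K₁) (by exact_mod_cast hw0')
    (by exact_mod_cast hwa') (by
      have : (a : ℝ) ≤ 1 := haa.le
      exact_mod_cast this) ht1 (R.e₂θ w' (bx _ hw1.le (by linarith only [hw2, m2, hq]))) hyq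
    hb3 (by positivity) (by positivity)
  have hpos : Bas S (fun _ F A => 0 < Pe F.p A) := ⟨1, one_pos, 0, fun J _ F A hA =>
    R.tmh.1 1 J F A hA⟩
  obtain ⟨J₁, hJ₁⟩ := exists_nat_ge (((C : ℝ) + 2) / (y * q))
  refine Pool.LBT.bas_false R.ne (Φ := fun _ _ _ => True) ⟨1, one_pos, 0, fun _ _ _ _ _ =>
    trivial⟩ (Bas.mono J₁ ((hV1.and hV2).and hpos) ?_)
  rintro J hJ F A₀ ⟨⟨hA1, hA2⟩, hA0⟩ -
  have hJR : (J₁ : ℝ) ≤ J := by exact_mod_cast hJ
  have hyU : (C : ℝ) + 2 ≤ y * (q * J) := by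
    have h4 := hJ₁.trans hJR
    rw [div_le_iff₀ hyq] at h4
    linarith only [h4]
  have hJ0 : (0 : ℝ) ≤ J := Nat.cast_nonneg J
  obtain ⟨U, hU⟩ : ∃ U : ℝ, U = q * J := ⟨_, rfl⟩
  rw [← hU] at hyU
  have hU0 : 0 ≤ U := by rw [hU]; positivity
  have hyUs : y * U ≤ U / 6000 := by
    have := mul_le_mul_of_nonneg_right hy1 hU0
    linarith only [this]
  -- the windows
  obtain ⟨w, hw⟩ : ∃ w : ℕ → ℕ, w = fun k => ⌊(t + v k * q) * J⌋₊ := ⟨_, rfl⟩
  obtain ⟨A, hA⟩ : ∃ A : ℕ, A = ⌊(t + A' * q) * J⌋₊ := ⟨_, rfl⟩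
  have hvq : ∀ k ≤ 4, -(B0 * q) ≤ v k * q ∧ v k * q + 4 * q ≤ A' * q := fun k hk => by
    have h5 := hvb' k hk
    have h6 := mul_le_mul_of_nonneg_right h5.1 hq.le
    have h7 := mul_le_mul_of_nonneg_right h5.2 hq.le
    exact ⟨by linarith only [h6], by linarith only [h7]⟩
  have wR : ∀ k ≤ 4, t * J + v k * U - 1 ≤ w k ∧ (w k : ℝ) ≤ t * J + v k * U := fun k hk => by
    have h5 : 0 ≤ (t + v k * q) * J := mul_nonneg
      (by linarith only [(hvq k hk).1, ht0, eKq, hAq, hsq, hq]) hJ0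
    have h6 := Nat.floor_le h5
    have h7 := Nat.lt_floor_add_one ((t + v k * q) * J)
    have h8 : (t + v k * q) * J = t * J + v k * U := by rw [hU]; ring
    rw [hw]
    beta_reduce
    rw [h8] at h6 h7 ⊢
    exact ⟨by linarith only [h7], h6⟩
  obtain ⟨zz, hz20, hz4, hzz⟩ : ∃ zz : ℕ → ℕ → ℕ, zz 2 0 = w 3 - w 2 ∧
      ((v 4 ≤ 1 ∧ zz 4 0 = w 3 - w 4) ∨ (1 ≤ v 4 ∧ zz 3 0 = w 4 - w 3)) ∧
      ∀ k ≤ 4, ∀ p, ∃ k₁ ≤ 4, ∃ k₂ ≤ 4, v k₁ + 1 ≤ v k₂ ∧ v k₂ - v k₁ + v k + 1 ≤ A' ∧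
        zz k p = w k₂ - w k₁ := by
    have hdf : ∀ k ≤ 4, ∃ k₁ ≤ 4, ∃ k₂ ≤ 4, v k₁ + 1 ≤ v k₂ ∧ v k₂ - v k₁ + v k + 1 ≤ A' ∧
        w 3 - w 2 = w k₂ - w k₁ := fun k hk => by
      refine ⟨2, by norm_num, 3, by norm_num, ?_, ?_, rfl⟩
      · rw [e2, e3]
        norm_num
      · rw [e2, e3]
        linarith only [(hvb' k hk).2]
    rcases hva with h4 | h4
    · refine ⟨fun k _ => if k = 4 then w 3 - w 4 else w 3 - w 2, by simp, Or.inl ⟨?_, by simp⟩,
        fun k hk p => ?_⟩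
      · linarith only [h4]
      · beta_reduce
        by_cases h5 : k = 4
        · rw [if_pos h5, h5]
          refine ⟨4, le_rfl, 3, by norm_num, ?_, ?_, rfl⟩
          · rw [e3]
            linarith only [h4]
          · rw [e3]
            linarith only [F43]
        · rw [if_neg h5]
          exact hdf k hk
    · refine ⟨fun k _ => if k = 3 then w 4 - w 3 else w 3 - w 2, by simp, Or.inr ⟨?_, by simp⟩,
        fun k hk p => ?_⟩
      · linarith only [h4]
      · beta_reduce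
        by_cases h5 : k = 3
        · rw [if_pos h5, h5]
          refine ⟨3, by norm_num, 4, le_rfl, ?_, ?_, rfl⟩
          · rw [e3]
            linarith only [h4]
          · rw [e3]
            linarith only [(hvb' 4 le_rfl).2]
        · rw [if_neg h5]
          exact hdf k hk
  have W2 := wR 2 (by norm_num)
  have W3 := wR 3 (by norm_num)
  rw [e2] at W2
  rw [e3] at W3
  have AR : t * J + A' * U - 1 ≤ A := by
    have h7 := Nat.lt_floor_add_one ((t + A' * q) * J)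
    have h8 : (t + A' * q) * J = t * J + A' * U := by rw [hU]; ring
    rw [hA]
    rw [h8] at h7 ⊢
    linarith only [h7]
  have hU2a : 2 ≤ U := by
    have h5 : 0 ≤ (1 - y) * U := mul_nonneg (by linarith only [hy1]) hU0
    linarith only [hyU, h5, hCR]
  have hz1 : ∀ k ≤ 4, ∀ p ≤ 0, 1 / 2 * q * J ≤ zz k p ∧ zz k p ≤ ⌊(t + A' * q) * J⌋₊ -
      ⌊(t + v k * q) * J⌋₊ := fun k hk p _ => by
    rw [← hA]
    have h4 : ⌊(t + v k * q) * J⌋₊ = w k := by rw [hw]
    rw [h4]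
    obtain ⟨k₁, hk₁, k₂, hk₂, h5, h6, h7⟩ := hzz k hk p
    have h8 := mul_le_mul_of_nonneg_right h5 hU0
    have h9 := mul_le_mul_of_nonneg_right h6 hU0
    have w1 := wR k₁ hk₁
    have w2 := wR k₂ hk₂
    have w3 := wR k hk
    have h10 : w k₁ ≤ w k₂ := nat_le_of_real (by linarith only [w1.2, w2.1, h8, hU2a])
    rw [h7]
    constructor
    · rw [Nat.cast_sub h10]
      have : 1 / 2 * q * J = 1 / 2 * U := by rw [hU]; ring
      rw [this]
      linarith only [w1.2, w2.1, h8, hU2a]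
    · have h11 : w k₂ - w k₁ + w k ≤ A := nat_le_of_real (by
        push_cast
        rw [Nat.cast_sub h10]
        linarith only [w1.1, w2.2, w3.2, h9, AR, hU2a])
      omega
  obtain ⟨B, e, h, pp, g, gc, gT, g₀, G, H, Th, TH, Gt, Ht, hBA, hBP, E, hnum⟩ := hA1 zz hz1
  have hap := apN_of R hy0 hεy (by linarith only [hKA]) (N₁ := 4) (v := v) (fun k hk =>
      ⟨by linarith only [(hvb' k hk).1, hKB], by linarith only [(hvb' k hk).2]⟩)
      (fun k hk => ⟨k, by omega, Alk k hk, Vlk k hk⟩)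
      (Sc := fun l => l = 2) (fun l hl hl1 => by
        have : l = 2 := hl1
        rw [this]
        exact k2) (by rw [← hU]; linarith only [hyU, hCR]) E hnum
  obtain ⟨cl, hcl⟩ : ∃ cl : ℕ, cl = ⌊y * q * J⌋₊ := ⟨_, rfl⟩
  have c1 : (cl : ℝ) ≤ y * U := by
    have := hap.cl1
    rw [← hcl, ← hU] at this
    exact this
  have c2 : y * U - 1 ≤ cl := by
    have := hap.cl2
    rw [← hcl, ← hU] at this
    exact this
  rw [← hcl, ← hA, ← hw] at E
  rw [← hcl, ← hA, ← hw, ← hU] at hap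
  obtain ⟨X, hX⟩ : ∃ X, X = 50 * cl := ⟨_, rfl⟩
  obtain ⟨X', hX'⟩ : ∃ X', X' = C * (cl + X + 1) := ⟨_, rfl⟩
  obtain ⟨Q', hQ'⟩ : ∃ Q', Q' = C * (cl + X' + 1) := ⟨_, rfl⟩
  have XR : (X : ℝ) = 50 * cl := by rw [hX]; push_cast; ring
  have X'R : (X' : ℝ) ≤ 52 * (C * (y * U)) := by
    have h5 : (X' : ℝ) = C * (cl + 50 * cl + 1) := by rw [hX', hX]; push_cast; ring
    rw [h5]
    have h6 : (cl : ℝ) + 50 * cl + 1 ≤ 52 * (y * U) := by linarith only [c1, hyU, hCR]
    have h7 := mul_le_mul_of_nonneg_left h6 hC0.le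
    linarith only [h7]
  have hU1 : C * (y * U) ≤ C ^ 2 * y * U := by
    have := mul_le_mul_of_nonneg_right hCy hU0
    linarith only [this]
  have hU2 : y * U ≤ C ^ 2 * y * U := by
    have := mul_le_mul_of_nonneg_right hyy hU0
    linarith only [this]
  have hU3 : C ^ 2 * y * U ≤ U / 6000 := by
    have h5 : 6000 * C ^ 2 * y * U ≤ 1 * U := mul_le_mul_of_nonneg_right
      (by linarith only [hyC, hm1]) hU0
    linarith only [h5]
  have hU4 : C ^ 2 * y * U ≤ del * U / 6000 := by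
    have h5 : 6000 * C ^ 2 * y * U ≤ del * U := mul_le_mul_of_nonneg_right
      (by linarith only [hyC, hm2]) hU0
    linarith only [h5]
  have Q'R : (Q' : ℝ) ≤ 54 * (C ^ 2 * y * U) := by
    have h5 : (Q' : ℝ) = C * (cl + X' + 1) := by rw [hQ']; push_cast; ring
    rw [h5]
    have h6 : (cl : ℝ) + X' + 1 ≤ 52 * (C * (y * U)) + 2 * (y * U) := by
      linarith only [c1, X'R, hyU, hCR]
    have h7 := mul_le_mul_of_nonneg_left h6 hC0.le
    have h8 : C * (52 * (C * (y * U)) + 2 * (y * U)) = 52 * (C ^ 2 * y * U) +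
        2 * (C * (y * U)) := by ring
    linarith only [h7, h8, hU1]
  have hXX : X ≤ X' := by
    rw [hX']
    calc X ≤ 1 * (cl + X + 1) := by omega
      _ ≤ _ := Nat.mul_le_mul_right _ hC
  have hwe3 : w 3 ≤ ⌊(a : ℝ) * J⌋₊ := by
    rw [hw]
    exact Nat.floor_le_floor (mul_le_mul_of_nonneg_right
      (by rw [e3, one_mul]; exact ha1.le) hJ0)
  have hwe2 : w 2 ≤ ⌊(w' : ℝ) * J⌋₊ := by
    rw [hw]
    exact Nat.floor_le_floor (mul_le_mul_of_nonneg_right
      (by rw [e2, zero_mul, add_zero]; exact hw1.le) hJ0)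
  have heb : Eb * J + 3 * K * U - 1 ≤ (⌊e₂' * J⌋₊ : ℝ) := by
    have h5 := Nat.lt_floor_add_one (e₂' * J)
    have h6 := mul_le_mul_of_nonneg_right hEbe.le hJ0
    rw [hU]
    linarith only [h5, h6]
  have hlev : ∀ l ≤ 3, ∀ x : ℝ, x ≤ L l (t + q) (t + q) + y * q →
      (x + y * q) * J ≤ L l t t * J + Sl l * U + 3 * (y * U) := fun l hl x hx => by
    have h5 := (L1 l hl).1
    have h6 : x + y * q ≤ L l t t + Sl l * q + 3 * (y * q) := by linarith only [h5, hx, hyq]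
    have h7 := mul_le_mul_of_nonneg_right h6 hJ0
    rw [hU]
    linarith only [h7]
  have hyU0 : 0 ≤ y * U := mul_nonneg hy0.le hU0
  have hKU : 0 ≤ (K - y) * U := mul_nonneg (by linarith only [hy1, hKA, F43]) hU0
  have hLam0 : ∀ l ≤ 3, 0 ≤ L l t t * J + Sl l * U := fun l hl => by
    have h6 := hap.lo 3 (by norm_num) l hl
    rw [e3] at h6
    linarith only [h6, hKU, hU0]
  obtain ⟨g', p, x, d, f, n1, n2, n3, n4, n5, n6⟩ := num_ts (M := 0) (z := zz) hap
    (fun l _ => Iff.rfl) h0 hs.symm h2 hb.symm h1 h3 e2 e3 hz20 hz4 F1 F2 F3 F41 F42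
    (by linarith only [F43]) (by linarith only [(hvb' 4 le_rfl).2]) F51 (hvb 1 (by norm_num)).1
    F53 F54 F61 (by linarith only [hKA]) (by linarith only [hK, hB1, F43, h1])
    (by linarith only [hKB, hB0]) (by linarith only [hy1]) (X := X) (X' := X')
    (Q := C * (cl + X + 1)) (Q' := Q')
    (by rw [XR]; linarith only [c2, hyU, hCR]) hXX
    (by linarith only [X'R, hU1, hU3, hU0]) (by rw [← hX']; linarith only [X'R, hU1, hU3, hU0])
    (by linarith only [Q'R, hU3, hU0])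
    (a₁ := ⌊(a : ℝ) * J⌋₊) (e₁ := ⌊e₂' * J⌋₊) (b0 := ⌊(bet P₂ c 0 a a + y * q) * J⌋₊)
    (b2 := ⌊(bet P₂ c 2 a a + y * q) * J⌋₊) (at' := ⌊(a : ℝ) * J⌋₊) (wt' := ⌊(w' : ℝ) * J⌋₊)
    (eb' := ⌊e₂' * J⌋₊) (bt' := ⌊(bet P₂ c 3 a w' + y * q) * J⌋₊) hwe3 heb
    (by
      have h5 := hlev 0 (by norm_num) _ (r3 0 (by norm_num))
      have h6 := hLam0 0 (by norm_num)
      rw [h0] at h5 h6
      exact fl_leT (by linarith only [h5, hyU0]) (by linarith only [h6, hyU0]))
    (by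
      have h5 := hlev 2 (by norm_num) _ (r3 2 (by norm_num))
      have h6 := hLam0 2 (by norm_num)
      rw [h2] at h5 h6
      exact fl_leT (by linarith only [h5, hyU0]) (by linarith only [h6, hyU0])) hwe3 hwe2 heb
    (by
      have h5 : (⌊(bet P₂ c 3 a w' + y * q) * J⌋₊ : ℝ) ≤ L 3 t t * J + b * U + 3 * (y * U) -
          del * U := by
        have h6 := (L1 3 le_rfl).1
        rw [← hb] at h6
        refine fl_leT ?_ ?_
        · have h7 : bet P₂ c 3 a w' + y * q ≤ L 3 t t + b * q + 3 * (y * q) - del * q := by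
            linarith only [h6, r1, hcon, hyq]
          have h8 := mul_le_mul_of_nonneg_right h7 hJ0
          rw [hU]
          linarith only [h8]
        · have h7 := (R.lawL 3 le_rfl).mono_a t (t + q) t (by linarith only [ht0, hKq0, hq])
            le_rfl (by linarith only [hq]) (by linarith only [ht1, hKq0, hq])
          have h8 : L 3 t t ≤ L 3 t t + b * q + 3 * (y * q) - del * q := by
            linarith only [h6, h7, hcon, hyq]
          have h9 := mul_le_mul_of_nonneg_right h8 hJ0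
          have h10 := hap.lo 2 (by norm_num) 3 le_rfl
          rw [e2] at h10
          rw [hU] at h10 hKU ⊢
          linarith only [h9, h10, hKU]
      linarith only [h5, Q'R, hU4, hU2, hU0, hyU0])
  have hfin := hA2 E (fun ω hω => hBA ω hω) (by
      have : y * q / 2 * J = y * U / 2 := by rw [hU]; ring
      rw [this]
      linarith only [c2, hyU, hCR]) (nat_le_of_real (by linarith only [c2, hyU])) n1
    (le_of_eq hX'.symm) (le_max_left _ _)
    (le_max_right _ _) n2 (Or.inr n3) (fun l _ => Iff.rfl) n4 (by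
      have h5 := W3.2
      have h6 : t * J + 1 * U ≤ (t + K * q) * J := by
        rw [hU]
        have : 0 ≤ (K * q - q) * J := mul_nonneg (by linarith only [hKq0, hq]) hJ0
        linarith only [this]
      linarith only [h5, h6]) n5 (by rw [← hQ']; exact n6)
  have h5 : Pe F.p A₀ ≤ K₁ * Pe F.p B := hBP
  have h6 : 1 / K₁ * Pe F.p A₀ ≤ Pe F.p B := by
    rw [div_mul_eq_mul_div, one_mul, div_le_iff₀ hK₁]
    linarith only [h5]
  linarith only [hfin, h6]

end Pool.TN
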