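import Pool.Agent.H66.D2.Apn

/-!
# The event of the windows with the numbers in real form

`cevN`: from the record of a cell the event `CEv` at finitely many windows together with `ApN`.
-/

set_option autoImplicit false

namespace Pool.TN

open Finset Real MvPolynomial
open Pool.Agent.H49.Ent Pool.Agent.H32.Dense Pool.STK Pool.KA Pool.KSAT Pool.K2S Pool.PB Pool.S6C
open Pool.GEN Pool.CHT Pool.CHX Pool.ISO Pool.D2R Pool.D2Z Pool.D2F Pool.AFT Pool.PKG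
open Pool.LBT (ThrOf)

/-- **The event of a static cell with its numbers.** -/
theorem cevN (m i S₂ : ℕ) (hi : 1 ≤ i) (hi3 : i ≤ 3) (hS₂ : 1 ≤ S₂) : ∃ D : ℕ, 1 ≤ D ∧
    ∀ Dr : ℕ, D ≤ Dr → ∀ (Sl : ℕ → ℝ) (y gp : ℝ), 0 < y → y ≤ 1 / 8 → 0 < gp →
    (∀ l, 1 ≤ l → l ≤ 2 → l < i → 1 < Sl l) → (i = 3 → Sl 0 < Sl 1 ∧ Sl 0 < Sl 2) →
    ∃ (n₀ : ℕ) (s ε₀ : ℝ), 1 ≤ n₀ ∧ 0 < s ∧ (n₀ + 1) * s ≤ gp ∧ 0 < ε₀ ∧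
    ∀ {S : PCl m} {P P₂ : List (Fin m) × Fin m → ℝ → ℝ → ℝ} {θ θ₂ : ℝ} {c : ℕ → Fin m}
    {Pt : ℝ → ℝ → ℝ} {L T : ℕ → ℝ → ℝ → ℝ} {kd : ℕ → Kd} {S₀ N : ℕ} {Al V : ℕ → ℝ} {N' : ℕ}
    {V' : ℕ → ℝ} {Eb e₂ K ε q t : ℝ},
    RecQ S P P₂ θ θ₂ c i Pt L T Sl kd S₀ N Al V S₂ N' V' Eb e₂ K ε q t → S₀ ≤ S₂ → 0 ≤ ε →
    ε ≤ ε₀ → 1 ≤ K → ∀ (A' r' : ℝ) (N₁ M : ℕ) (v : ℕ → ℝ) (Sc : ℕ → Prop), A' ≤ K → 0 < r' →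
    (∀ k ≤ N₁, -K + 1 ≤ v k ∧ v k + gp ≤ A') → (∀ k ≤ N₁, ∃ j < N, Al j = A' ∧ V j = v k) →
    (∀ k ≤ N₁, ∀ j, 1 ≤ j → j ≤ n₀ → ∃ j' < N', V' j' = v k + j * s) →
    (∀ l < i, ¬ Sc l → kd l = .one ∨ kd l = .thin) → (∀ l < i, Sc l → kd l = .sta) →
    ∃ K₁ : ℝ, 0 < K₁ ∧ ∀ κ : ℝ, 0 < κ → Bas S (fun J F A₀ =>
      ∀ (w : ℕ → ℕ) (A cl : ℕ), (∀ k, w k = ⌊(t + v k * q) * J⌋₊) → A = ⌊(t + A' * q) * J⌋₊ →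
      cl = ⌊y * q * J⌋₊ → ∀ z : ℕ → ℕ → ℕ,
      (∀ k ≤ N₁, ∀ p ≤ M, r' * (q * J) ≤ z k p ∧ z k p + w k ≤ A) →
      ∃ (B : F.Ω → Prop) (e h pp : ℕ → ℕ) (g gc gT g₀ : ℕ → ℕ → ℕ)
        (G : ℕ → PtT F → ℕ → MvPolynomial (Option (Fin m)) ℝ)
        (H : ℕ → LnT F → ℕ → MvPolynomial (Option (Fin m)) ℝ)
        (Th : ℕ → PtT F → ℕ → MvPolynomial (Option (Fin m)) ℝ)
        (TH : ℕ → LnT F → ℕ → MvPolynomial (Option (Fin m)) ℝ)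
        (Gt : ℕ → PtT F → MvPolynomial (Option (Fin m)) ℝ)
        (Ht : ℕ → LnT F → MvPolynomial (Option (Fin m)) ℝ), Sub B A₀ ∧
        Pe F.p A₀ ≤ K₁ * Pe F.p B ∧
        CEv F c i D Dr N₁ M A cl Sc w e h pp z g gc gT g₀ κ B G H Th TH Gt Ht ∧
        ApN i N₁ J A cl Sc w e pp g gc gT g₀ (q * J) y (t * J) (Eb * J) K A' v Sl
          (fun l => L l t t * J)) := by
  obtain ⟨D, hD, hcev⟩ := RecQ.cev m i S₂ hi hi3 hS₂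
  refine ⟨D, hD, ?_⟩
  intro Dr hDr Sl y gp hy0 hy1 hgp hs1 hs3
  obtain ⟨n₀, s, ε₀, hn₀, hs, hns, hε₀, hcev⟩ := hcev Dr hDr Sl y gp hy0 hy1 hgp hs1 hs3
  refine ⟨n₀, s, min ε₀ (y / 4), hn₀, hs, hns, lt_min hε₀ (by positivity), ?_⟩
  intro S P P₂ θ θ₂ c Pt L T kd S₀ N Al V N' V' Eb e₂ K ε q t R hSS hε hεε hK A' r' N₁ M v Sc hAK hr'
    hv hm hch hSc hst
  obtain ⟨K₁, hK₁, hcev⟩ := hcev R hSS hε (hεε.trans (min_le_left _ _)) hK A' r' N₁ M v Sc hAK hr'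
    hv hm hch hSc
  refine ⟨K₁, hK₁, fun κ hκ => ?_⟩
  have hq := R.q0
  have hyq : 0 < y * q := mul_pos hy0 hq
  obtain ⟨J₁, hJ₁⟩ := exists_nat_ge (2 / (y * q))
  refine Bas.mono J₁ (hcev κ hκ) ?_
  rintro J hJ F A₀ hA w A cl hw hA' hcl z hz
  have hw' : w = fun k => ⌊(t + v k * q) * J⌋₊ := funext hw
  subst hw' hA' hcl
  have hJR : (J₁ : ℝ) ≤ J := by exact_mod_cast hJ
  have hyU : 2 ≤ y * (q * J) := by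
    have h4 := hJ₁.trans hJR
    rw [div_le_iff₀ hyq] at h4
    linarith only [h4]
  obtain ⟨B, e, h, pp, g, gc, gT, g₀, G, H, Th, TH, Gt, Ht, hBA, hBP, E, hnum⟩ := hA z
    fun k hk p hp => by
      obtain ⟨h1, h2⟩ := hz k hk p hp
      refine ⟨?_, Nat.le_sub_of_add_le h2⟩
      have : r' * q * J = r' * (q * J) := by ring
      rw [this]
      exact h1
  have hap := apN_of R hy0 (hεε.trans (min_le_right _ _)) hAK (N₁ := N₁) (v := v)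
    (fun k hk => ⟨by linarith only [(hv k hk).1], by linarith only [(hv k hk).2, hgp]⟩)
    hm (Sc := Sc) hst hyU E hnum
  exact ⟨B, e, h, pp, g, gc, gT, g₀, G, H, Th, TH, Gt, Ht, hBA, hBP, E, hap⟩

end Pool.TN
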