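import Pool.Agent.H95.R136.Scl

/-!
# The closed gradient of the thin place one below a static place two, at class level

`sta_cl`: in a class with thresholds, on an event of a static cell which is not small, the gradient of the
thin place one is closed on the line of an earlier window, on a quarter of the event.
-/

set_option autoImplicit false

namespace Pool.TNW

open Finset Real MvPolynomial
open Pool.Agent.H49.Ent Pool.Agent.H32.Dense Pool.STK Pool.KA Pool.KSAT Pool.K2S Pool.PB Pool.S6C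
open Pool.GEN Pool.CHT Pool.CHX Pool.ISO Pool.D2R Pool.D2Z Pool.D2F Pool.TN
open Pool.LBT (ThrOf)
open Pool.FLF (Fam.sub)
open Pool.PB.Trl (rt rt_mem t_rt)

/-- **The closed gradient of the thin place one** below a static place two. -/
theorem sta_cl (m D : ℕ) (hD : 1 ≤ D) : ∃ C : ℕ, 1 ≤ C ∧
    ∀ {θ : ℝ} {S : PCl m} {P : List (Fin m) × Fin m → ℝ → ℝ → ℝ} (_ : ThrOf (chsys m θ) S P)
    (_ : TmH S) (c : ℕ → Fin m) (_ : Set.InjOn c (Set.Iio (3 + 1))) (a : ℚ)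
    (e₁ h₁ b ε κ₀ : ℝ) (_ : 0 ≤ a) (_ : a < 1) (_ : e₁ < θ * a) (_ : 0 < h₁)
    (_ : bet P c 0 a a + h₁ ≤ 1) (_ : bet P c 2 a a + h₁ ≤ 1) (_ : b < 1) (_ : 0 < ε)
    (_ : 0 < κ₀),
    Bas S (fun J F A₀ => ∀ {Dr N M A cl X Q f i t k j : ℕ} {Sc : ℕ → Prop}
      {w e h pp : ℕ → ℕ} {z g gc gT g₀ : ℕ → ℕ → ℕ} {κ : ℝ} {B : F.Ω → Prop}
      {G : ℕ → PtT F → ℕ → MvPolynomial (Option (Fin m)) ℝ}
      {H : ℕ → LnT F → ℕ → MvPolynomial (Option (Fin m)) ℝ}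
      {T : ℕ → PtT F → ℕ → MvPolynomial (Option (Fin m)) ℝ}
      {TH : ℕ → LnT F → ℕ → MvPolynomial (Option (Fin m)) ℝ}
      {Gt : ℕ → PtT F → MvPolynomial (Option (Fin m)) ℝ}
      {Ht : ℕ → LnT F → MvPolynomial (Option (Fin m)) ℝ},
      CEv F c 3 D Dr N M A cl Sc w e h pp z g gc gT g₀ κ B G H T TH Gt Ht → Sub B A₀ →
      ε * J ≤ cl → C ≤ cl → C * (cl + X + 1) ≤ Q → ¬ Sc 0 → ¬ Sc 1 → Sc 2 →
      w k ≤ ⌊(a : ℝ) * J⌋₊ → (w k : ℝ) ≤ b * J →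
      (A - w k) + g₀ k 2 + Q ≤ gT i 2 → (A - w k) + g₀ k 2 + Q ≤ gT k 2 →
      (∀ l < 2, Q ≤ g₀ k l) → (∀ l ≤ 2, e k + g₀ k l + Q ≤ J) → e k + Q ≤ ⌊e₁ * J⌋₊ →
      ⌊(bet P c 0 a a + h₁) * J⌋₊ + w k ≤ g₀ k 0 + X + ⌊(a : ℝ) * J⌋₊ →
      ⌊(bet P c 2 a a + h₁) * J⌋₊ + w k ≤ g₀ k 2 + X + ⌊(a : ℝ) * J⌋₊ →
      ZNum 3 N A cl X w pp gc gT g₀ 2 i j →
      w j + g₀ j 0 + g₀ k 2 + Q + Q ≤ w k + g₀ k 0 + g₀ j 2 → BRel M X w z g₀ j k →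
      SNum N A cl X f (2 * Q) Q w pp gc gT g₀ i t k →
      κ₀ * Pe F.p A₀ ≤ Pe F.p B →
      ∃ B' : F.Ω → Prop, Sub B' B ∧ Pe F.p B ≤ 4 * Pe F.p B' ∧ ∀ ω, B' ω →
        ∀ V : Option (Fin m) → ℝ, V none = 0 →
        |∑ j ∈ range 1, (lamC c (w t) (Xcf w TH Sc i t) (slam F (w t) ω) j).eval
            (rt F (w t) ω) * V (some (c j)) - cv (gG G ω k 1) V| ≤
          2 ^ (C * (cl + X + 1) + 2 * Q) / 2 ^ g₀ k 1 *
            en c (g₀ k) (w k) (gG G ω k) 1 V) := by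
  classical
  obtain ⟨C₁, hC₁, hend⟩ := sta_two m D 3 hD le_rfl
  obtain ⟨C₂, hC₂, hj⟩ := scl_ev m D
  obtain ⟨C, hC⟩ : ∃ C, C = C₁ + 2 * C₂ := ⟨_, rfl⟩
  refine ⟨C, by omega, ?_⟩
  intro θ S P hP hT c hc a e₁ h₁ b ε κ₀ ha0 ha he hh hb0 hb2 hb hε hκ
  have hL2 : 0 < Real.log 2 := Real.log_pos (by norm_num)
  obtain ⟨μ, hμ⟩ : ∃ μ : ℝ, μ = min ε (1 - b) * Real.log 2 / 2 := ⟨_, rfl⟩
  have hμ0 : 0 < μ := by
    rw [hμ]
    have : 0 < min ε (1 - b) := lt_min hε (by linarith)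
    positivity
  have hC1R : (1 : ℝ) ≤ C₂ := by exact_mod_cast hC₂
  have hC10 : (0 : ℝ) < C₂ := by linarith
  obtain ⟨ε₁, hε₁⟩ : ∃ ε₁ : ℝ, ε₁ = μ / C₂ := ⟨_, rfl⟩
  have hε₁0 : 0 < ε₁ := by rw [hε₁]; positivity
  have htm := bas_ev (hT.2 ε₁ hε₁0) (show 0 < κ₀ / 4 by positivity)
  have hpos : Bas S (fun _ F A => 0 < Pe F.p A) := ⟨1, one_pos, 0, fun J _ F A hA =>
    hT.1 1 J F A hA⟩
  obtain ⟨J₁, hJ₁⟩ := exists_nat_ge ((C₂ : ℝ) / μ)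
  refine Bas.mono J₁ (((hend hP hT c hc a e₁ h₁ ε (κ₀ / 2) ha0 ha he hh hb0 hb2 hε
    (by positivity)).and htm).and hpos) ?_
  rintro J hJ F A₀ ⟨⟨hA, htA⟩, hA0⟩
  intro Dr N M A cl X Q f i t k j Sc w e h pp z g gc gT g₀ κ B G H T TH Gt Ht E hBA hεc hCc hQ
    hs0 hs1 hs2 hwa hKb n1 n2 hg₀ hroom hef f0 f2 hZ hwt hR nn hcon
  have eC : C * (cl + X + 1) = C₁ * (cl + X + 1) + 2 * (C₂ * (cl + X + 1)) := by
    rw [hC]
    ring
  rw [eC] at hQ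
  have hsm := hA E hBA hεc (by omega) (t := Q) (x₀ := 1) (jx := fun _ => j) (X := X) nn.iN nn.kN
    (nn.it.trans nn.tk) hwa hs0 hs1
    (fun l hl => ⟨(nn.cT l hl).2.2.2.1, (nn.cT l hl).2.2.2.2⟩) nn.pk nn.ck
    (nn.cT 2 (by norm_num)).1 n1 n2 (by omega) (fun l hl => by
      have := hg₀ l hl
      omega) (fun l hl => by
      have := hroom l hl
      omega) (by omega) f0 f2 (fun x hx hx1 => by
      have h0 : x = 0 := by omega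
      subst h0
      exact ⟨hZ, by omega⟩) (fun _ => hR)
  have hJ0 : (0 : ℝ) ≤ J := Nat.cast_nonneg J
  have hJ1 : (C₂ : ℝ) ≤ μ * J := by
    have h2 : (J₁ : ℝ) ≤ J := by exact_mod_cast hJ
    have h3 := hJ₁.trans h2
    rw [div_le_iff₀ hμ0] at h3
    linarith
  have hθ0 : 0 ≤ ε₁ * J := by positivity
  have hmain : C₂ * (ε₁ * J + 1) ≤ min ε (1 - b) * Real.log 2 * J := by
    have e1 : C₂ * (ε₁ * J) = μ * J := by rw [hε₁]; field_simp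
    have e2 : 2 * (μ * J) = min ε (1 - b) * Real.log 2 * J := by rw [hμ]; ring
    rw [mul_add, mul_one, e1]
    linarith
  have hm1 : C₂ * (ε₁ * J + 1) ≤ cl * Real.log 2 := by
    refine hmain.trans ?_
    have e1 : min ε (1 - b) * Real.log 2 * J ≤ ε * Real.log 2 * J :=
      mul_le_mul_of_nonneg_right (mul_le_mul_of_nonneg_right (min_le_left _ _) hL2.le) hJ0
    have e2 := mul_le_mul_of_nonneg_right hεc hL2.le
    linarith
  have hm2 : C₂ * (ε₁ * J + 1) ≤ ((J : ℝ) - w i) * Real.log 2 := by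
    refine hmain.trans ?_
    have e1 : min ε (1 - b) * Real.log 2 * J ≤ (1 - b) * Real.log 2 * J :=
      mul_le_mul_of_nonneg_right (mul_le_mul_of_nonneg_right (min_le_right _ _) hL2.le) hJ0
    have e2 : (w i : ℝ) ≤ b * J := le_trans (by exact_mod_cast nn.it.trans nn.tk) hKb
    have e3 := mul_le_mul_of_nonneg_right e2 hL2.le
    linarith
  have hexp : Real.exp (C₂ * (ε₁ * J + 1)) ≤ 2 ^ cl := by
    have e2 : Real.exp (C₂ * (ε₁ * J + 1)) ≤ Real.exp (cl * Real.log 2) :=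
      Real.exp_le_exp.2 hm1
    rw [mul_comm (cl : ℝ), ← Real.rpow_def_of_pos (by norm_num), Real.rpow_natCast] at e2
    exact e2
  -- the large part
  obtain ⟨Bs, hBs⟩ : ∃ Bs : F.Ω → Prop, Bs = fun ω => B ω ∧
      (1 < 2 → |hs (TH i (slam F (w i) ω) 2) (bt F ω) (bd F ω) (ev c 2 (gG G ω k) 1)| ≤
        2 ^ (w k + g₀ k 1) / 2 ^ (g₀ k 2 + Q + C₁ * (cl + X + 1))) := ⟨_, rfl⟩
  obtain ⟨Bb, hBb⟩ : ∃ Bb : F.Ω → Prop, Bb = fun ω => B ω ∧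
      2 ^ (w k + g₀ k 1) / 2 ^ (g₀ k 2 + 2 * Q) ≤
        |hs (TH i (slam F (w i) ω) 2) (bt F ω) (bd F ω) (ev c 2 (gG G ω k) 1)| := ⟨_, rfl⟩
  have hbB : Sub Bb B := fun ω hω => by rw [hBb] at hω; exact hω.1
  have hor := Pe_or F.isLaw (A := B) (B₀ := Bs) (B₁ := Bb) (fun ω hω => by
    rw [hBs, hBb]
    rcases le_total (|hs (TH i (slam F (w i) ω) 2) (bt F ω) (bd F ω) (ev c 2 (gG G ω k) 1)|)
      (2 ^ (w k + g₀ k 1) / 2 ^ (g₀ k 2 + Q + C₁ * (cl + X + 1))) with h4 | h4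
    · exact Or.inl ⟨hω, fun _ => h4⟩
    · refine Or.inr ⟨hω, le_trans (div_le_div_of_nonneg_left (by positivity) (by positivity)
        (p2 (by omega))) h4⟩)
  rw [← hBs] at hsm
  have hB0 : 0 < Pe F.p B := (mul_pos hκ hA0).trans_le hcon
  have hb2' : Pe F.p B ≤ 2 * Pe F.p Bb := by linarith
  have hBb0 : 0 < Pe F.p Bb := by linarith
  have hE2 := E.sb (B' := Bb) (κ₁ := 1 / 2) (κ₂ := 2 * max κ 0) hbB (by linarith) (by positivity)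
    (by
      have := le_max_left κ 0
      linarith)
  have hQ2 : C₂ * (cl + X + cl + 1) ≤ Q := by
    have e1 : C₂ * (cl + X + cl + 1) ≤ 2 * (C₂ * (cl + X + 1)) := by nlinarith
    omega
  have hnv := nn.nv
  obtain ⟨B', b1, b2, b3⟩ := hj hE2 (n := cl) (X := X) (f := f) (dd := 2 * Q) hs0 hs1 hs2
    { nn with nv := by omega } hBb0 hθ0 (fun B' hB' s1 s2 =>
    htA B' (fun ω hω => hBA ω (hbB ω (s1 ω hω))) (by linarith) hB') hm2 hexp (fun ω hω => by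
      rw [hBb] at hω
      exact hω.2)
  refine ⟨B', fun ω hω => hbB ω (b1 ω hω), by linarith, fun ω hω V hV => ?_⟩
  refine (b3 ω hω V hV).trans (mul_le_mul_of_nonneg_right (div_le_div_of_nonneg_right (p2 ?_)
    (by positivity)) (en_nonneg _ _ _ _ _ _))
  rw [eC]
  omega

end Pool.TNW
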